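import Pool.Agent.H71.LOC.Ext2

set_option autoImplicit false
set_option linter.unusedSectionVars false

/-!
# Graphs without cycles of length four
-/

namespace Pool.Agent.H71.LOC

open Finset Classical
open Pool.Agent.H234RC (Hypo NonIso Reconstructible exists_hypo)

variable {V : Type} [Fintype V]

/-- no cycle of length four -/
def C4Free (G : SimpleGraph V) : Prop :=
  ∀ a b x y : V, a ≠ b → x ≠ y → G.Adj a x → G.Adj a y → G.Adj b x → G.Adj b y → False

/-- the neighbours -/
noncomputable def nb (G : SimpleGraph V) (v : V) : Finset V := univ.filter (fun w => G.Adj v w)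

theorem mem_nb {G : SimpleGraph V} {v w : V} : w ∈ nb G v ↔ G.Adj v w := by
  unfold nb
  rw [mem_filter]
  exact and_iff_right (mem_univ _)

/-- the vertices which are reached from `v` by walks of length two -/
noncomputable def ball (G : SimpleGraph V) (v : V) : Finset V :=
  (nb G v).biUnion (fun u => (nb G u).erase v)

theorem card_ball {G : SimpleGraph V} (hG : C4Free G) {δ : ℕ} (hδ : ∀ v, δ ≤ (nb G v).card)
    (v : V) : δ * (δ - 1) ≤ (ball G v).card := by
  unfold ball
  rw [card_biUnion]
  · calc δ * (δ - 1) ≤ (nb G v).card * (δ - 1) := Nat.mul_le_mul_right _ (hδ v)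
      _ = ∑ u ∈ nb G v, (δ - 1) := by rw [sum_const, smul_eq_mul]
      _ ≤ ∑ u ∈ nb G v, ((nb G u).erase v).card := by
          apply sum_le_sum
          intro u hu
          rw [card_erase_of_mem (mem_nb.mpr (mem_nb.mp hu).symm)]
          exact Nat.sub_le_sub_right (hδ u) 1
  · intro a ha b hb hab
    rw [Function.onFun, disjoint_left]
    intro w hw1 hw2
    rw [mem_erase] at hw1 hw2
    exact hG a b v w hab hw1.1.symm (mem_nb.mp ha).symm (mem_nb.mp hw1.2)
      (mem_nb.mp hb).symm (mem_nb.mp hw2.2)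

theorem dist_ball {G : SimpleGraph V} {v w : V} (hw : w ∈ ball G v) : G.dist v w ≤ 2 := by
  unfold ball at hw
  rw [mem_biUnion] at hw
  obtain ⟨u, hu, hw⟩ := hw
  have h1 := mem_nb.mp hu
  have h2 := mem_nb.mp (mem_erase.mp hw).2
  exact SimpleGraph.dist_le (SimpleGraph.Walk.cons h1 (SimpleGraph.Walk.cons h2 .nil))

/-- embeddings of `G[D]` are determined by their restrictions to a contagious set -/
theorem pe_perc {G : SimpleGraph V} (hG : C4Free G) {X D' T : Finset V} (hXT : X ⊆ T) (hXD : X ⊆ D')
    (hP : Perc G (fun _ => 2) X D') :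
    (pe G G (D' ∪ T)).card ≤ (pe G G T).card := by
  apply card_le_card_of_injOn (fun J : Finset (V × V) => J.filter (fun p => p.1 ∈ T))
  · intro J hJ
    rw [mem_coe, mem_pe] at hJ
    rw [mem_coe, mem_pe]
    refine ⟨fun p hp q hq hne => hJ.1 p (mem_filter.mp hp).1 q (mem_filter.mp hq).1 hne, ?_⟩
    ext x
    rw [mem_image]
    constructor
    · rintro ⟨p, hp, rfl⟩
      exact (mem_filter.mp hp).2
    · intro hx
      have h2 : x ∈ J.image Prod.fst := by
        rw [hJ.2]
        exact mem_union_right _ hx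
      rw [mem_image] at h2
      obtain ⟨p, hp, rfl⟩ := h2
      exact ⟨p, mem_filter.mpr ⟨hp, hx⟩, rfl⟩
  · intro J hJ J' hJ' he
    rw [mem_coe, mem_pe] at hJ hJ'
    have he' : J.filter (fun p => p.1 ∈ T) = J'.filter (fun p => p.1 ∈ T) := he
    -- the set on which the two embeddings agree
    set A : Finset V := univ.filter (fun x => ∃ w, (x, w) ∈ J ∧ (x, w) ∈ J') with hA
    have hmA : ∀ x, x ∈ A ↔ ∃ w, (x, w) ∈ J ∧ (x, w) ∈ J' := by
      intro x
      rw [hA, mem_filter]
      exact and_iff_right (mem_univ _)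
    have himg : ∀ x ∈ D' ∪ T, ∃ w, (x, w) ∈ J := by
      intro x hx
      rw [← hJ.2, mem_image] at hx
      obtain ⟨p, hp, rfl⟩ := hx
      exact ⟨p.2, hp⟩
    have himg' : ∀ x ∈ D' ∪ T, ∃ w, (x, w) ∈ J' := by
      intro x hx
      rw [← hJ'.2, mem_image] at hx
      obtain ⟨p, hp, rfl⟩ := hx
      exact ⟨p.2, hp⟩
    have hTA : T ⊆ A := by
      intro x hx
      obtain ⟨w, hw⟩ := himg x (mem_union_right _ hx)
      rw [hmA]
      refine ⟨w, hw, ?_⟩
      have h1 : (x, w) ∈ J.filter (fun p => p.1 ∈ T) := mem_filter.mpr ⟨hw, hx⟩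
      rw [he'] at h1
      exact (mem_filter.mp h1).1
    have hDA : D' ⊆ A := by
      by_contra hcon
      have hne : A ∩ D' ≠ D' := by
        intro e
        apply hcon
        rw [← e]
        exact inter_subset_left
      have hXA : X ⊆ A := hXT.trans hTA
      · obtain ⟨v, hv, hvA, h2⟩ := hP (A ∩ D') (subset_inter hXA hXD) inter_subset_right hne
        have hvA' : v ∉ A := fun h => hvA (mem_inter.mpr ⟨h, hv⟩)
        have h2' : 1 < ((A ∩ D').filter (fun u => G.Adj v u)).card := h2
        obtain ⟨a, ha, b, hb, hab⟩ := one_lt_card.mp h2'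
        rw [mem_filter, mem_inter] at ha hb
        obtain ⟨α, hα, hα'⟩ := (hmA a).mp ha.1.1
        obtain ⟨β, hβ, hβ'⟩ := (hmA b).mp hb.1.1
        obtain ⟨w, hw⟩ := himg v (mem_union_left _ hv)
        obtain ⟨w', hw'⟩ := himg' v (mem_union_left _ hv)
        have hva : v ≠ a := G.ne_of_adj ha.2
        have hvb : v ≠ b := G.ne_of_adj hb.2
        have hne1 : (v, w) ≠ (a, α) := fun e => hva (congrArg Prod.fst e)
        have hne2 : (v, w) ≠ (b, β) := fun e => hvb (congrArg Prod.fst e)
        have hne3 : (v, w') ≠ (a, α) := fun e => hva (congrArg Prod.fst e)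
        have hne4 : (v, w') ≠ (b, β) := fun e => hvb (congrArg Prod.fst e)
        have hne5 : (a, α) ≠ (b, β) := fun e => hab (congrArg Prod.fst e)
        have k1 := (hJ.1 _ hw _ hα hne1).2.2.mpr ha.2
        have k2 := (hJ.1 _ hw _ hβ hne2).2.2.mpr hb.2
        have k3 := (hJ'.1 _ hw' _ hα' hne3).2.2.mpr ha.2
        have k4 := (hJ'.1 _ hw' _ hβ' hne4).2.2.mpr hb.2
        have k5 : α ≠ β := (hJ.1 _ hα _ hβ hne5).2.1
        by_cases hww : w = w'
        · apply hvA'
          rw [hmA]
          refine ⟨w, hw, ?_⟩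
          rw [hww]
          exact hw'
        · exact hG w w' α β hww k5 k1 k2 k3 k4
    ext p
    constructor
    · intro hp
      have hx : p.1 ∈ D' ∪ T := by
        rw [← hJ.2]
        exact mem_image_of_mem _ hp
      have hxA : p.1 ∈ A := by
        rcases mem_union.mp hx with h | h
        · exact hDA h
        · exact hTA h
      obtain ⟨w, hw, hw'⟩ := (hmA p.1).mp hxA
      have : (p.1, w) = p := fst_inj hJ.1 hw hp rfl
      rw [← this]
      exact hw'
    · intro hp
      have hx : p.1 ∈ D' ∪ T := by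
        rw [← hJ'.2]
        exact mem_image_of_mem _ hp
      have hxA : p.1 ∈ A := by
        rcases mem_union.mp hx with h | h
        · exact hDA h
        · exact hTA h
      obtain ⟨w, hw, hw'⟩ := (hmA p.1).mp hxA
      have : (p.1, w) = p := fst_inj hJ'.1 hw' hp rfl
      rw [← this]
      exact hw

end Pool.Agent.H71.LOC
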