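import Pool.Agent.H71.LOC.C4

set_option autoImplicit false
set_option linter.unusedSectionVars false

/-!
# Graphs without cycles of length four are reconstructible
-/

namespace Pool.Agent.H71.LOC

open Finset Classical
open Pool.Agent.H234RC (Hypo NonIso Reconstructible exists_hypo)

variable {V : Type} [Fintype V]

theorem seven_eighths {L : ℝ} {d : ℕ} (hd : 64 * L ≤ d) :
    (7 / 8 : ℝ) ^ d * (2 : ℝ) ^ ((d : ℝ) / 8) ≤ (2 : ℝ) ^ (-(4 * L)) := by
  have h1 : (7 / 8 : ℝ) ≤ (2 : ℝ) ^ (-(3 / 16) : ℝ) := by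
    have h2 : (7 / 8 : ℝ) ^ 16 ≤ ((2 : ℝ) ^ (-(3 / 16) : ℝ)) ^ 16 := by
      rw [← Real.rpow_natCast ((2 : ℝ) ^ (-(3 / 16) : ℝ)), ← Real.rpow_mul (by norm_num)]
      have e1 : (-(3 / 16) : ℝ) * ((16 : ℕ) : ℝ) = ((-3 : ℤ) : ℝ) := by norm_num
      rw [e1, Real.rpow_intCast]
      norm_num
    exact le_of_pow_le_pow_left₀ (by norm_num) (by positivity) h2
  calc (7 / 8 : ℝ) ^ d * (2 : ℝ) ^ ((d : ℝ) / 8) ≤
      ((2 : ℝ) ^ (-(3 / 16) : ℝ)) ^ d * (2 : ℝ) ^ ((d : ℝ) / 8) := by
        apply mul_le_mul_of_nonneg_right _ (by positivity)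
        exact pow_le_pow_left₀ (by norm_num) h1 d
    _ = (2 : ℝ) ^ (-(3 / 16) * (d : ℝ) + (d : ℝ) / 8) := by
        rw [← Real.rpow_natCast, ← Real.rpow_mul (by norm_num), ← Real.rpow_add (by norm_num)]
    _ ≤ (2 : ℝ) ^ (-(4 * L)) := by
        apply Real.rpow_le_rpow_of_exponent_le (by norm_num)
        linarith

/-- the numerical inequality -/
theorem num4 {n Δ δ L t D1 F b : ℝ} (hL : 9 ≤ L) (hΔ : 512 ≤ Δ) (hLΔ : 64 * L ≤ Δ)
    (hlog : Real.log Δ = L * Real.log 2) (hδ : 64 * L ≤ δ) (hn : 1024 * L ^ 2 ≤ n)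
    (hF : F * Δ ^ 4 ≤ 4 * n) (hD1 : 4 * D1 ≤ n) (hb : 1024 * b * L ≤ n)
    (ht : t ≤ 5 * (4 * n / δ + F + 4 * b + (8 * n * Real.log Δ / δ ^ 2 + 1 + n / Δ ^ 2))) :
    2 + 2 * Real.logb 2 n + t * (2 * L + 1) + D1 + F + b < n := by
  have hl2 := Real.log_two_gt_d9
  have hl2' := Real.log_two_lt_d9
  have hLpos : 0 < L := by linarith
  have hΔpos : 0 < Δ := by linarith
  have hδpos : 0 < δ := by linarith
  have hn1 : 80000 ≤ n := by nlinarith
  have hnL : 9216 * L ≤ n := by nlinarith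
  have hn0 : 0 < n := by linarith
  have e1 : 4 * n / δ ≤ 1 / 16 * (n / L) := by
    rw [div_le_iff₀ hδpos]
    have h1 : 0 ≤ 1 / 16 * (n / L) := by positivity
    have h2 := mul_le_mul_of_nonneg_left hδ h1
    have h3 : 1 / 16 * (n / L) * (64 * L) = 4 * n := by
      field_simp
      norm_num
    linarith
  have e2 : 8 * n * Real.log Δ / δ ^ 2 ≤ 0.00136 * (n / L) := by
    rw [hlog, div_le_iff₀ (by positivity)]
    have h1 : 0 ≤ 0.00136 * (n / L) := by positivity
    have h0 : (64 * L) ^ 2 ≤ δ ^ 2 := pow_le_pow_left₀ (by linarith) hδ 2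
    have h2 := mul_le_mul_of_nonneg_left h0 h1
    have h3 : 0.00136 * (n / L) * (64 * L) ^ 2 = 5.57056 * (n * L) := by
      field_simp
      norm_num
    have h4 : 8 * n * (L * Real.log 2) ≤ 5.57056 * (n * L) := by
      have h5 : 0 ≤ n * L := by positivity
      nlinarith
    linarith
  have hF' : F ≤ 4 * n / Δ ^ 4 := by
    rw [le_div_iff₀ (by positivity)]
    exact hF
  have e3 : F ≤ 0.000001 * (n / L) := by
    refine hF'.trans ?_
    rw [div_le_iff₀ (by positivity)]
    have h1 : Δ * 512 ^ 3 ≤ Δ ^ 4 := by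
      have : (512 : ℝ) ^ 3 ≤ Δ ^ 3 := pow_le_pow_left₀ (by norm_num) hΔ 3
      nlinarith
    have h2 : 64 * L * 512 ^ 3 ≤ Δ ^ 4 := by nlinarith
    have h3 : 0 ≤ 0.000001 * (n / L) := by positivity
    have h4 := mul_le_mul_of_nonneg_left h2 h3
    have h5 : 0.000001 * (n / L) * (64 * L * 512 ^ 3) = 0.000001 * 64 * 512 ^ 3 * n := by
      field_simp
    rw [h5] at h4
    linarith
  have e4 : n / Δ ^ 2 ≤ 0.00004 * (n / L) := by
    rw [div_le_iff₀ (by positivity)]
    have h2 : 64 * L * 512 ≤ Δ ^ 2 := by nlinarith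
    have h3 : 0 ≤ 0.00004 * (n / L) := by positivity
    have h4 := mul_le_mul_of_nonneg_left h2 h3
    have h5 : 0.00004 * (n / L) * (64 * L * 512) = 1.31072 * n := by
      field_simp
      norm_num
    rw [h5] at h4
    linarith
  have e5 : 1 ≤ 0.00011 * (n / L) := by
    have h1 : 9216 ≤ n / L := by
      rw [le_div_iff₀ hLpos]
      exact hnL
    linarith
  have e6 : b ≤ 1 / 1024 * (n / L) := by
    have h1 : b ≤ n / (1024 * L) := by
      rw [le_div_iff₀ (by positivity)]
      linarith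
    have h2 : n / (1024 * L) = 1 / 1024 * (n / L) := by
      field_simp
    linarith
  have ht' : t ≤ 5 * (0.06792 * (n / L)) := by
    refine ht.trans ?_
    have : 4 * n / δ + F + 4 * b + (8 * n * Real.log Δ / δ ^ 2 + 1 + n / Δ ^ 2) ≤
        0.06792 * (n / L) := by linarith
    linarith
  have e7 : t * (2 * L + 1) ≤ 5 * (0.06792 * (n / L)) * (2 * L + 1) :=
    mul_le_mul_of_nonneg_right ht' (by linarith)
  have e8 : 5 * (0.06792 * (n / L)) * (2 * L + 1) = 0.6792 * n + 0.3396 * (n / L) := by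
    field_simp
    ring
  have e9 : n / L ≤ n / 9 := div_le_div_of_nonneg_left hn0.le (by norm_num) hL
  have e10 : 2 * Real.logb 2 n ≤ 0.01 * n := by
    have h1 : Real.log n ≤ n / 1024 + 10 * Real.log 2 - 1 := by
      have h2 := Real.log_le_sub_one_of_pos (div_pos hn0 (by norm_num : (0 : ℝ) < 1024))
      rw [Real.log_div hn0.ne' (by norm_num)] at h2
      have h3 : Real.log 1024 = 10 * Real.log 2 := by
        have : (1024 : ℝ) = 2 ^ (10 : ℕ) := by norm_num
        rw [this, Real.log_pow]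
        norm_num
      rw [h3] at h2
      linarith
    have h4 : Real.logb 2 n ≤ 0.005 * n := by
      rw [Real.logb, div_le_iff₀ (by linarith)]
      nlinarith
    linarith
  rw [e8] at e7
  linarith

/-- a vertex of large degree with few neighbours of small degree has a large ball -/
theorem card_ball' {G : SimpleGraph V} (hG : C4Free G) {δ : ℕ} {v : V}
    (hv : δ ≤ 2 * ((nb G v).filter (fun u => δ ≤ (nb G u).card)).card) :
    δ * (δ - 1) ≤ 2 * (ball G v).card := by
  have hsub : ((nb G v).filter (fun u => δ ≤ (nb G u).card)).biUnion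
      (fun u => (nb G u).erase v) ⊆ ball G v := by
    unfold ball
    exact biUnion_subset_biUnion_of_subset_left _ (filter_subset _ _)
  have h1 := card_le_card hsub
  rw [card_biUnion] at h1
  · have h2 : ((nb G v).filter (fun u => δ ≤ (nb G u).card)).card * (δ - 1) ≤
        ∑ u ∈ (nb G v).filter (fun u => δ ≤ (nb G u).card), ((nb G u).erase v).card := by
      rw [← smul_eq_mul, ← sum_const]
      apply sum_le_sum
      intro u hu
      rw [mem_filter] at hu
      rw [card_erase_of_mem (mem_nb.mpr (mem_nb.mp hu.1).symm)]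
      exact Nat.sub_le_sub_right hu.2 1
    calc δ * (δ - 1) ≤ 2 * ((nb G v).filter (fun u => δ ≤ (nb G u).card)).card * (δ - 1) :=
          Nat.mul_le_mul_right _ hv
      _ = 2 * (((nb G v).filter (fun u => δ ≤ (nb G u).card)).card * (δ - 1)) := by ring
      _ ≤ 2 * (ball G v).card := Nat.mul_le_mul_left _ (h2.trans h1)
  · intro a ha b hb hab
    rw [mem_coe, mem_filter] at ha hb
    rw [Function.onFun, disjoint_left]
    intro w hw1 hw2
    rw [mem_erase] at hw1 hw2
    exact hG a b v w hab hw1.1.symm (mem_nb.mp ha.1).symm (mem_nb.mp hw1.2)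
      (mem_nb.mp hb.1).symm (mem_nb.mp hw2.2)

/-- few vertices have many neighbours of small degree -/
theorem few_bad (G : SimpleGraph V) {δ : ℕ} (hδ : 1 ≤ δ) :
    (univ.filter (fun v => ¬ δ ≤ 2 * ((nb G v).filter (fun u => δ ≤ (nb G u).card)).card)).card ≤
      3 * (univ.filter (fun v : V => (nb G v).card < δ)).card := by
  set B : Finset V := univ.filter (fun v : V => (nb G v).card < δ) with hB
  set W : Finset V := univ.filter (fun v => ¬ δ ≤ 2 * ((nb G v).filter
    (fun u => δ ≤ (nb G u).card)).card) with hW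
  have h1 : W.card ≤ (W \ B).card + B.card := by
    have := card_le_card_sdiff_add_card (s := W) (t := B)
    omega
  -- double counting
  have h2 : ∀ v ∈ W \ B, δ ≤ 2 * (B.filter (fun u => G.Adj v u)).card := by
    intro v hv
    rw [mem_sdiff, hW, mem_filter, hB, mem_filter] at hv
    obtain ⟨⟨_, h3⟩, h4⟩ := hv
    have h5 : δ ≤ (nb G v).card := by
      by_contra h6
      exact h4 ⟨mem_univ _, by omega⟩
    have h6 := card_filter_add_card_filter_not (s := nb G v) (fun u => δ ≤ (nb G u).card)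
    have h7 : ((nb G v).filter (fun u => ¬ δ ≤ (nb G u).card)).card ≤
        (B.filter (fun u => G.Adj v u)).card := by
      apply card_le_card
      intro u hu
      rw [mem_filter] at hu ⊢
      exact ⟨by rw [hB]; exact mem_filter.mpr ⟨mem_univ _, by omega⟩, mem_nb.mp hu.1⟩
    omega
  have h3 : (W \ B).card * δ ≤ 2 * (B.card * δ) := by
    calc (W \ B).card * δ = ∑ v ∈ W \ B, δ := by rw [sum_const, smul_eq_mul]
      _ ≤ ∑ v ∈ W \ B, 2 * (B.filter (fun u => G.Adj v u)).card := sum_le_sum h2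
      _ = 2 * ∑ v ∈ W \ B, (B.filter (fun u => G.Adj v u)).card := by rw [mul_sum]
      _ ≤ 2 * ∑ v : V, (B.filter (fun u => G.Adj v u)).card :=
          Nat.mul_le_mul_left _ (sum_le_sum_of_subset (subset_univ _))
      _ = 2 * ∑ u ∈ B, (nb G u).card := by
          congr 1
          have e1 : ∀ v : V, (B.filter (fun u => G.Adj v u)).card =
              ∑ u ∈ B, if G.Adj v u then 1 else 0 := by
            intro v
            rw [card_filter]
          rw [sum_congr rfl (fun v _ => e1 v), sum_comm]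
          apply sum_congr rfl
          intro u _
          rw [← card_filter]
          unfold nb
          congr 1
          apply filter_congr
          intro v _
          exact G.adj_comm v u
      _ ≤ 2 * ∑ u ∈ B, δ := by
          apply Nat.mul_le_mul_left
          apply sum_le_sum
          intro u hu
          rw [hB, mem_filter] at hu
          exact hu.2.le
      _ = 2 * (B.card * δ) := by rw [sum_const, smul_eq_mul]
  have h4 : (W \ B).card ≤ 2 * B.card := by
    have h5 : (W \ B).card * δ ≤ (2 * B.card) * δ := by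
      calc (W \ B).card * δ ≤ 2 * (B.card * δ) := h3
        _ = (2 * B.card) * δ := by ring
    exact Nat.le_of_mul_le_mul_right h5 hδ
  omega

/-- the counting bound, with logarithms -/
theorem finish {G H : SimpleGraph V} {π : V → Equiv.Perm V} (hH : Hypo G H π) (hN : NonIso G H)
    {D : Finset V} (hloc : Loc G D) {t Δ : ℕ} (hΔ : 2 ≤ Δ) (hn : 3 ≤ Fintype.card V)
    (hpe : (pe G G D).card ≤ Fintype.card V * Δ ^ t)
    (hnum : 2 + 2 * Real.logb 2 (Fintype.card V) + 2 * (t * Real.logb 2 Δ) + (D.card : ℝ) <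
      (Fintype.card V : ℝ)) : False := by
  have hΔr : (2 : ℝ) ≤ Δ := by exact_mod_cast hΔ
  have hn3 : (3 : ℝ) ≤ Fintype.card V := by exact_mod_cast hn
  have hlogn : 0 ≤ Real.logb 2 (Fintype.card V) := Real.logb_nonneg (by norm_num) (by linarith)
  have hlogΔ : 0 ≤ Real.logb 2 Δ := Real.logb_nonneg (by norm_num) (by linarith)
  have hDn : D.card ≤ Fintype.card V := card_le_univ D
  have hDu : D ≠ univ := by
    intro e
    rw [e, card_univ] at hnum
    have h0 : 0 ≤ (t : ℝ) * Real.logb 2 Δ := by positivity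
    linarith
  have hb := bound hH hN hloc hDu
  have hpos : 1 ≤ (pe G G univ).card := (aut_pos G).trans (aut_le_pe G)
  have e1 : ((Fintype.card V * Δ ^ t : ℕ) : ℝ) =
      (2 : ℝ) ^ (Real.logb 2 (Fintype.card V) + (t : ℝ) * Real.logb 2 Δ) := by
    rw [Real.rpow_add (by norm_num), Real.rpow_logb (by norm_num) (by norm_num) (by linarith),
      mul_comm (t : ℝ), Real.rpow_mul (by norm_num),
      Real.rpow_logb (by norm_num) (by norm_num) (by linarith), Real.rpow_natCast]
    push_cast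
    rfl
  have e2 : ((pe G G D).card : ℝ) ≤
      (2 : ℝ) ^ (Real.logb 2 (Fintype.card V) + (t : ℝ) * Real.logb 2 Δ) := by
    rw [← e1]
    exact_mod_cast hpe
  have e3 : ((pe G G D).card : ℝ) ^ 2 ≤
      (2 : ℝ) ^ (2 * (Real.logb 2 (Fintype.card V) + (t : ℝ) * Real.logb 2 Δ)) := by
    refine (pow_le_pow_left₀ (Nat.cast_nonneg _) e2 2).trans (le_of_eq ?_)
    rw [← Real.rpow_natCast, ← Real.rpow_mul (by norm_num)]
    congr 1
    push_cast
    ring
  have e4 : (2 : ℝ) ^ (Fintype.card V - D.card) =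
      (2 : ℝ) ^ ((Fintype.card V : ℝ) - (D.card : ℝ)) := by
    rw [← Nat.cast_sub hDn, Real.rpow_natCast]
  have e5 : (4 : ℝ) * ((pe G G D).card : ℝ) ^ 2 < (2 : ℝ) ^ (Fintype.card V - D.card) := by
    rw [e4]
    have e6 : (4 : ℝ) = (2 : ℝ) ^ (2 : ℝ) := by norm_num
    calc (4 : ℝ) * ((pe G G D).card : ℝ) ^ 2 ≤
        4 * (2 : ℝ) ^ (2 * (Real.logb 2 (Fintype.card V) + (t : ℝ) * Real.logb 2 Δ)) := by
          linarith
      _ = (2 : ℝ) ^ (2 + 2 * (Real.logb 2 (Fintype.card V) + (t : ℝ) * Real.logb 2 Δ)) := by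
          rw [e6, ← Real.rpow_add (by norm_num)]
      _ < _ := by
          apply Real.rpow_lt_rpow_of_exponent_lt (by norm_num)
          linarith
  have e7 : 4 * (pe G G D).card ^ 2 < 2 ^ (Fintype.card V - D.card) := by exact_mod_cast e5
  have e8 : 2 ^ (Fintype.card V - D.card) ≤
      (pe G G univ).card ^ 2 * 2 ^ (Fintype.card V - D.card) := by
    have h1 := Nat.pow_le_pow_left hpos 2
    calc 2 ^ (Fintype.card V - D.card) = 1 ^ 2 * 2 ^ (Fintype.card V - D.card) := by ring
      _ ≤ _ := Nat.mul_le_mul_right _ h1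
  omega

/-- **Theorem T.** -/
theorem thmT (G : SimpleGraph V) (h3 : 3 ≤ Fintype.card V) (Δ : ℕ) (hΔ2 : 2 ≤ Δ)
    (hG : C4Free G) (hmax : ∀ v, (nb G v).card ≤ Δ)
    (hB : 1024 * ((univ.filter (fun v : V => ((nb G v).card : ℝ) < 64 * Real.logb 2 Δ)).card : ℝ) *
      Real.logb 2 Δ ≤ Fintype.card V) :
    Reconstructible G ∧ Reconstructible Gᶜ := by
  apply rec_of
  intro H π hH hN
  have hΔr : (2 : ℝ) ≤ Δ := by exact_mod_cast hΔ2
  have hn3 : (3 : ℝ) ≤ Fintype.card V := by exact_mod_cast h3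
  have hcut : CutConn G := by
    intro A hA hB'
    by_contra hcon
    push Not at hcon
    apply hN
    exact Pool.Agent.TH87.RVP.disc_iso hH h3 A hA hB' (fun x hx y hy => hcon x hx y hy)
  have hVne : Nonempty V := Fintype.card_pos_iff.mp (by omega)
  have hconn := conn_of_cut hVne hcut
  set L : ℝ := Real.logb 2 Δ with hL
  set n : ℝ := (Fintype.card V : ℝ) with hndef
  have hL1 : 1 ≤ L := by
    rw [hL, Real.le_logb_iff_rpow_le (by norm_num) (by linarith), Real.rpow_one]
    exact hΔr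
  have hlog : Real.log Δ = L * Real.log 2 := by
    rw [hL, Real.logb]
    have : Real.log 2 ≠ 0 := (Real.log_pos (by norm_num)).ne'
    field_simp
  -- the degree bound
  set δ : ℕ := ⌈64 * L⌉₊ with hδdef
  have hδL : 64 * L ≤ (δ : ℝ) := Nat.le_ceil _
  have hδpos : (0 : ℝ) < δ := by linarith
  have hδ1 : 1 ≤ δ := by exact_mod_cast (show (0 : ℝ) < δ from hδpos)
  set B : Finset V := univ.filter (fun v : V => ((nb G v).card : ℝ) < 64 * L) with hBdef
  have hBδ : univ.filter (fun v : V => (nb G v).card < δ) = B := by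
    rw [hBdef]
    apply filter_congr
    intro v _
    rw [hδdef, Nat.lt_ceil]
  set W : Finset V := univ.filter (fun v => ¬ δ ≤ 2 * ((nb G v).filter
    (fun u => δ ≤ (nb G u).card)).card) with hW
  have hWB : W.card ≤ 3 * B.card := by
    rw [← hBδ]
    exact few_bad G hδ1
  have hBn : 1024 * B.card ≤ Fintype.card V := by
    have h1 : (1024 : ℝ) * B.card ≤ n := by
      refine le_trans ?_ hB
      have : (0 : ℝ) ≤ 1024 * B.card := by positivity
      nlinarith
    rw [hndef] at h1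
    exact_mod_cast h1
  obtain ⟨v0, hv0⟩ : ∃ v0, v0 ∉ W := by
    by_contra hcon
    push Not at hcon
    have h1 : (univ : Finset V) ⊆ W := fun v _ => hcon v
    have h2 := card_le_card h1
    rw [card_univ] at h2
    omega
  have hWball : ∀ v, v ∉ W → δ * (δ - 1) ≤ 2 * (ball G v).card := by
    intro v hv
    apply card_ball' hG
    by_contra h1
    exact hv (mem_filter.mpr ⟨mem_univ _, h1⟩)
  have h64 : 64 * L ≤ (Δ : ℝ) := by
    have h1 : δ ≤ 2 * ((nb G v0).filter (fun u => δ ≤ (nb G u).card)).card := by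
      by_contra h1
      exact hv0 (mem_filter.mpr ⟨mem_univ _, h1⟩)
    have h2 : 0 < ((nb G v0).filter (fun u => δ ≤ (nb G u).card)).card := by omega
    obtain ⟨u, hu⟩ := card_pos.mp h2
    have h4 := (mem_filter.mp hu).2.trans (hmax u)
    refine hδL.trans ?_
    exact_mod_cast h4
  have hpow : ∀ j : ℕ, 2 ^ j ≤ Δ → (j : ℝ) ≤ L := by
    intro j hj
    rw [hL, Real.le_logb_iff_rpow_le (by norm_num) (by linarith), Real.rpow_natCast]
    exact_mod_cast hj
  have hbig : 512 ≤ Δ := by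
    by_contra hlt
    have hcases : (Δ < 4) ∨ (4 ≤ Δ ∧ Δ < 8) ∨ (8 ≤ Δ ∧ Δ < 16) ∨ (16 ≤ Δ ∧ Δ < 32) ∨
        (32 ≤ Δ ∧ Δ < 64) ∨ (64 ≤ Δ ∧ Δ < 128) ∨ (128 ≤ Δ ∧ Δ < 256) ∨
        (256 ≤ Δ ∧ Δ < 512) := by omega
    rcases hcases with h1 | ⟨h1, h2⟩ | ⟨h1, h2⟩ | ⟨h1, h2⟩ | ⟨h1, h2⟩ | ⟨h1, h2⟩ | ⟨h1, h2⟩ |
      ⟨h1, h2⟩
    · have h5 : (Δ : ℝ) < 4 := by exact_mod_cast h1
      linarith
    · have h4 := hpow 2 (by omega)
      have h5 : (Δ : ℝ) < 8 := by exact_mod_cast h2
      norm_num at h4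
      linarith
    · have h4 := hpow 3 (by omega)
      have h5 : (Δ : ℝ) < 16 := by exact_mod_cast h2
      norm_num at h4
      linarith
    · have h4 := hpow 4 (by omega)
      have h5 : (Δ : ℝ) < 32 := by exact_mod_cast h2
      norm_num at h4
      linarith
    · have h4 := hpow 5 (by omega)
      have h5 : (Δ : ℝ) < 64 := by exact_mod_cast h2
      norm_num at h4
      linarith
    · have h4 := hpow 6 (by omega)
      have h5 : (Δ : ℝ) < 128 := by exact_mod_cast h2
      norm_num at h4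
      linarith
    · have h4 := hpow 7 (by omega)
      have h5 : (Δ : ℝ) < 256 := by exact_mod_cast h2
      norm_num at h4
      linarith
    · have h4 := hpow 8 (by omega)
      have h5 : (Δ : ℝ) < 512 := by exact_mod_cast h2
      norm_num at h4
      linarith
  have hL9 : 9 ≤ L := by
    have := hpow 9 (by omega)
    norm_num at this
    exact this
  have hΔ512 : (512 : ℝ) ≤ Δ := by exact_mod_cast hbig
  have hΔpos : (0 : ℝ) < Δ := by linarith
  have hballr : ∀ v, v ∉ W → (δ : ℝ) ^ 2 / 4 ≤ ((ball G v).card : ℝ) := by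
    intro v hv
    have h1 : ((δ * (δ - 1) : ℕ) : ℝ) ≤ ((2 * (ball G v).card : ℕ) : ℝ) := by
      exact_mod_cast hWball v hv
    rw [Nat.cast_mul, Nat.cast_sub hδ1] at h1
    push_cast at h1
    nlinarith
  have hn1 : 1024 * L ^ 2 ≤ n := by
    have h1 := hballr v0 hv0
    have h2 : ((ball G v0).card : ℝ) ≤ n := by
      rw [hndef]
      exact_mod_cast card_le_univ _
    nlinarith
  have hn0 : 0 < n := by linarith
  -- the quarter
  have hmB : ∀ v, v ∉ B → 64 * L ≤ ((nb G v).card : ℝ) := by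
    intro v hv
    by_contra hcon
    push Not at hcon
    exact hv (mem_filter.mpr ⟨mem_univ _, hcon⟩)
  obtain ⟨D1, hD1, hF⟩ := coloring (nb G) (univ \ B) ((2 : ℝ) ^ (-(4 * L))) (by positivity)
    (fun v hv => seven_eighths (hmB v (mem_sdiff.mp hv).2))
  set F : Finset V := (univ \ B).filter
    (fun v => ((nb G v ∩ D1).card : ℝ) < ((nb G v).card : ℝ) / 8) with hFdef
  have hmF : ∀ v, v ∉ B → v ∉ F → ((nb G v).card : ℝ) / 8 ≤ ((nb G v ∩ D1).card : ℝ) := by
    intro v hvB hv
    by_contra hcon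
    push Not at hcon
    exact hv (mem_filter.mpr ⟨mem_sdiff.mpr ⟨mem_univ _, hvB⟩, hcon⟩)
  have hΔ4 : (2 : ℝ) ^ (-(4 * L)) * (Δ : ℝ) ^ 4 = 1 := by
    have e1 : (Δ : ℝ) = (2 : ℝ) ^ L := by
      rw [hL, Real.rpow_logb (by norm_num) (by norm_num) hΔpos]
    rw [e1, ← Real.rpow_natCast ((2 : ℝ) ^ L), ← Real.rpow_mul (by norm_num),
      ← Real.rpow_add (by norm_num)]
    have : -(4 * L) + L * ((4 : ℕ) : ℝ) = 0 := by
      push_cast
      ring
    rw [this, Real.rpow_zero]
  have hF4 : (F.card : ℝ) * (Δ : ℝ) ^ 4 ≤ 4 * n := by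
    calc (F.card : ℝ) * (Δ : ℝ) ^ 4 ≤ (4 * n * (2 : ℝ) ^ (-(4 * L))) * (Δ : ℝ) ^ 4 :=
          mul_le_mul_of_nonneg_right hF (by positivity)
      _ = 4 * n * ((2 : ℝ) ^ (-(4 * L)) * (Δ : ℝ) ^ 4) := by ring
      _ = 4 * n := by rw [hΔ4, mul_one]
  -- the contagious set
  obtain ⟨X, hXD, hP, hXc⟩ := contagious G _ (D1 ∪ (F ∪ B)) (fun _ => 2) rfl
  have hXr : (X.card : ℝ) ≤ 4 * n / δ + F.card + B.card := by
    refine hXc.trans ?_
    have h1 : ∀ v ∈ D1 ∪ (F ∪ B), wt G (D1 ∪ (F ∪ B)) (fun _ => 2) v ≤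
        (if v ∈ D1 then 16 / (δ : ℝ) else 0) + (if v ∈ F ∪ B then 1 else 0) := by
      intro v hv
      by_cases hvF : v ∈ F ∪ B
      · rw [if_pos hvF]
        have h2 : wt G (D1 ∪ (F ∪ B)) (fun _ => 2) v ≤ 1 := min_le_left _ _
        split_ifs
        · have : 0 ≤ 16 / (δ : ℝ) := by positivity
          linarith
        · linarith
      · have hvD : v ∈ D1 := (mem_union.mp hv).resolve_right hvF
        rw [if_pos hvD, if_neg hvF, add_zero]
        refine (min_le_right _ _).trans ?_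
        rw [mem_union, not_or] at hvF
        have h2 := hmF v hvF.2 hvF.1
        have h4 : ((nb G v ∩ D1).card : ℝ) ≤ (dg G (D1 ∪ (F ∪ B)) v : ℝ) := by
          have : (nb G v ∩ D1).card ≤ dg G (D1 ∪ (F ∪ B)) v := by
            apply card_le_card
            intro u hu
            rw [mem_inter] at hu
            exact mem_filter.mpr ⟨mem_union_left _ hu.2, mem_nb.mp hu.1⟩
          exact_mod_cast this
        have h5 : (δ : ℝ) ≤ ((nb G v).card : ℝ) := by
          have : δ ≤ (nb G v).card := by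
            rw [hδdef, Nat.ceil_le]
            exact hmB v hvF.2
          exact_mod_cast this
        rw [div_le_div_iff₀ (by positivity) hδpos]
        push_cast
        linarith
    refine (sum_le_sum h1).trans ?_
    rw [sum_add_distrib]
    have h2 : ∑ v ∈ D1 ∪ (F ∪ B), (if v ∈ D1 then 16 / (δ : ℝ) else 0) =
        D1.card * (16 / (δ : ℝ)) := by
      rw [← sum_filter, sum_const, nsmul_eq_mul]
      congr 3
      ext v
      rw [mem_filter, mem_union]
      tauto
    have h4 : ∑ v ∈ D1 ∪ (F ∪ B), (if v ∈ F ∪ B then (1 : ℝ) else 0) = (F ∪ B).card := by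
      rw [sum_boole]
      congr 2
      ext v
      rw [mem_filter, mem_union (s := D1)]
      tauto
    have h7 : ((F ∪ B).card : ℝ) ≤ F.card + B.card := by exact_mod_cast card_union_le F B
    rw [h2, h4]
    have h5 : (4 : ℝ) * D1.card ≤ n := by
      rw [hndef]
      exact_mod_cast hD1
    have h6 : (D1.card : ℝ) * (16 / (δ : ℝ)) ≤ 4 * n / δ := by
      have : 4 * n / δ = (n / 4) * (16 / (δ : ℝ)) := by
        field_simp
        norm_num
      rw [this]
      apply mul_le_mul_of_nonneg_right _ (by positivity)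
      linarith
    linarith
  -- the metrically dense set
  set t2 : ℝ := 8 * n * Real.log Δ / (δ : ℝ) ^ 2 with ht2
  have ht20 : 0 ≤ t2 := by
    have : 0 ≤ Real.log Δ := Real.log_nonneg (by linarith)
    positivity
  obtain ⟨Z, hZm, hZ⟩ := average (ball G) ⌈t2⌉₊ univ
  set U : Finset V := univ.filter (fun p => ∀ z ∈ Z, z ∉ ball G p) with hU
  have hUc : (U.card : ℝ) ≤ n / (Δ : ℝ) ^ 2 + 3 * B.card := by
    refine hZ.trans ?_
    have h1 : ∀ v ∈ (univ : Finset V), (1 - ((ball G v).card : ℝ) / n) ^ ⌈t2⌉₊ ≤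
        ((Δ : ℝ) ^ 2)⁻¹ + (if v ∈ W then 1 else 0) := by
      intro v _
      have h0 : 0 ≤ 1 - ((ball G v).card : ℝ) / n := by
        rw [sub_nonneg, div_le_one hn0, hndef]
        exact_mod_cast card_le_univ _
      by_cases hvW : v ∈ W
      · rw [if_pos hvW]
        have h2 : (1 - ((ball G v).card : ℝ) / n) ^ ⌈t2⌉₊ ≤ 1 := by
          apply pow_le_one₀ h0
          have : 0 ≤ ((ball G v).card : ℝ) / n := by positivity
          linarith
        have h4 : 0 ≤ ((Δ : ℝ) ^ 2)⁻¹ := by positivity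
        linarith
      rw [if_neg hvW, add_zero]
      have h2 : 1 - ((ball G v).card : ℝ) / n ≤ Real.exp (-((δ : ℝ) ^ 2 / 4 / n)) := by
        have h4 := Real.add_one_le_exp (-((δ : ℝ) ^ 2 / 4 / n))
        have h5 : (δ : ℝ) ^ 2 / 4 / n ≤ ((ball G v).card : ℝ) / n :=
          div_le_div_of_nonneg_right (hballr v hvW) hn0.le
        linarith
      have h4 := pow_le_pow_left₀ h0 h2 ⌈t2⌉₊
      rw [← Real.exp_nat_mul] at h4
      refine h4.trans ?_
      have h5 : Real.exp (-(2 * Real.log Δ)) = ((Δ : ℝ) ^ 2)⁻¹ := by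
        rw [Real.exp_neg]
        congr 1
        rw [two_mul, Real.exp_add, Real.exp_log hΔpos, pow_two]
      rw [← h5]
      apply Real.exp_le_exp.mpr
      have h6 : t2 ≤ (⌈t2⌉₊ : ℝ) := Nat.le_ceil t2
      have h7 : t2 * ((δ : ℝ) ^ 2 / 4 / n) = 2 * Real.log Δ := by
        rw [ht2]
        field_simp
        ring
      have h8 := mul_le_mul_of_nonneg_right h6
        (show (0 : ℝ) ≤ (δ : ℝ) ^ 2 / 4 / n by positivity)
      linarith
    calc ∑ v : V, (1 - ((ball G v).card : ℝ) / n) ^ ⌈t2⌉₊ ≤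
        ∑ v : V, (((Δ : ℝ) ^ 2)⁻¹ + (if v ∈ W then 1 else 0)) := sum_le_sum h1
      _ = n * ((Δ : ℝ) ^ 2)⁻¹ + W.card := by
          rw [sum_add_distrib, sum_const, card_univ, nsmul_eq_mul, sum_boole]
          congr 3
          ext v
          simp
      _ ≤ n / (Δ : ℝ) ^ 2 + 3 * B.card := by
          rw [div_eq_mul_inv]
          have : (W.card : ℝ) ≤ 3 * B.card := by exact_mod_cast hWB
          linarith
  set S : Finset V := X ∪ (Z ∪ U) with hS
  have hSdom : ∀ v, ∃ s ∈ S, G.dist v s ≤ 2 := by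
    intro v
    by_cases hv : v ∈ U
    · exact ⟨v, mem_union_right _ (mem_union_right _ hv), by simp⟩
    · have : ∃ z ∈ Z, z ∈ ball G v := by
        by_contra hcon
        push Not at hcon
        exact hv (mem_filter.mpr ⟨mem_univ _, hcon⟩)
      obtain ⟨z, hz, hzb⟩ := this
      exact ⟨z, mem_union_right _ (mem_union_left _ hz), dist_ball hzb⟩
  have hSne : S.Nonempty := by
    obtain ⟨s, hs, _⟩ := hSdom v0
    exact ⟨s, hs⟩
  obtain ⟨T, hST, hT, hTc⟩ := extend2 hconn hSne hSdom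
  have hTr : (T.card : ℝ) ≤ 5 * (4 * n / δ + F.card + 4 * B.card +
      (8 * n * Real.log Δ / (δ : ℝ) ^ 2 + 1 + n / (Δ : ℝ) ^ 2)) := by
    have h1 : T.card ≤ 5 * (X.card + (Z.card + U.card)) := by
      refine hTc.trans ?_
      norm_num
      rw [hS]
      refine (card_union_le _ _).trans ?_
      have := card_union_le Z U
      omega
    have h2 : (T.card : ℝ) ≤ 5 * (X.card + (Z.card + U.card)) := by exact_mod_cast h1
    have h4 : (Z.card : ℝ) ≤ (⌈t2⌉₊ : ℝ) := by exact_mod_cast hZm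
    have h5 : (⌈t2⌉₊ : ℝ) < t2 + 1 := Nat.ceil_lt_add_one ht20
    linarith
  have hnum := num4 hL9 hΔ512 h64 hlog hδL hn1 hF4
    (show 4 * (D1.card : ℝ) ≤ n by rw [hndef]; exact_mod_cast hD1) hB hTr
  -- the locating set
  have hXT : X ⊆ T := subset_union_left.trans hST
  have hloc : Loc G ((D1 ∪ (F ∪ B)) ∪ T) := by
    intro x y hx hy hxy
    by_contra hne
    have hxF : x ∉ F := fun h => hx (mem_union_left _ (mem_union_right _ (mem_union_left _ h)))
    have hxB : x ∉ B := fun h => hx (mem_union_left _ (mem_union_right _ (mem_union_right _ h)))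
    have h1 := hmF x hxB hxF
    have h2 := hmB x hxB
    have h4 : (1 : ℝ) < ((nb G x ∩ D1).card : ℝ) := by linarith
    have h5 : 1 < (nb G x ∩ D1).card := by exact_mod_cast h4
    obtain ⟨a, ha, b, hb, hab⟩ := one_lt_card.mp h5
    rw [mem_inter] at ha hb
    have hxa := mem_nb.mp ha.1
    have hxb := mem_nb.mp hb.1
    have hya := (hxy a (mem_union_left _ (mem_union_left _ ha.2))).mp hxa
    have hyb := (hxy b (mem_union_left _ (mem_union_left _ hb.2))).mp hxb
    exact hG x y a b hne hab hxa hxb hya hyb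
  have hDc : (((D1 ∪ (F ∪ B)) ∪ T).card : ℝ) ≤ D1.card + F.card + B.card + T.card := by
    have h1 := card_union_le (D1 ∪ (F ∪ B)) T
    have h2 := card_union_le D1 (F ∪ B)
    have h5 := card_union_le F B
    have h4 : ((D1 ∪ (F ∪ B)) ∪ T).card ≤ D1.card + F.card + B.card + T.card := by omega
    exact_mod_cast h4
  have hpe : (pe G G ((D1 ∪ (F ∪ B)) ∪ T)).card ≤ Fintype.card V * Δ ^ T.card := by
    refine (pe_perc hG hXT hXD hP).trans ((pe_grow (show DegLE G Δ from hmax) hT).trans ?_)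
    exact Nat.mul_le_mul_left _ (Nat.pow_le_pow_right (by omega) (by omega))
  exact finish hH hN hloc hΔ2 h3 hpe (by
    have h1 : (0 : ℝ) ≤ T.card := Nat.cast_nonneg _
    linarith)

theorem nb_ncard (G : SimpleGraph V) (v : V) : (nb G v).card = {w : V | G.Adj v w}.ncard := by
  rw [ncard_filter]
  rfl

/-- Theorem T, with the degrees as cardinalities of sets -/
theorem thmT' (G : SimpleGraph V) (h3 : 3 ≤ Fintype.card V)
    (hG : ∀ a b x y : V, a ≠ b → x ≠ y → G.Adj a x → G.Adj a y → G.Adj b x → ¬ G.Adj b y)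
    (Δ : ℕ) (hΔ2 : 2 ≤ Δ) (hmax : ∀ v : V, {w : V | G.Adj v w}.ncard ≤ Δ)
    (hB : 1024 * ({v : V | ({w : V | G.Adj v w}.ncard : ℝ) < 64 * Real.logb 2 Δ}.ncard : ℝ) *
      Real.logb 2 Δ ≤ Fintype.card V) :
    Reconstructible G ∧ Reconstructible Gᶜ := by
  apply thmT G h3 Δ hΔ2 hG
  · intro v
    rw [nb_ncard]
    exact hmax v
  · rw [ncard_filter] at hB
    have e : univ.filter (fun v : V => ((nb G v).card : ℝ) < 64 * Real.logb 2 Δ) =
        univ.filter (fun v : V => ({w : V | G.Adj v w}.ncard : ℝ) < 64 * Real.logb 2 Δ) := by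
      apply filter_congr
      intro v _
      rw [nb_ncard]
    rw [e]
    exact hB

end Pool.Agent.H71.LOC
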