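import Pool.Agent.H71.LOC.Emb

set_option autoImplicit false
set_option linter.unusedSectionVars false

/-!
# Graphs with a locating set which has few copies are reconstructible
-/

namespace Pool.Agent.H71.LOC

open Finset Classical
open Pool.Agent.H234RC (Hypo NonIso Reconstructible exists_hypo)

variable {V : Type} [Fintype V]

theorem pe_le_emb (G : SimpleGraph V) (D : Finset V) :
    (pe G G D).card ≤ Nat.card (G.induce (D : Set V) ↪g G) := by
  have hfin : Finite ((G.induce (D : Set V)) ↪g G) := inferInstance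
  have : Fintype ((G.induce (D : Set V)) ↪g G) := Fintype.ofFinite _
  rw [Nat.card_eq_fintype_card, ← card_univ]
  let g : ((G.induce (D : Set V)) ↪g G) → Finset (V × V) :=
    fun φ => univ.image (fun x : (D : Set V) => ((x : V), φ x))
  have hsub : pe G G D ⊆ univ.image g := by
    intro J hJ
    rw [mem_pe] at hJ
    have h1 : ∀ x : (D : Set V), ∃ w, ((x : V), w) ∈ J := by
      intro x
      have : (x : V) ∈ J.image Prod.fst := by rw [hJ.2]; exact x.2
      rw [mem_image] at this
      obtain ⟨p, hp, hpx⟩ := this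
      exact ⟨p.2, by rw [← hpx]; exact hp⟩
    choose f hf using h1
    have hne : ∀ x y : (D : Set V), x ≠ y → ((x : V), f x) ≠ ((y : V), f y) := by
      intro x y hxy e
      exact hxy (Subtype.ext (congrArg Prod.fst e))
    have hinj : Function.Injective f := by
      intro x y e
      by_contra hxy
      exact (hJ.1 _ (hf x) _ (hf y) (hne x y hxy)).2.1 e
    rw [mem_image]
    refine ⟨⟨⟨f, hinj⟩, ?_⟩, mem_univ _, ?_⟩
    · intro x y
      show G.Adj (f x) (f y) ↔ G.Adj (x : V) (y : V)
      by_cases hxy : x = y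
      · subst hxy
        exact iff_of_false (G.loopless.irrefl _) (G.loopless.irrefl _)
      · exact (hJ.1 _ (hf x) _ (hf y) (hne x y hxy)).2.2
    · ext p
      rw [mem_image]
      constructor
      · rintro ⟨x, _, rfl⟩
        exact hf x
      · intro hp
        have hpD : p.1 ∈ D := by
          rw [← hJ.2]
          exact mem_image_of_mem _ hp
        refine ⟨⟨p.1, hpD⟩, mem_univ _, ?_⟩
        show (p.1, f ⟨p.1, hpD⟩) = p
        exact fst_inj hJ.1 (hf ⟨p.1, hpD⟩) hp rfl
  exact (card_le_card hsub).trans card_image_le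

theorem finite_aut (G : SimpleGraph V) : Finite (G ≃g G) :=
  Finite.of_injective (fun φ : G ≃g G => φ.toEquiv) RelIso.toEquiv_injective

theorem aut_le_pe (G : SimpleGraph V) : Nat.card (G ≃g G) ≤ (pe G G univ).card := by
  have hfin : Finite (G ≃g G) := finite_aut G
  have : Fintype (G ≃g G) := Fintype.ofFinite _
  rw [Nat.card_eq_fintype_card, ← card_univ]
  apply card_le_card_of_injOn (fun φ : G ≃g G => univ.image (fun x : V => (x, φ x)))
  · intro φ _
    rw [mem_coe, mem_pe]
    constructor
    · intro p hp q hq hne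
      rw [mem_image] at hp hq
      obtain ⟨x, _, rfl⟩ := hp
      obtain ⟨y, _, rfl⟩ := hq
      have hxy : x ≠ y := fun e => hne (by rw [e])
      exact ⟨hxy, fun e => hxy (φ.injective e), φ.map_rel_iff⟩
    · rw [image_image]
      ext x
      rw [mem_image]
      exact ⟨fun _ => mem_univ _, fun _ => ⟨x, mem_univ _, rfl⟩⟩
  · intro φ _ ψ _ h
    apply RelIso.ext
    intro x
    have h1 : (x, φ x) ∈ univ.image (fun x : V => (x, ψ x)) := by
      have h2 : (x, φ x) ∈ univ.image (fun x : V => (x, φ x)) := mem_image_of_mem _ (mem_univ x)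
      have h3 : univ.image (fun x : V => (x, φ x)) = univ.image (fun x : V => (x, ψ x)) := h
      rw [h3] at h2
      exact h2
    rw [mem_image] at h1
    obtain ⟨y, _, hy⟩ := h1
    have e1 : y = x := congrArg Prod.fst hy
    have e2 : ψ y = φ x := congrArg Prod.snd hy
    rw [e1] at e2
    exact e2.symm

/-- graphs `H` with isomorphic cards are isomorphic, the number of copies of `D` being small -/
theorem iso_of_hypo (G : SimpleGraph V) {D : Finset V} (hD : Loc G D)
    (h : 4 * Nat.card (G.induce (D : Set V) ↪g G) ^ 2 <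
      Nat.card (G ≃g G) ^ 2 * 2 ^ (Fintype.card V - D.card))
    {H : SimpleGraph V} {π : V → Equiv.Perm V} (hH : Hypo G H π) : ¬ NonIso G H := by
  intro hN
  have h1 := pe_le_emb G D
  have h2 := aut_le_pe G
  have hDu : D ≠ univ := by
    intro e
    -- the number of automorphisms is at most the number of embeddings of `G[D]`
    have h3 : (pe G G univ).card ≤ Nat.card (G.induce (D : Set V) ↪g G) := by
      rw [← e]
      exact h1
    have h4 : Nat.card (G ≃g G) ≤ Nat.card (G.induce (D : Set V) ↪g G) := h2.trans h3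
    have h5 : Fintype.card V - D.card = 0 := by rw [e, card_univ, Nat.sub_self]
    rw [h5, pow_zero, mul_one] at h
    have h6 := Nat.pow_le_pow_left h4 2
    omega
  have h3 := bound hH hN hD hDu
  have h4 := Nat.pow_le_pow_left h1 2
  have h5 := Nat.pow_le_pow_left h2 2
  have h6 : Nat.card (G ≃g G) ^ 2 * 2 ^ (Fintype.card V - D.card) ≤
      (pe G G univ).card ^ 2 * 2 ^ (Fintype.card V - D.card) := Nat.mul_le_mul_right _ h5
  omega

theorem hypo_compl {G H : SimpleGraph V} {π : V → Equiv.Perm V} (hH : Hypo Gᶜ H π) :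
    Hypo G Hᶜ π := by
  refine ⟨hH.fix, fun v x y hx hy => ?_⟩
  rw [SimpleGraph.compl_adj, hH.adj v x y hx hy, SimpleGraph.compl_adj]
  constructor
  · rintro ⟨h1, h2⟩
    by_contra h3
    exact h2 ⟨fun e => h1 (by rw [e]), h3⟩
  · intro h
    refine ⟨fun e => G.ne_of_adj h ((π v).injective e), fun h2 => h2.2 h⟩

theorem nonIso_compl {G H : SimpleGraph V} (hN : NonIso Gᶜ H) : NonIso G Hᶜ := by
  rintro ⟨σ, hσ⟩
  apply hN
  refine ⟨σ, fun x y => ?_⟩
  have h1 := hσ x y
  rw [SimpleGraph.compl_adj] at h1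
  rw [SimpleGraph.compl_adj]
  by_cases hxy : x = y
  · subst hxy
    exact iff_of_false (H.loopless.irrefl _) (fun h => h.1 rfl)
  · have h2 : σ x ≠ σ y := fun e => hxy (σ.injective e)
    tauto

theorem rec_of (G : SimpleGraph V)
    (h : ∀ (H : SimpleGraph V) (π : V → Equiv.Perm V), Hypo G H π → ¬ NonIso G H) :
    Reconstructible G ∧ Reconstructible Gᶜ := by
  constructor
  · by_contra hcon
    obtain ⟨H, π, hH, hN⟩ := exists_hypo G hcon
    exact h H π hH hN
  · by_contra hcon
    obtain ⟨H, π, hH, hN⟩ := exists_hypo Gᶜ hcon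
    exact h Hᶜ π (hypo_compl hH) (nonIso_compl hN)

/-- **Theorem A.** -/
theorem thmA (G : SimpleGraph V) {D : Finset V} (hD : Loc G D)
    (h : 4 * Nat.card (G.induce (D : Set V) ↪g G) ^ 2 <
      Nat.card (G ≃g G) ^ 2 * 2 ^ (Fintype.card V - D.card)) :
    Reconstructible G ∧ Reconstructible Gᶜ :=
  rec_of G (fun _ _ hH => iso_of_hypo G hD h hH)

theorem emb_le_pow (G : SimpleGraph V) (D : Finset V) :
    Nat.card (G.induce (D : Set V) ↪g G) ≤ Fintype.card V ^ D.card := by
  have h1 : Nat.card (G.induce (D : Set V) ↪g G) ≤ Nat.card (↥(D : Set V) → V) :=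
    Nat.card_le_card_of_injective (fun φ => fun x => φ x) (fun φ ψ h => by
      apply RelEmbedding.ext
      intro x
      exact congrFun h x)
  have h2 : Nat.card (↥(D : Set V) → V) = Fintype.card V ^ D.card := by
    rw [Nat.card_eq_fintype_card, Fintype.card_fun]
    congr 1
    simp
  rw [h2] at h1
  exact h1

theorem aut_pos (G : SimpleGraph V) : 1 ≤ Nat.card (G ≃g G) := by
  have : Finite (G ≃g G) := finite_aut G
  exact Nat.card_pos

/-- the form with the order of the locating set -/
theorem thmA' (G : SimpleGraph V) {D : Finset V} (hD : Loc G D)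
    (h : 4 * Fintype.card V ^ (2 * D.card) < 2 ^ (Fintype.card V - D.card)) :
    Reconstructible G ∧ Reconstructible Gᶜ := by
  apply thmA G hD
  have h1 := Nat.pow_le_pow_left (emb_le_pow G D) 2
  have h2 := Nat.pow_le_pow_left (aut_pos G) 2
  rw [← pow_mul, mul_comm D.card 2] at h1
  calc 4 * Nat.card (G.induce (D : Set V) ↪g G) ^ 2 ≤ 4 * Fintype.card V ^ (2 * D.card) :=
        Nat.mul_le_mul_left _ h1
    _ < 2 ^ (Fintype.card V - D.card) := h
    _ = 1 ^ 2 * 2 ^ (Fintype.card V - D.card) := by ring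
    _ ≤ _ := Nat.mul_le_mul_right _ h2

/-- the form with logarithms -/
theorem thmA'' (G : SimpleGraph V) {D : Finset V} (hD : Loc G D)
    (h : (D.card : ℝ) * (2 * Real.logb 2 (Fintype.card V) + 1) + 2 < (Fintype.card V : ℝ)) :
    Reconstructible G ∧ Reconstructible Gᶜ := by
  apply thmA' G hD
  have hDn : D.card ≤ Fintype.card V := card_le_univ D
  have hn : 0 < Fintype.card V := by
    by_contra h0
    have h0' : Fintype.card V = 0 := by omega
    have hD0 : D.card = 0 := by omega
    rw [h0', hD0] at h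
    norm_num at h
  have hn' : (0 : ℝ) < (Fintype.card V : ℝ) := by exact_mod_cast hn
  have e1 : ((Fintype.card V : ℝ)) ^ (2 * D.card) =
      (2 : ℝ) ^ (((2 * D.card : ℕ) : ℝ) * Real.logb 2 (Fintype.card V)) := by
    rw [mul_comm ((2 * D.card : ℕ) : ℝ), Real.rpow_mul (by norm_num),
      Real.rpow_logb (by norm_num) (by norm_num) hn', Real.rpow_natCast]
  have h2 : (4 : ℝ) * (Fintype.card V : ℝ) ^ (2 * D.card) <
      (2 : ℝ) ^ (Fintype.card V - D.card) := by
    rw [e1, ← Real.rpow_natCast, Nat.cast_sub hDn]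
    have e2 : (4 : ℝ) = (2 : ℝ) ^ (2 : ℝ) := by norm_num
    rw [e2, ← Real.rpow_add (by norm_num)]
    apply Real.rpow_lt_rpow_of_exponent_lt (by norm_num)
    push_cast
    linarith
  exact_mod_cast h2

/-! ### Greedy choice of a locating set -/

theorem ncard_filter (p : V → Prop) [DecidablePred p] :
    {z | p z}.ncard = (univ.filter p).card := by
  rw [← Set.ncard_coe_finset]
  congr 1
  ext z
  simp

theorem greedy {β : Type} (P : Finset β) (h : V → β → Prop) (q : ℝ)
    (hqn : q ≤ Fintype.card V)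
    (hq : ∀ p ∈ P, q ≤ ({z | h z p}.ncard : ℝ)) (m : ℕ) :
    ∃ D : Finset V, D.card ≤ m ∧ ((P.filter (fun p => ∀ z ∈ D, ¬ h z p)).card : ℝ) ≤
      P.card * (1 - q / Fintype.card V) ^ m := by
  induction' m with m ih
  · refine ⟨∅, by simp, ?_⟩
    rw [pow_zero, mul_one]
    exact_mod_cast card_filter_le _ _
  · obtain ⟨D, hD, hR⟩ := ih
    set R := P.filter (fun p => ∀ z ∈ D, ¬ h z p) with hRdef
    rcases Nat.eq_zero_or_pos (Fintype.card V) with h0 | h0
    · refine ⟨D, by omega, ?_⟩
      rw [h0] at hR ⊢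
      simpa using hR
    have hn : (0 : ℝ) < Fintype.card V := by exact_mod_cast h0
    -- some vertex hits many elements of `R`
    have h1 : ∃ z ∈ (univ : Finset V), q / Fintype.card V * (R.card : ℝ) ≤
        ((R.filter (fun p => h z p)).card : ℝ) := by
      apply exists_le_of_sum_le
      · have : Nonempty V := Fintype.card_pos_iff.mp h0
        exact univ_nonempty
      · rw [sum_const, card_univ, nsmul_eq_mul]
        have e1 : (Fintype.card V : ℝ) * (q / Fintype.card V * R.card) = q * R.card := by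
          field_simp
        rw [e1]
        have e2 : ∑ z : V, ((R.filter (fun p => h z p)).card : ℝ) =
            ∑ p ∈ R, ((univ.filter (fun z => h z p)).card : ℝ) := by
          have : ∀ z : V, ((R.filter (fun p => h z p)).card : ℝ) =
              ∑ p ∈ R, if h z p then (1 : ℝ) else 0 := by
            intro z
            rw [sum_boole]
          rw [sum_congr rfl (fun z _ => this z), sum_comm]
          apply sum_congr rfl
          intro p _
          rw [sum_boole]
        rw [e2]
        calc q * R.card = ∑ p ∈ R, q := by rw [sum_const, nsmul_eq_mul]; ring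
          _ ≤ _ := by
            apply sum_le_sum
            intro p hp
            rw [← ncard_filter]
            exact hq p (mem_filter.mp hp).1
    obtain ⟨z, _, hz⟩ := h1
    refine ⟨insert z D, ?_, ?_⟩
    · exact (card_insert_le _ _).trans (by omega)
    · have e3 : P.filter (fun p => ∀ y ∈ insert z D, ¬ h y p) = R.filter (fun p => ¬ h z p) := by
        ext p
        rw [mem_filter, mem_filter, hRdef, mem_filter]
        constructor
        · rintro ⟨h1, h2⟩
          exact ⟨⟨h1, fun y hy => h2 y (mem_insert_of_mem hy)⟩, h2 z (mem_insert_self _ _)⟩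
        · rintro ⟨⟨h1, h2⟩, h3⟩
          refine ⟨h1, fun y hy => ?_⟩
          rw [mem_insert] at hy
          rcases hy with rfl | hy
          · exact h3
          · exact h2 y hy
      have e4 := card_filter_add_card_filter_not (s := R) (fun p => h z p)
      have e5 : ((R.filter (fun p => h z p)).card : ℝ) + ((R.filter (fun p => ¬ h z p)).card : ℝ) =
          (R.card : ℝ) := by exact_mod_cast e4
      rw [e3]
      have hq1 : 0 ≤ 1 - q / Fintype.card V := by
        rw [sub_nonneg, div_le_one hn]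
        exact hqn
      calc ((R.filter (fun p => ¬ h z p)).card : ℝ) ≤ R.card * (1 - q / Fintype.card V) := by
            linarith
        _ ≤ (P.card * (1 - q / Fintype.card V) ^ m) * (1 - q / Fintype.card V) :=
            mul_le_mul_of_nonneg_right hR hq1
        _ = _ := by rw [pow_succ]; ring

/-- the number of the vertices other than `x` and `y` which are adjacent to exactly one of `x` and
`y` -/
noncomputable def dst (G : SimpleGraph V) (x y : V) : ℕ :=
  {z : V | z ≠ x ∧ z ≠ y ∧ ¬ (G.Adj x z ↔ G.Adj y z)}.ncard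

theorem dst_eq (G : SimpleGraph V) (x y : V) :
    dst G x y = (univ.filter (fun z => z ≠ x ∧ z ≠ y ∧ ¬ (G.Adj x z ↔ G.Adj y z))).card := by
  unfold dst
  rw [← Set.ncard_coe_finset]
  congr 1
  ext z
  simp

theorem dst_le (G : SimpleGraph V) {x y : V} (hxy : x ≠ y) : dst G x y + 2 ≤ Fintype.card V := by
  rw [dst_eq]
  have h1 : univ.filter (fun z => z ≠ x ∧ z ≠ y ∧ ¬ (G.Adj x z ↔ G.Adj y z)) ⊆
      (univ.erase x).erase y := by
    intro z hz
    rw [mem_filter] at hz
    rw [mem_erase, mem_erase]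
    exact ⟨hz.2.2.1, hz.2.1, mem_univ _⟩
  have h2 := card_le_card h1
  have h3 : y ∈ univ.erase x := mem_erase.mpr ⟨hxy.symm, mem_univ _⟩
  rw [card_erase_of_mem h3, card_erase_of_mem (mem_univ x), card_univ] at h2
  have h4 : 2 ≤ Fintype.card V := by
    rw [← card_univ]
    exact one_lt_card.mpr ⟨x, mem_univ _, y, mem_univ _, hxy⟩
  omega

theorem exists_loc (G : SimpleGraph V) (B : Finset V) (q : ℝ) (hq0 : 0 < q)
    (h : ∀ x y : V, x ∉ B → y ∉ B → x ≠ y → q ≤ (dst G x y : ℝ)) :
    ∃ D : Finset V, Loc G D ∧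
      (D.card : ℝ) ≤ B.card + 2 * Fintype.card V * Real.log (Fintype.card V) / q + 1 := by
  by_cases hpair : ∃ x y : V, x ∉ B ∧ y ∉ B ∧ x ≠ y
  swap
  · refine ⟨B, fun x y hx hy _ => ?_, ?_⟩
    · by_contra hne
      exact hpair ⟨x, y, hx, hy, hne⟩
    · have h1 : 0 ≤ 2 * (Fintype.card V : ℝ) * Real.log (Fintype.card V) / q := by
        apply div_nonneg _ hq0.le
        apply mul_nonneg (by positivity)
        exact Real.log_natCast_nonneg _
      linarith
  obtain ⟨x0, y0, hx0, hy0, hne0⟩ := hpair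
  have hn2 : 2 ≤ Fintype.card V := by
    rw [← card_univ]
    exact one_lt_card.mpr ⟨x0, mem_univ _, y0, mem_univ _, hne0⟩
  have hn : (0 : ℝ) < Fintype.card V := by
    have : 0 < Fintype.card V := by omega
    exact_mod_cast this
  have hqn : q ≤ Fintype.card V := by
    refine (h x0 y0 hx0 hy0 hne0).trans ?_
    have := dst_le G hne0
    have h1 : dst G x0 y0 ≤ Fintype.card V := by omega
    exact_mod_cast h1
  set n : ℝ := (Fintype.card V : ℝ) with hndef
  set t : ℝ := 2 * n * Real.log n / q with ht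
  have ht0 : 0 ≤ t := by
    apply div_nonneg _ hq0.le
    apply mul_nonneg (by positivity)
    exact Real.log_natCast_nonneg _
  set m : ℕ := ⌈t⌉₊ with hm
  let P : Finset (V × V) := univ.filter (fun p => p.1 ∉ B ∧ p.2 ∉ B ∧ p.1 ≠ p.2)
  obtain ⟨D, hDm, hR⟩ := greedy P
    (fun z p => z ≠ p.1 ∧ z ≠ p.2 ∧ ¬ (G.Adj p.1 z ↔ G.Adj p.2 z)) q hqn (by
      intro p hp
      have hp' := (mem_filter.mp hp).2
      exact h p.1 p.2 hp'.1 hp'.2.1 hp'.2.2) m
  have hP : (P.card : ℝ) < n ^ 2 := by
    have h1 : P ⊂ univ := by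
      rw [ssubset_univ_iff]
      intro e
      have : (x0, x0) ∈ P := by rw [e]; exact mem_univ _
      exact (mem_filter.mp this).2.2.2 rfl
    have h2 := card_lt_card h1
    rw [card_univ, Fintype.card_prod] at h2
    have h3 : ((P.card : ℕ) : ℝ) < ((Fintype.card V * Fintype.card V : ℕ) : ℝ) := by
      exact_mod_cast h2
    rw [Nat.cast_mul] at h3
    rw [pow_two]
    exact h3
  have hpow : (1 - q / n) ^ m ≤ (n ^ 2)⁻¹ := by
    have h1 : 1 - q / n ≤ Real.exp (-(q / n)) := by
      have := Real.add_one_le_exp (-(q / n))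
      linarith
    have h0 : 0 ≤ 1 - q / n := by
      rw [sub_nonneg, div_le_one hn]
      exact hqn
    have h2 : (1 - q / n) ^ m ≤ Real.exp (-(q / n)) ^ m := pow_le_pow_left₀ h0 h1 m
    rw [← Real.exp_nat_mul] at h2
    have h3 : Real.exp ((m : ℝ) * -(q / n)) ≤ Real.exp (-(2 * Real.log n)) := by
      apply Real.exp_le_exp.mpr
      have h4 : t ≤ (m : ℝ) := Nat.le_ceil t
      have h5 : t * (q / n) = 2 * Real.log n := by
        rw [ht]
        field_simp
      have h6 : t * (q / n) ≤ m * (q / n) := mul_le_mul_of_nonneg_right h4 (by positivity)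
      linarith
    have h4 : Real.exp (-(2 * Real.log n)) = (n ^ 2)⁻¹ := by
      rw [Real.exp_neg]
      congr 1
      rw [two_mul, Real.exp_add, Real.exp_log hn, pow_two]
    rw [← h4]
    exact h2.trans h3
  have hR0 : P.filter (fun p => ∀ z ∈ D, ¬ (z ≠ p.1 ∧ z ≠ p.2 ∧ ¬ (G.Adj p.1 z ↔ G.Adj p.2 z)))
      = ∅ := by
    rw [← card_eq_zero]
    have h0 : 0 ≤ (1 - q / n) ^ m := by
      apply pow_nonneg
      rw [sub_nonneg, div_le_one hn]
      exact hqn
    have h1 : (P.card : ℝ) * (1 - q / n) ^ m < 1 := by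
      rcases eq_or_lt_of_le h0 with h2 | h2
      · rw [← h2, mul_zero]
        norm_num
      · calc (P.card : ℝ) * (1 - q / n) ^ m < n ^ 2 * (1 - q / n) ^ m :=
              mul_lt_mul_of_pos_right hP h2
          _ ≤ n ^ 2 * (n ^ 2)⁻¹ := mul_le_mul_of_nonneg_left hpow (by positivity)
          _ = 1 := mul_inv_cancel₀ (by positivity)
    have h2 := lt_of_le_of_lt hR h1
    have h3 : (P.filter (fun p => ∀ z ∈ D, ¬ (z ≠ p.1 ∧ z ≠ p.2 ∧
        ¬ (G.Adj p.1 z ↔ G.Adj p.2 z)))).card < 1 := by exact_mod_cast h2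
    omega
  refine ⟨B ∪ D, ?_, ?_⟩
  · intro x y hx hy hxy
    by_contra hne
    rw [mem_union, not_or] at hx hy
    have h1 : (x, y) ∈ P.filter (fun p => ∀ z ∈ D, ¬ (z ≠ p.1 ∧ z ≠ p.2 ∧
        ¬ (G.Adj p.1 z ↔ G.Adj p.2 z))) := by
      rw [mem_filter]
      refine ⟨mem_filter.mpr ⟨mem_univ _, hx.1, hy.1, hne⟩, fun z hz h2 => ?_⟩
      exact h2.2.2 (hxy z (mem_union_right _ hz))
    rw [hR0] at h1
    exact absurd h1 (notMem_empty _)
  · have h1 : ((B ∪ D).card : ℝ) ≤ B.card + D.card := by exact_mod_cast card_union_le B D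
    have h2 : (D.card : ℝ) ≤ m := by exact_mod_cast hDm
    have h3 : (m : ℝ) < t + 1 := Nat.ceil_lt_add_one ht0
    linarith

/-- **Theorem B.** -/
theorem thmB (G : SimpleGraph V) (B : Finset V) (q : ℝ) (hq0 : 0 < q)
    (h : ∀ x y : V, x ∉ B → y ∉ B → x ≠ y → q ≤ (dst G x y : ℝ))
    (hn : (B.card + 2 * Fintype.card V * Real.log (Fintype.card V) / q + 1) *
      (2 * Real.logb 2 (Fintype.card V) + 1) + 2 < (Fintype.card V : ℝ)) :
    Reconstructible G ∧ Reconstructible Gᶜ := by
  obtain ⟨D, hD, hc⟩ := exists_loc G B q hq0 h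
  apply thmA'' G hD
  have h1 : 0 ≤ 2 * Real.logb 2 (Fintype.card V) + 1 := by
    have : 0 ≤ Real.logb 2 (Fintype.card V) := by
      rcases Nat.eq_zero_or_pos (Fintype.card V) with h0 | h0
      · rw [h0]
        simp
      · exact Real.logb_nonneg (by norm_num) (by exact_mod_cast h0)
    linarith
  have h2 := mul_le_mul_of_nonneg_right hc h1
  linarith

/-- the numerical inequality -/
theorem num {n : ℕ} (hn : 3 ≤ n) (h : 8 * Real.log n ^ 2 ≤ (n : ℝ) - 2) :
    ((n : ℝ) / (4 * Real.log n) + 1) * (2 * Real.logb 2 n + 1) + 2 < (n : ℝ) := by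
  have hl2 := Real.log_two_gt_d9
  have hl2' := Real.log_two_lt_d9
  have hpow : ∀ k : ℕ, 2 ^ k ≤ n → (k : ℝ) * Real.log 2 ≤ Real.log n := by
    intro k hk
    rw [← Real.log_pow]
    apply Real.log_le_log (by positivity)
    exact_mod_cast hk
  -- `n` is at least `128`
  have hbig : 128 ≤ n := by
    by_contra hlt
    have hcases : (n < 4) ∨ (4 ≤ n ∧ n < 8) ∨ (8 ≤ n ∧ n < 16) ∨ (16 ≤ n ∧ n < 32) ∨
        (32 ≤ n ∧ n < 64) ∨ (64 ≤ n ∧ n < 128) := by omega
    rcases hcases with h1 | ⟨h1, h2⟩ | ⟨h1, h2⟩ | ⟨h1, h2⟩ | ⟨h1, h2⟩ | ⟨h1, h2⟩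
    · have h3 := hpow 1 (by omega)
      have h4 : (n : ℝ) < 4 := by exact_mod_cast h1
      norm_num at h3
      nlinarith
    · have h3 := hpow 2 (by omega)
      have h4 : (n : ℝ) < 8 := by exact_mod_cast h2
      norm_num at h3
      nlinarith
    · have h3 := hpow 3 (by omega)
      have h4 : (n : ℝ) < 16 := by exact_mod_cast h2
      norm_num at h3
      nlinarith
    · have h3 := hpow 4 (by omega)
      have h4 : (n : ℝ) < 32 := by exact_mod_cast h2
      norm_num at h3
      nlinarith
    · have h3 := hpow 5 (by omega)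
      have h4 : (n : ℝ) < 64 := by exact_mod_cast h2
      norm_num at h3
      nlinarith
    · have h3 := hpow 6 (by omega)
      have h4 : (n : ℝ) < 128 := by exact_mod_cast h2
      norm_num at h3
      nlinarith
  have h7 := hpow 7 (by omega)
  norm_num at h7
  set L := Real.log n with hL
  have hL0 : 4.85 ≤ L := by linarith
  have hnpos : (128 : ℝ) ≤ n := by exact_mod_cast hbig
  have e1 : 2 * Real.logb 2 n ≤ 2.8854 * L := by
    rw [Real.logb, ← hL]
    have : L / Real.log 2 ≤ 1.4427 * L := by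
      rw [div_le_iff₀ (by linarith)]
      nlinarith
    linarith
  have e2 : (n : ℝ) / (4 * L) * (2 * Real.logb 2 n + 1) ≤
      (n : ℝ) / (4 * L) * (2.8854 * L + 1) := by
    apply mul_le_mul_of_nonneg_left (by linarith)
    apply div_nonneg (by linarith) (by linarith)
  have e3 : (n : ℝ) / (4 * L) * (2.8854 * L + 1) = 0.72135 * n + n / (4 * L) := by
    have : L ≠ 0 := by linarith
    field_simp
    ring
  have e4 : (n : ℝ) / (4 * L) ≤ 0.0516 * n := by
    rw [div_le_iff₀ (by linarith)]
    nlinarith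
  have e5 : L ≤ L ^ 2 / 10 + 2.5 := by nlinarith [sq_nonneg (L - 5)]
  have e6 : ((n : ℝ) / (4 * L) + 1) * (2 * Real.logb 2 n + 1) =
      (n : ℝ) / (4 * L) * (2 * Real.logb 2 n + 1) + (2 * Real.logb 2 n + 1) := by ring
  rw [e6]
  nlinarith

/-- **Theorem C.** -/
theorem thmC (G : SimpleGraph V) (h3 : 3 ≤ Fintype.card V) (B : Finset V)
    (hB : (B.card : ℝ) ≤ Fintype.card V / (8 * Real.log (Fintype.card V)))
    (h : ∀ x y : V, x ∉ B → y ∉ B → x ≠ y →
      16 * Real.log (Fintype.card V) ^ 2 ≤ (dst G x y : ℝ)) :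
    Reconstructible G ∧ Reconstructible Gᶜ := by
  have hl : 1 < Real.log (Fintype.card V) := by
    rw [Real.lt_log_iff_exp_lt (by positivity)]
    have h1 := Real.exp_one_lt_d9
    have h2 : (3 : ℝ) ≤ Fintype.card V := by exact_mod_cast h3
    linarith
  have hn3 : (3 : ℝ) ≤ Fintype.card V := by exact_mod_cast h3
  -- two vertices outside `B`
  have hBc : B.card + 2 ≤ Fintype.card V := by
    have h1 : (B.card : ℝ) ≤ Fintype.card V / 8 := by
      refine hB.trans ?_
      apply div_le_div_of_nonneg_left (by positivity) (by norm_num)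
      linarith
    have h2 : (8 : ℝ) * B.card ≤ Fintype.card V := by linarith
    have h4 : 8 * B.card ≤ Fintype.card V := by exact_mod_cast h2
    omega
  have hcompl : 1 < (Bᶜ).card := by
    rw [card_compl]
    omega
  obtain ⟨x, hx, y, hy, hxy⟩ := one_lt_card.mp hcompl
  rw [mem_compl] at hx hy
  have hd := h x y hx hy hxy
  have hd2 : (dst G x y : ℝ) ≤ Fintype.card V - 2 := by
    have := dst_le G hxy
    have h1 : ((dst G x y + 2 : ℕ) : ℝ) ≤ Fintype.card V := by exact_mod_cast this
    push_cast at h1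
    linarith
  have hL2 : 0 ≤ Real.log (Fintype.card V) ^ 2 := sq_nonneg _
  have hnum := num h3 (by linarith)
  apply thmB G B (16 * Real.log (Fintype.card V) ^ 2) (by positivity) h
  have e1 : 2 * (Fintype.card V : ℝ) * Real.log (Fintype.card V) /
      (16 * Real.log (Fintype.card V) ^ 2) = Fintype.card V / (8 * Real.log (Fintype.card V)) := by
    have : Real.log (Fintype.card V) ≠ 0 := by linarith
    field_simp
    ring
  have e2 : (Fintype.card V : ℝ) / (4 * Real.log (Fintype.card V)) =
      Fintype.card V / (8 * Real.log (Fintype.card V)) +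
        Fintype.card V / (8 * Real.log (Fintype.card V)) := by
    have : Real.log (Fintype.card V) ≠ 0 := by linarith
    field_simp
    ring
  rw [e1]
  have h1 : 0 ≤ 2 * Real.logb 2 (Fintype.card V) + 1 := by
    have : 0 ≤ Real.logb 2 (Fintype.card V) := Real.logb_nonneg (by norm_num) (by linarith)
    linarith
  have h2 : (B.card + Fintype.card V / (8 * Real.log (Fintype.card V)) + 1) *
      (2 * Real.logb 2 (Fintype.card V) + 1) ≤
      (Fintype.card V / (4 * Real.log (Fintype.card V)) + 1) *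
      (2 * Real.logb 2 (Fintype.card V) + 1) := by
    apply mul_le_mul_of_nonneg_right _ h1
    rw [e2]
    linarith
  linarith

/-- **Theorem D.** -/
theorem thmD (G : SimpleGraph V) (h3 : 3 ≤ Fintype.card V)
    (h : ∀ x y : V, x ≠ y → 8 * Real.log (Fintype.card V) ^ 2 ≤ (dst G x y : ℝ)) :
    Reconstructible G ∧ Reconstructible Gᶜ := by
  have hl : 1 < Real.log (Fintype.card V) := by
    rw [Real.lt_log_iff_exp_lt (by positivity)]
    have h1 := Real.exp_one_lt_d9
    have h2 : (3 : ℝ) ≤ Fintype.card V := by exact_mod_cast h3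
    linarith
  have hcard : 1 < Fintype.card V := by omega
  obtain ⟨x, y, hxy⟩ := Fintype.one_lt_card_iff.mp hcard
  have hd := h x y hxy
  have hd2 : (dst G x y : ℝ) ≤ Fintype.card V - 2 := by
    have := dst_le G hxy
    have h1 : ((dst G x y + 2 : ℕ) : ℝ) ≤ Fintype.card V := by exact_mod_cast this
    push_cast at h1
    linarith
  have hnum := num h3 (by linarith)
  apply thmB G ∅ (8 * Real.log (Fintype.card V) ^ 2) (by positivity) (fun x y _ _ => h x y)
  have e1 : 2 * (Fintype.card V : ℝ) * Real.log (Fintype.card V) /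
      (8 * Real.log (Fintype.card V) ^ 2) = Fintype.card V / (4 * Real.log (Fintype.card V)) := by
    have : Real.log (Fintype.card V) ≠ 0 := by linarith
    field_simp
    ring
  rw [e1, card_empty, Nat.cast_zero, zero_add]
  exact hnum

end Pool.Agent.H71.LOC
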