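import Pool.Agent.H71.LOC.Grp
import Pool.Agent.H71.LOC.C4
import Pool.Agent.H71.LOC.Main

set_option autoImplicit false
set_option linter.unusedSectionVars false

/-!
# The number of embeddings of an induced subgraph: images, restrictions, and automorphisms
-/

namespace Pool.Agent.H71.LOC

open Finset Classical

variable {V : Type} [Fintype V]

/-- the automorphisms of `G[D]` which fix the elements of `T` -/
def fixAut (G : SimpleGraph V) (D T : Finset V) : Subgroup (Equiv.Perm ((D : Set V) : Type)) where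
  carrier := {g | (∀ x y : (D : Set V), G.Adj (g x : V) (g y : V) ↔ G.Adj (x : V) (y : V)) ∧
    ∀ x : (D : Set V), (x : V) ∈ T → g x = x}
  mul_mem' := by
    rintro a b ⟨ha1, ha2⟩ ⟨hb1, hb2⟩
    refine ⟨fun x y => ?_, fun x hx => ?_⟩
    · rw [Equiv.Perm.mul_apply, Equiv.Perm.mul_apply, ha1, hb1]
    · rw [Equiv.Perm.mul_apply, hb2 x hx, ha2 x hx]
  one_mem' := ⟨fun _ _ => Iff.rfl, fun _ _ => rfl⟩
  inv_mem' := by
    rintro a ⟨ha1, ha2⟩
    refine ⟨fun x y => ?_, fun x hx => ?_⟩
    · have h1 := ha1 (a⁻¹ x) (a⁻¹ y)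
      have e1 : a (a⁻¹ x) = x := a.apply_symm_apply x
      have e2 : a (a⁻¹ y) = y := a.apply_symm_apply y
      rw [e1, e2] at h1
      exact h1.symm
    · have h1 := ha2 x hx
      apply a.injective
      have e1 : a (a⁻¹ x) = x := a.apply_symm_apply x
      rw [e1, h1]

theorem mem_fixAut {G : SimpleGraph V} {D T : Finset V} {g : Equiv.Perm ((D : Set V) : Type)} :
    g ∈ fixAut G D T ↔
      (∀ x y : (D : Set V), G.Adj (g x : V) (g y : V) ↔ G.Adj (x : V) (y : V)) ∧
        ∀ x : (D : Set V), (x : V) ∈ T → g x = x := Iff.rfl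

theorem emb_count' (G : SimpleGraph V) {D T : Finset V} (hTD : T ⊆ D) :
    Nat.card (G.induce (D : Set V) ↪g G) ≤
      gc (fixAut G D T) * ((Fintype.card V).choose D.card * (pe G G T).card) := by
  have hfin : Finite ((G.induce (D : Set V)) ↪g G) := inferInstance
  have : Fintype ((G.induce (D : Set V)) ↪g G) := Fintype.ofFinite _
  rw [Nat.card_eq_fintype_card, ← card_univ]
  let rest : ((G.induce (D : Set V)) ↪g G) → Finset (V × V) := fun φ =>
    (univ.filter (fun x : (D : Set V) => (x : V) ∈ T)).image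
      (fun x : (D : Set V) => ((x : V), φ x))
  have hadj : ∀ (φ : (G.induce (D : Set V)) ↪g G) (x y : (D : Set V)),
      G.Adj (φ x) (φ y) ↔ G.Adj (x : V) (y : V) := fun φ x y => φ.map_rel_iff
  have hcardU : Fintype.card (D : Set V) = D.card := by simp
  have hprod : ((powersetCard D.card (univ : Finset V)) ×ˢ pe G G T).card =
      (Fintype.card V).choose D.card * (pe G G T).card := by
    rw [card_product, card_powersetCard, card_univ]
  rw [← hprod]
  apply card_le_mul_card_image_of_maps_to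
    (f := fun φ : (G.induce (D : Set V)) ↪g G => (univ.image φ, rest φ))
  · intro φ _
    rw [mem_product]
    refine ⟨?_, ?_⟩
    · rw [mem_powersetCard]
      refine ⟨subset_univ _, ?_⟩
      show (univ.image φ).card = D.card
      rw [card_image_of_injective _ φ.injective, card_univ, hcardU]
    · show rest φ ∈ pe G G T
      rw [mem_pe]
      constructor
      · intro p hp r hr hne
        obtain ⟨x, _, rfl⟩ := mem_image.mp hp
        obtain ⟨y, _, rfl⟩ := mem_image.mp hr
        have hxy : x ≠ y := fun e => hne (by rw [e])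
        exact ⟨fun e => hxy (Subtype.ext e), fun e => hxy (φ.injective e), hadj φ x y⟩
      · ext v
        rw [mem_image]
        constructor
        · rintro ⟨p, hp, rfl⟩
          obtain ⟨x, hx, rfl⟩ := mem_image.mp hp
          exact (mem_filter.mp hx).2
        · intro hv
          refine ⟨(v, φ ⟨v, hTD hv⟩), mem_image.mpr ⟨⟨v, hTD hv⟩, ?_, rfl⟩, rfl⟩
          exact mem_filter.mpr ⟨mem_univ _, hv⟩
  · intro p _
    by_cases hne : ((univ : Finset ((G.induce (D : Set V)) ↪g G)).filter
        (fun φ : (G.induce (D : Set V)) ↪g G => (univ.image φ, rest φ) = p)).Nonempty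
    swap
    · rw [not_nonempty_iff_eq_empty] at hne
      rw [hne, card_empty]
      exact Nat.zero_le _
    obtain ⟨φ0, hφ0⟩ := hne
    have hφ0' := (mem_filter.mp hφ0).2
    -- the difference with `φ0`
    let f : ((G.induce (D : Set V)) ↪g G) → ↥(D : Set V) → ↥(D : Set V) := fun φ x =>
      if h : ∃ y, φ0 y = φ x then h.choose else x
    have hf : ∀ φ ∈ (univ : Finset ((G.induce (D : Set V)) ↪g G)).filter
        (fun φ : (G.induce (D : Set V)) ↪g G => (univ.image φ, rest φ) = p), ∀ x, φ0 (f φ x) = φ x := by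
      intro φ hφ x
      have hφ' := (mem_filter.mp hφ).2
      have h1 : univ.image φ = univ.image φ0 :=
        (congrArg Prod.fst hφ').trans (congrArg Prod.fst hφ0').symm
      have h2 : φ x ∈ univ.image φ0 := by
        rw [← h1]
        exact mem_image_of_mem _ (mem_univ x)
      obtain ⟨y, _, hy⟩ := mem_image.mp h2
      have h3 : ∃ y, φ0 y = φ x := ⟨y, hy⟩
      show φ0 (if h : ∃ y, φ0 y = φ x then h.choose else x) = φ x
      rw [dif_pos h3]
      exact h3.choose_spec
    have hbij : ∀ φ ∈ (univ : Finset ((G.induce (D : Set V)) ↪g G)).filter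
        (fun φ : (G.induce (D : Set V)) ↪g G => (univ.image φ, rest φ) = p), Function.Bijective (f φ) := by
      intro φ hφ
      rw [← Finite.injective_iff_bijective]
      intro x y hxy
      apply φ.injective
      rw [← hf φ hφ x, ← hf φ hφ y, hxy]
    let g : ((G.induce (D : Set V)) ↪g G) → Equiv.Perm ((D : Set V) : Type) := fun φ =>
      if h : Function.Bijective (f φ) then Equiv.ofBijective (f φ) h else 1
    have hg : ∀ φ ∈ (univ : Finset ((G.induce (D : Set V)) ↪g G)).filter
        (fun φ : (G.induce (D : Set V)) ↪g G => (univ.image φ, rest φ) = p), ∀ x, φ0 (g φ x) = φ x := by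
      intro φ hφ x
      have : g φ = Equiv.ofBijective (f φ) (hbij φ hφ) := dif_pos (hbij φ hφ)
      rw [this]
      exact hf φ hφ x
    apply le_gc _ g
    · intro φ hφ
      rw [mem_fixAut]
      refine ⟨fun x y => ?_, fun x hx => ?_⟩
      · rw [← hadj φ0, hg φ hφ, hg φ hφ, hadj]
      · apply φ0.injective
        rw [hg φ hφ]
        have hφ' := (mem_filter.mp hφ).2
        have h1 : rest φ = rest φ0 :=
          (congrArg Prod.snd hφ').trans (congrArg Prod.snd hφ0').symm
        have h2 : ((x : V), φ x) ∈ rest φ0 := by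
          rw [← h1]
          exact mem_image.mpr ⟨x, mem_filter.mpr ⟨mem_univ _, hx⟩, rfl⟩
        obtain ⟨y, _, hy⟩ := mem_image.mp h2
        have h3 : y = x := Subtype.ext (congrArg Prod.fst hy)
        have h4 := congrArg Prod.snd hy
        rw [h3] at h4
        exact h4.symm
    · intro φ hφ ψ hψ hφψ
      rw [mem_coe] at hφ hψ
      apply RelEmbedding.ext
      intro x
      rw [← hg φ hφ x, ← hg ψ hψ x, hφψ]

theorem emb_count (G : SimpleGraph V) {D T : Finset V} (hTD : T ⊆ D) :
    (pe G G D).card ≤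
      gc (fixAut G D T) * ((Fintype.card V).choose D.card * (pe G G T).card) :=
  (pe_le_emb G D).trans (emb_count' G hTD)

theorem pe_empty (G : SimpleGraph V) : (pe G G ∅).card ≤ 1 := by
  have h : pe G G ∅ ⊆ {∅} := by
    intro J hJ
    rw [mem_pe, image_eq_empty] at hJ
    rw [mem_singleton]
    exact hJ.2
  exact (card_le_card h).trans (le_of_eq (card_singleton _))

theorem gc_fixAut (G : SimpleGraph V) (D T : Finset V) :
    gc (fixAut G D T) ≤ Nat.card (G.induce (D : Set V) ≃g G.induce (D : Set V)) := by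
  have hfin : Finite (G.induce (D : Set V) ≃g G.induce (D : Set V)) := finite_aut _
  have : Fintype (G.induce (D : Set V) ≃g G.induce (D : Set V)) := Fintype.ofFinite _
  rw [Nat.card_eq_fintype_card, ← card_univ]
  unfold gc
  apply card_le_card_of_injOn (fun g => if h : g ∈ fixAut G D T then
    (⟨g, fun {a b} => h.1 a b⟩ : G.induce (D : Set V) ≃g G.induce (D : Set V))
      else RelIso.refl _)
  · intro g _
    exact mem_coe.mpr (mem_univ _)
  · intro g hg k hk hgk
    have hg' := (mem_filter.mp (mem_coe.mp hg)).2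
    have hk' := (mem_filter.mp (mem_coe.mp hk)).2
    simp only [dif_pos hg', dif_pos hk'] at hgk
    exact congrArg RelIso.toEquiv hgk

/-- **A locating set with few automorphisms.** -/
theorem thmAut (G : SimpleGraph V) {D : Finset V} (hD : Loc G D)
    (h : 4 * ((Fintype.card V).choose D.card *
        Nat.card (G.induce (D : Set V) ≃g G.induce (D : Set V))) ^ 2 <
      Nat.card (G ≃g G) ^ 2 * 2 ^ (Fintype.card V - D.card)) :
    Pool.Agent.H234RC.Reconstructible G ∧ Pool.Agent.H234RC.Reconstructible Gᶜ := by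
  apply thmA G hD
  have h1 := emb_count' G (D := D) (T := ∅) (empty_subset _)
  have h2 := gc_fixAut G D ∅
  have h3 := pe_empty G
  have h4 : Nat.card (G.induce (D : Set V) ↪g G) ≤ (Fintype.card V).choose D.card *
      Nat.card (G.induce (D : Set V) ≃g G.induce (D : Set V)) := by
    calc Nat.card (G.induce (D : Set V) ↪g G) ≤
        gc (fixAut G D ∅) * ((Fintype.card V).choose D.card * (pe G G ∅).card) := h1
      _ ≤ Nat.card (G.induce (D : Set V) ≃g G.induce (D : Set V)) *
          ((Fintype.card V).choose D.card * 1) :=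
          Nat.mul_le_mul h2 (Nat.mul_le_mul_left _ h3)
      _ = _ := by rw [mul_one, mul_comm]
  exact (Nat.mul_le_mul_left _ (Nat.pow_le_pow_left h4 2)).trans_lt h

/-- two vertices joined by a walk of length four -/
def Four (G : SimpleGraph V) (x y : V) : Prop :=
  ∃ a t b, G.Adj x a ∧ G.Adj a t ∧ G.Adj t b ∧ G.Adj b y

/-- the elements of `D` which distinguish `x` and `y` -/
noncomputable def dset (G : SimpleGraph V) (D : Finset V) (x y : V) : Finset V :=
  D.filter (fun z => z ≠ x ∧ z ≠ y ∧ ¬ (G.Adj x z ↔ G.Adj y z))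

theorem exc_bound {D : Finset V} (τ : V → Finset V) (R : Finset V) (k : ℕ)
    (hτR : ∀ x, x ∉ R → τ x = ∅) (hτk : ∀ x, (τ x).card ≤ k) :
    ∑ x : (D : Set V), Real.logb 2
      (1 + (((univ.filter (fun y : (D : Set V) => (y : V) ∈ τ x)).card : ℕ) : ℝ)) ≤
      R.card * Real.logb 2 (k + 1) := by
  have hk0 : (0 : ℝ) ≤ k := Nat.cast_nonneg _
  have hc0 : 0 ≤ Real.logb 2 ((k : ℝ) + 1) := Real.logb_nonneg (by norm_num) (by linarith)
  have h1 : ∀ x : (D : Set V), Real.logb 2
      (1 + (((univ.filter (fun y : (D : Set V) => (y : V) ∈ τ x)).card : ℕ) : ℝ)) ≤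
      if (x : V) ∈ R then Real.logb 2 ((k : ℝ) + 1) else 0 := by
    intro x
    have h2 : (univ.filter (fun y : (D : Set V) => (y : V) ∈ τ x)).card ≤ (τ x).card := by
      apply card_le_card_of_injOn (fun y : (D : Set V) => (y : V))
      · intro y hy
        exact mem_coe.mpr (mem_filter.mp (mem_coe.mp hy)).2
      · intro a _ b _ hab
        exact Subtype.ext hab
    split_ifs with hx
    · apply Real.logb_le_logb_of_le (by norm_num)
      · have : (0 : ℝ) ≤ (((univ.filter (fun y : (D : Set V) => (y : V) ∈ τ x)).card : ℕ) : ℝ) :=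
          Nat.cast_nonneg _
        linarith
      · have h3 : (((univ.filter (fun y : (D : Set V) => (y : V) ∈ τ x)).card : ℕ) : ℝ) ≤ k := by
          exact_mod_cast h2.trans (hτk x)
        linarith
    · have h5 : (τ (x : V)).card = 0 := by rw [hτR x hx, card_empty]
      have h3 : (univ.filter (fun y : (D : Set V) => (y : V) ∈ τ x)).card = 0 := by omega
      rw [h3]
      simp
  refine (sum_le_sum (fun x _ => h1 x)).trans ?_
  rw [← sum_filter, sum_const, nsmul_eq_mul]
  apply mul_le_mul_of_nonneg_right _ hc0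
  have h4 : (univ.filter (fun x : (D : Set V) => (x : V) ∈ R)).card ≤ R.card := by
    apply card_le_card_of_injOn (fun y : (D : Set V) => (y : V))
    · intro y hy
      exact mem_coe.mpr (mem_filter.mp (mem_coe.mp hy)).2
    · intro a _ b _ hab
      exact Subtype.ext hab
  exact_mod_cast h4

theorem aut_bound {G : SimpleGraph V} {Δ : ℕ} (hΔ2 : 2 ≤ Δ) (hΔ : DegLE G Δ) {D T : Finset V}
    (hT : ∀ v ∈ D, v ∉ T → ∃ u ∈ D, ∃ t ∈ T, G.Adj v u ∧ G.Adj u t) (hTD : T ⊆ D) {q : ℝ}
    (hq : 0 < q) {σ : ℝ} (hσ : 1 ≤ σ) (hσq : Real.logb 2 Δ * q ≤ 2 * σ)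
    (hσ2 : 4 * Real.logb 2 σ ≤ q) (τ : V → Finset V) (R : Finset V) (k : ℕ)
    (hτR : ∀ x, x ∉ R → τ x = ∅) (hτk : ∀ x, (τ x).card ≤ k)
    (hsep : ∀ x y : V, x ∉ T → y ∉ T → x ≠ y → Four G x y → y ∉ τ x →
      q ≤ ((dset G D x y).card : ℝ)) :
    Real.logb 2 (gc (fixAut G D T)) ≤
      D.card * (8 * Real.logb 2 Δ + 8 * Real.logb 2 σ ^ 2) / q +
        2 * (R.card * Real.logb 2 (k + 1)) := by
  have hΔr : (2 : ℝ) ≤ Δ := by exact_mod_cast hΔ2
  have hcardU : Fintype.card (D : Set V) = D.card := by simp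
  have key := group_bound (U := (D : Set V)) (R := fun x y => G.Adj (x : V) (y : V))
    (fun x y => G.adj_comm _ _) hq
    (τ := fun x => univ.filter (fun y : (D : Set V) => (y : V) ∈ τ x)) hσ
    (Λ := 2 * Real.logb 2 Δ) (by linarith) hσ2 (exc_bound (D := D) τ R k hτR hτk)
    (fixAut G D T) ⟨fun g hg x y => (mem_fixAut.mp hg).1 x y, ?_⟩ ?_
  · rw [hcardU] at key
    refine key.trans (le_of_eq ?_)
    ring
  · intro g hg x hgx hgt
    obtain ⟨hg1, hg2⟩ := mem_fixAut.mp hg
    have hxT : (x : V) ∉ T := fun h => hgx (hg2 x h)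
    have hgxT : (g x : V) ∉ T := fun h => hgx (g.injective (hg2 (g x) h))
    obtain ⟨u, hu, t, ht, h1, h2⟩ := hT x x.2 hxT
    have h3 : G.Adj (g x : V) (g ⟨u, hu⟩) := (hg1 x ⟨u, hu⟩).mpr h1
    have h4 : G.Adj (g ⟨u, hu⟩ : V) (g ⟨t, hTD ht⟩) := (hg1 ⟨u, hu⟩ ⟨t, hTD ht⟩).mpr h2
    have h5 : g ⟨t, hTD ht⟩ = ⟨t, hTD ht⟩ := hg2 ⟨t, hTD ht⟩ ht
    rw [h5] at h4
    have hF : Four G (x : V) (g x) := ⟨u, t, (g ⟨u, hu⟩ : V), h1, h2, h4.symm, h3.symm⟩
    have hτ' : (g x : V) ∉ τ x := fun h' => hgt (mem_filter.mpr ⟨mem_univ _, h'⟩)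
    refine (hsep x (g x) hxT hgxT (fun e => hgx (Subtype.ext e.symm)) hF hτ').trans ?_
    have hle : (dset G D (x : V) (g x)).card ≤ ((univ.filter
        (fun z : (D : Set V) => ¬ (G.Adj (x : V) z ↔ G.Adj (g x : V) z))).image
          (fun z : (D : Set V) => (z : V))).card := by
      apply card_le_card
      intro z hz
      unfold dset at hz
      rw [mem_filter] at hz
      exact mem_image.mpr ⟨⟨z, hz.1⟩, mem_filter.mpr ⟨mem_univ _, hz.2.2.2⟩, rfl⟩
    exact_mod_cast hle.trans card_image_le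
  · intro x
    have hlogΔ : 0 ≤ Real.logb 2 Δ := Real.logb_nonneg (by norm_num) (by linarith)
    by_cases hx : (x : V) ∈ T
    · have h1 : orb (fixAut G D T) x = {x} := by
        ext w
        rw [mem_orb, mem_singleton]
        constructor
        · rintro ⟨g, hg, rfl⟩
          exact (mem_fixAut.mp hg).2 x hx
        · rintro rfl
          exact ⟨1, Subgroup.one_mem _, rfl⟩
      rw [h1, card_singleton]
      simp only [Nat.cast_one, Real.logb_one]
      linarith
    · obtain ⟨u, hu, t, ht, h1, h2⟩ := hT x x.2 hx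
      have hsub : (orb (fixAut G D T) x).image (fun z : (D : Set V) => (z : V)) ⊆
          (nb G t).biUnion (fun u => nb G u) := by
        intro w hw
        obtain ⟨z, hz, rfl⟩ := mem_image.mp hw
        obtain ⟨g, hg, rfl⟩ := mem_orb.mp hz
        obtain ⟨hg1, hg2⟩ := mem_fixAut.mp hg
        have h3 : G.Adj (g x : V) (g ⟨u, hu⟩) := (hg1 x ⟨u, hu⟩).mpr h1
        have h4 : G.Adj (g ⟨u, hu⟩ : V) (g ⟨t, hTD ht⟩) := (hg1 ⟨u, hu⟩ ⟨t, hTD ht⟩).mpr h2
        have h5 : g ⟨t, hTD ht⟩ = ⟨t, hTD ht⟩ := hg2 ⟨t, hTD ht⟩ ht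
        rw [h5] at h4
        exact mem_biUnion.mpr ⟨_, mem_nb.mpr h4.symm, mem_nb.mpr h3.symm⟩
      have hc : (orb (fixAut G D T) x).card ≤ Δ * Δ := by
        rw [← card_image_of_injective (f := fun z : (D : Set V) => (z : V)) _
          Subtype.val_injective]
        refine (card_le_card hsub).trans (card_biUnion_le.trans ?_)
        calc ∑ u ∈ nb G t, (nb G u).card ≤ ∑ u ∈ nb G t, Δ := sum_le_sum (fun u _ => hΔ u)
          _ = (nb G t).card * Δ := by rw [sum_const, smul_eq_mul]
          _ ≤ Δ * Δ := Nat.mul_le_mul_right _ (hΔ t)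
      have h6 : 2 * Real.logb 2 Δ = Real.logb 2 ((Δ : ℝ) * Δ) := by
        rw [Real.logb_mul (by linarith) (by linarith)]
        ring
      rw [h6]
      apply Real.logb_le_logb_of_le (by norm_num)
      · exact_mod_cast card_orb_pos _ x
      · exact_mod_cast hc

end Pool.Agent.H71.LOC
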