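import Pool.Agent.H71.LOC.Ext2

set_option autoImplicit false
set_option linter.unusedSectionVars false

/-!
# A part of the vertices which contains its share of almost all sets of a family
-/

namespace Pool.Agent.H71.LOC

open Finset Classical

variable {V : Type} [Fintype V]

theorem sum_half64 (N : Finset V) (i : Fin 64) :
    ∑ f : V → Fin 64, (1 / 2 : ℝ) ^ (N.filter (fun u => f u = i)).card =
      64 ^ (Fintype.card V) * (127 / 128) ^ N.card := by
  have h1 : ∀ f : V → Fin 64, (1 / 2 : ℝ) ^ (N.filter (fun u => f u = i)).card =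
      ∏ u : V, (if u ∈ N ∧ f u = i then (1 / 2 : ℝ) else 1) := by
    intro f
    rw [prod_ite, prod_const_one, mul_one, prod_const]
    congr 2
    ext u
    rw [mem_filter, mem_filter]
    exact (and_iff_right (mem_univ _)).symm
  have h2 : ∏ u : V, ∑ j : Fin 64, (if u ∈ N ∧ j = i then (1 / 2 : ℝ) else 1) =
      ∑ f : V → Fin 64, ∏ u : V, (if u ∈ N ∧ f u = i then (1 / 2 : ℝ) else 1) := by
    rw [prod_univ_sum, Fintype.piFinset_univ]
  rw [sum_congr rfl (fun f _ => h1 f), ← h2]
  have h3 : ∀ u : V, ∑ j : Fin 64, (if u ∈ N ∧ j = i then (1 / 2 : ℝ) else 1) =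
      64 * (if u ∈ N then (127 / 128 : ℝ) else 1) := by
    intro u
    by_cases hu : u ∈ N
    · simp only [hu, true_and, if_true]
      have h4 : ∀ j : Fin 64, (if j = i then (1 / 2 : ℝ) else 1) =
          1 - (if j = i then (1 / 2 : ℝ) else 0) := by
        intro j
        split_ifs <;> norm_num
      rw [sum_congr rfl (fun j _ => h4 j), sum_sub_distrib, sum_ite_eq', if_pos (mem_univ i),
        sum_const, card_univ, Fintype.card_fin]
      norm_num
    · simp [hu]
  rw [prod_congr rfl (fun u _ => h3 u), prod_mul_distrib, prod_const, card_univ, prod_ite,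
    prod_const_one, mul_one, prod_const]
  congr 3
  ext u
  simp

theorem coloring64 {β : Type} (N : β → Finset V) (Q : Finset β) (θ : β → ℝ)
    (hθ : ∀ v ∈ Q, (127 / 128 : ℝ) ^ (N v).card * (2 : ℝ) ^ (((N v).card : ℝ) / 128) ≤ θ v) :
    ∃ D : Finset V, 64 * D.card ≤ Fintype.card V ∧
      ((Q.filter (fun v => ((N v ∩ D).card : ℝ) < ((N v).card : ℝ) / 128)).card : ℝ) ≤
        64 * ∑ v ∈ Q, θ v := by
  -- the number of the bad pairs of a colouring
  let bad : (V → Fin 64) → Fin 64 → β → Prop := fun f i v =>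
    (((N v).filter (fun u => f u = i)).card : ℝ) < ((N v).card : ℝ) / 128
  have hone : ∀ (i : Fin 64) (v : β), v ∈ Q →
      ∑ f : V → Fin 64, (if bad f i v then (1 : ℝ) else 0) ≤ 64 ^ (Fintype.card V) * θ v := by
    intro i v hv
    have h1 : ∀ f : V → Fin 64, (if bad f i v then (1 : ℝ) else 0) ≤
        (2 : ℝ) ^ (((N v).card : ℝ) / 128) *
          (1 / 2 : ℝ) ^ ((N v).filter (fun u => f u = i)).card := by
      intro f
      split_ifs with h
      · have e1 : (1 / 2 : ℝ) ^ ((N v).filter (fun u => f u = i)).card =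
            (2 : ℝ) ^ (-(((N v).filter (fun u => f u = i)).card : ℝ)) := by
          rw [Real.rpow_neg (by norm_num), Real.rpow_natCast, one_div, inv_pow]
        rw [e1, ← Real.rpow_add (by norm_num)]
        apply Real.one_le_rpow (by norm_num)
        have h' : (((N v).filter (fun u => f u = i)).card : ℝ) < ((N v).card : ℝ) / 128 := h
        linarith
      · positivity
    calc ∑ f : V → Fin 64, (if bad f i v then (1 : ℝ) else 0) ≤
        ∑ f : V → Fin 64, (2 : ℝ) ^ (((N v).card : ℝ) / 128) *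
          (1 / 2 : ℝ) ^ ((N v).filter (fun u => f u = i)).card := sum_le_sum (fun f _ => h1 f)
      _ = (2 : ℝ) ^ (((N v).card : ℝ) / 128) *
          (64 ^ (Fintype.card V) * (127 / 128) ^ (N v).card) := by
          rw [← mul_sum, sum_half64]
      _ = 64 ^ (Fintype.card V) *
          ((127 / 128) ^ (N v).card * (2 : ℝ) ^ (((N v).card : ℝ) / 128)) := by
          ring
      _ ≤ 64 ^ (Fintype.card V) * θ v := mul_le_mul_of_nonneg_left (hθ v hv) (by positivity)
  have hex : ∃ f ∈ (univ : Finset (V → Fin 64)),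
      ∑ i : Fin 64, ((Q.filter (fun v => bad f i v)).card : ℝ) ≤ 64 * ∑ v ∈ Q, θ v := by
    · apply exists_le_of_sum_le univ_nonempty
      have e1 : ∀ f : V → Fin 64, ∑ i : Fin 64, ((Q.filter (fun v => bad f i v)).card : ℝ) =
          ∑ i : Fin 64, ∑ v ∈ Q, (if bad f i v then (1 : ℝ) else 0) := by
        intro f
        apply sum_congr rfl
        intro i _
        rw [sum_boole]
      rw [sum_congr rfl (fun f _ => e1 f), sum_comm]
      have e2 : ∀ i : Fin 64, ∑ f : V → Fin 64, ∑ v ∈ Q, (if bad f i v then (1 : ℝ) else 0) ≤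
          64 ^ (Fintype.card V) * ∑ v ∈ Q, θ v := by
        intro i
        rw [sum_comm, mul_sum]
        exact sum_le_sum (fun v hv => hone i v hv)
      calc ∑ i : Fin 64, ∑ f : V → Fin 64, ∑ v ∈ Q, (if bad f i v then (1 : ℝ) else 0) ≤
          ∑ i : Fin 64, 64 ^ (Fintype.card V) * ∑ v ∈ Q, θ v := sum_le_sum (fun i _ => e2 i)
        _ = ∑ f : V → Fin 64, 64 * ∑ v ∈ Q, θ v := by
            rw [sum_const, sum_const, card_univ, card_univ, Fintype.card_fun, Fintype.card_fin,
              nsmul_eq_mul, nsmul_eq_mul]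
            push_cast
            ring
  obtain ⟨f, _, hf⟩ := hex
  have hcol : ∃ i ∈ (univ : Finset (Fin 64)), 64 * (univ.filter (fun u : V => f u = i)).card ≤
      Fintype.card V := by
    apply exists_le_of_sum_le univ_nonempty
    rw [← mul_sum, sum_const, card_univ, Fintype.card_fin, smul_eq_mul]
    apply Nat.mul_le_mul_left
    rw [← card_univ (α := V)]
    exact (card_eq_sum_card_fiberwise (fun _ _ => mem_coe.mpr (mem_univ _))).ge
  obtain ⟨i, _, hi⟩ := hcol
  refine ⟨univ.filter (fun u : V => f u = i), hi, ?_⟩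
  have e3 : ∀ v, N v ∩ univ.filter (fun u : V => f u = i) = (N v).filter (fun u => f u = i) := by
    intro v
    ext u
    simp
  have e4 : Q.filter (fun v => ((N v ∩ univ.filter (fun u : V => f u = i)).card : ℝ) <
      ((N v).card : ℝ) / 128) = Q.filter (fun v => bad f i v) := by
    apply filter_congr
    intro v _
    rw [e3]
  rw [e4]
  refine le_trans ?_ hf
  exact single_le_sum (f := fun i : Fin 64 => ((Q.filter (fun v => bad f i v)).card : ℝ))
    (fun _ _ => Nat.cast_nonneg _) (mem_univ i)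

/-- the size of the exceptional probabilities: `log 2 < 0.6932` -/
theorem tail_le {L c : ℝ} (hL : 0 ≤ L) (hc : 0 ≤ c) {d : ℕ} (hd : 2048 / 7 * c * L ≤ d) :
    (127 / 128 : ℝ) ^ d * (2 : ℝ) ^ ((d : ℝ) / 128) ≤ (2 : ℝ) ^ (-(c * L)) := by
  have hl2 := Real.log_two_gt_d9
  have hl2' := Real.log_two_lt_d9
  have h1 : (127 / 128 : ℝ) ^ d ≤ Real.exp (-((d : ℝ) / 128)) := by
    have h2 : (127 / 128 : ℝ) ≤ Real.exp (-(1 / 128)) := by
      have := Real.add_one_le_exp (-(1 / 128 : ℝ))
      linarith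
    calc (127 / 128 : ℝ) ^ d ≤ Real.exp (-(1 / 128)) ^ d := pow_le_pow_left₀ (by norm_num) h2 d
      _ = Real.exp (-((d : ℝ) / 128)) := by
          rw [← Real.exp_nat_mul]
          congr 1
          ring
  have e1 : (2 : ℝ) ^ ((d : ℝ) / 128) = Real.exp (Real.log 2 * ((d : ℝ) / 128)) :=
    Real.rpow_def_of_pos (by norm_num) _
  have e2 : (2 : ℝ) ^ (-(c * L)) = Real.exp (Real.log 2 * (-(c * L))) :=
    Real.rpow_def_of_pos (by norm_num) _
  have h0 : (0 : ℝ) ≤ d := Nat.cast_nonneg _
  calc (127 / 128 : ℝ) ^ d * (2 : ℝ) ^ ((d : ℝ) / 128) ≤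
      Real.exp (-((d : ℝ) / 128)) * (2 : ℝ) ^ ((d : ℝ) / 128) :=
        mul_le_mul_of_nonneg_right h1 (by positivity)
    _ = Real.exp (-((d : ℝ) / 128) * (1 - Real.log 2)) := by
        rw [e1, ← Real.exp_add]
        congr 1
        ring
    _ ≤ (2 : ℝ) ^ (-(c * L)) := by
        rw [e2]
        apply Real.exp_le_exp.mpr
        have h3 : 0 ≤ c * L := mul_nonneg hc hL
        have h4 : 0.3068 * (d : ℝ) ≤ d * (1 - Real.log 2) := by nlinarith
        have h5 : Real.log 2 * (c * L) ≤ 0.6932 * (c * L) := by nlinarith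
        nlinarith

end Pool.Agent.H71.LOC
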