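import Pool.Agent.H71.LOC.Perc

set_option autoImplicit false
set_option linter.unusedSectionVars false

/-!
# A quarter of the vertices which contains an eighth of almost all neighbourhoods
-/

namespace Pool.Agent.H71.LOC

open Finset Classical

variable {V : Type} [Fintype V]

theorem sum_half (N : Finset V) (i : Fin 4) :
    ∑ f : V → Fin 4, (1 / 2 : ℝ) ^ (N.filter (fun u => f u = i)).card =
      4 ^ (Fintype.card V) * (7 / 8) ^ N.card := by
  have h1 : ∀ f : V → Fin 4, (1 / 2 : ℝ) ^ (N.filter (fun u => f u = i)).card =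
      ∏ u : V, (if u ∈ N ∧ f u = i then (1 / 2 : ℝ) else 1) := by
    intro f
    rw [prod_ite, prod_const_one, mul_one, prod_const]
    congr 2
    ext u
    rw [mem_filter, mem_filter]
    exact (and_iff_right (mem_univ _)).symm
  have h2 : ∏ u : V, ∑ j : Fin 4, (if u ∈ N ∧ j = i then (1 / 2 : ℝ) else 1) =
      ∑ f : V → Fin 4, ∏ u : V, (if u ∈ N ∧ f u = i then (1 / 2 : ℝ) else 1) := by
    rw [prod_univ_sum, Fintype.piFinset_univ]
  rw [sum_congr rfl (fun f _ => h1 f), ← h2]
  have h3 : ∀ u : V, ∑ j : Fin 4, (if u ∈ N ∧ j = i then (1 / 2 : ℝ) else 1) =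
      4 * (if u ∈ N then (7 / 8 : ℝ) else 1) := by
    intro u
    by_cases hu : u ∈ N
    · simp only [hu, true_and, if_true]
      have h4 : ∀ j : Fin 4, (if j = i then (1 / 2 : ℝ) else 1) =
          1 - (if j = i then (1 / 2 : ℝ) else 0) := by
        intro j
        split_ifs <;> norm_num
      rw [sum_congr rfl (fun j _ => h4 j), sum_sub_distrib, sum_ite_eq', if_pos (mem_univ i),
        sum_const, card_univ, Fintype.card_fin]
      norm_num
    · simp [hu]
  rw [prod_congr rfl (fun u _ => h3 u), prod_mul_distrib, prod_const, card_univ, prod_ite,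
    prod_const_one, mul_one, prod_const]
  congr 3
  ext u
  simp

theorem coloring (N : V → Finset V) (Q : Finset V) (θ : ℝ) (hθ0 : 0 ≤ θ)
    (hθ : ∀ v ∈ Q, (7 / 8 : ℝ) ^ (N v).card * (2 : ℝ) ^ (((N v).card : ℝ) / 8) ≤ θ) :
    ∃ D : Finset V, 4 * D.card ≤ Fintype.card V ∧
      ((Q.filter (fun v => ((N v ∩ D).card : ℝ) < ((N v).card : ℝ) / 8)).card : ℝ) ≤
        4 * Fintype.card V * θ := by
  -- the number of the bad pairs of a colouring
  let bad : (V → Fin 4) → Fin 4 → V → Prop := fun f i v =>
    (((N v).filter (fun u => f u = i)).card : ℝ) < ((N v).card : ℝ) / 8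
  have hone : ∀ (i : Fin 4) (v : V), v ∈ Q →
      ∑ f : V → Fin 4, (if bad f i v then (1 : ℝ) else 0) ≤ 4 ^ (Fintype.card V) * θ := by
    intro i v hv
    have h1 : ∀ f : V → Fin 4, (if bad f i v then (1 : ℝ) else 0) ≤
        (2 : ℝ) ^ (((N v).card : ℝ) / 8) * (1 / 2 : ℝ) ^ ((N v).filter (fun u => f u = i)).card := by
      intro f
      split_ifs with h
      · have e1 : (1 / 2 : ℝ) ^ ((N v).filter (fun u => f u = i)).card =
            (2 : ℝ) ^ (-(((N v).filter (fun u => f u = i)).card : ℝ)) := by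
          rw [Real.rpow_neg (by norm_num), Real.rpow_natCast, one_div, inv_pow]
        rw [e1, ← Real.rpow_add (by norm_num)]
        apply Real.one_le_rpow (by norm_num)
        have h' : (((N v).filter (fun u => f u = i)).card : ℝ) < ((N v).card : ℝ) / 8 := h
        linarith
      · positivity
    calc ∑ f : V → Fin 4, (if bad f i v then (1 : ℝ) else 0) ≤
        ∑ f : V → Fin 4, (2 : ℝ) ^ (((N v).card : ℝ) / 8) *
          (1 / 2 : ℝ) ^ ((N v).filter (fun u => f u = i)).card := sum_le_sum (fun f _ => h1 f)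
      _ = (2 : ℝ) ^ (((N v).card : ℝ) / 8) * (4 ^ (Fintype.card V) * (7 / 8) ^ (N v).card) := by
          rw [← mul_sum, sum_half]
      _ = 4 ^ (Fintype.card V) * ((7 / 8) ^ (N v).card * (2 : ℝ) ^ (((N v).card : ℝ) / 8)) := by
          ring
      _ ≤ 4 ^ (Fintype.card V) * θ := mul_le_mul_of_nonneg_left (hθ v hv) (by positivity)
  have hex : ∃ f ∈ (univ : Finset (V → Fin 4)),
      ∑ i : Fin 4, ((Q.filter (fun v => bad f i v)).card : ℝ) ≤ 4 * Fintype.card V * θ := by
    · apply exists_le_of_sum_le univ_nonempty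
      have e1 : ∀ f : V → Fin 4, ∑ i : Fin 4, ((Q.filter (fun v => bad f i v)).card : ℝ) =
          ∑ i : Fin 4, ∑ v ∈ Q, (if bad f i v then (1 : ℝ) else 0) := by
        intro f
        apply sum_congr rfl
        intro i _
        rw [sum_boole]
      rw [sum_congr rfl (fun f _ => e1 f), sum_comm]
      have e2 : ∀ i : Fin 4, ∑ f : V → Fin 4, ∑ v ∈ Q, (if bad f i v then (1 : ℝ) else 0) ≤
          Fintype.card V * (4 ^ (Fintype.card V) * θ) := by
        intro i
        rw [sum_comm]
        calc ∑ v ∈ Q, ∑ f : V → Fin 4, (if bad f i v then (1 : ℝ) else 0) ≤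
            ∑ v ∈ Q, 4 ^ (Fintype.card V) * θ := sum_le_sum (fun v hv => hone i v hv)
          _ = Q.card * (4 ^ (Fintype.card V) * θ) := by rw [sum_const, nsmul_eq_mul]
          _ ≤ Fintype.card V * (4 ^ (Fintype.card V) * θ) := by
              apply mul_le_mul_of_nonneg_right _ (by positivity)
              exact_mod_cast card_le_univ Q
      calc ∑ i : Fin 4, ∑ f : V → Fin 4, ∑ v ∈ Q, (if bad f i v then (1 : ℝ) else 0) ≤
          ∑ i : Fin 4, Fintype.card V * (4 ^ (Fintype.card V) * θ) := sum_le_sum (fun i _ => e2 i)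
        _ = ∑ f : V → Fin 4, 4 * Fintype.card V * θ := by
            rw [sum_const, sum_const, card_univ, card_univ, Fintype.card_fun, Fintype.card_fin,
              nsmul_eq_mul, nsmul_eq_mul]
            push_cast
            ring
  obtain ⟨f, _, hf⟩ := hex
  have hcol : ∃ i ∈ (univ : Finset (Fin 4)), (univ.filter (fun u : V => f u = i)).card * 4 ≤
      Fintype.card V := by
    by_contra hcon
    push Not at hcon
    have h1 : Fintype.card V = ∑ i : Fin 4, (univ.filter (fun u : V => f u = i)).card := by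
      rw [← card_univ]
      exact card_eq_sum_card_fiberwise (fun _ _ => mem_coe.mpr (mem_univ _))
    rw [Fin.sum_univ_four] at h1
    have h2 := hcon 0 (mem_univ _)
    have h3 := hcon 1 (mem_univ _)
    have h4 := hcon 2 (mem_univ _)
    have h5 := hcon 3 (mem_univ _)
    omega
  obtain ⟨i, _, hi⟩ := hcol
  refine ⟨univ.filter (fun u : V => f u = i), by omega, ?_⟩
  have e3 : ∀ v, N v ∩ univ.filter (fun u : V => f u = i) = (N v).filter (fun u => f u = i) := by
    intro v
    ext u
    simp
  have e4 : Q.filter (fun v => ((N v ∩ univ.filter (fun u : V => f u = i)).card : ℝ) <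
      ((N v).card : ℝ) / 8) = Q.filter (fun v => bad f i v) := by
    apply filter_congr
    intro v _
    rw [e3]
  rw [e4]
  refine le_trans ?_ hf
  exact single_le_sum (f := fun i : Fin 4 => ((Q.filter (fun v => bad f i v)).card : ℝ))
    (fun _ _ => Nat.cast_nonneg _) (mem_univ i)

end Pool.Agent.H71.LOC
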