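import Pool.Agent.H71.LOC.Poly

set_option autoImplicit false
set_option linter.unusedSectionVars false

/-!
# Induced embeddings as sets of pairs, and Kelly's lemma
-/

namespace Pool.Agent.H71.LOC

open Finset Classical
open Pool.Agent.H234RC (Hypo NonIso)

variable {V : Type}

/-- the two pairs can belong to one induced embedding of a subgraph of `G` into `X` -/
def PC (G X : SimpleGraph V) (p q : V × V) : Prop :=
  p.1 ≠ q.1 ∧ p.2 ≠ q.2 ∧ (X.Adj p.2 q.2 ↔ G.Adj p.1 q.1)

theorem pc_symm {G X : SimpleGraph V} {p q : V × V} (h : PC G X p q) : PC G X q p :=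
  ⟨h.1.symm, h.2.1.symm, by rw [X.adj_comm, G.adj_comm]; exact h.2.2⟩

variable [Fintype V]

/-- the induced embeddings of `G[S]` into `X` -/
noncomputable def pe (G X : SimpleGraph V) (S : Finset V) : Finset (Finset (V × V)) :=
  univ.filter (fun J => Comp (PC G X) J ∧ J.image Prod.fst = S)

theorem mem_pe {G X : SimpleGraph V} {S : Finset V} {J : Finset (V × V)} :
    J ∈ pe G X S ↔ Comp (PC G X) J ∧ J.image Prod.fst = S := by
  unfold pe
  rw [mem_filter]
  exact and_iff_right (mem_univ _)

theorem fst_inj {G X : SimpleGraph V} {J : Finset (V × V)} (h : Comp (PC G X) J) :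
    Set.InjOn Prod.fst (J : Set (V × V)) := by
  intro p hp q hq e
  by_contra hne
  exact (h p hp q hq hne).1 e

theorem snd_inj {G X : SimpleGraph V} {J : Finset (V × V)} (h : Comp (PC G X) J) :
    Set.InjOn Prod.snd (J : Set (V × V)) := by
  intro p hp q hq e
  by_contra hne
  exact (h p hp q hq hne).2.1 e

theorem card_fst {G X : SimpleGraph V} {J : Finset (V × V)} (h : Comp (PC G X) J) :
    (J.image Prod.fst).card = J.card := card_image_of_injOn (fst_inj h)

theorem card_snd {G X : SimpleGraph V} {J : Finset (V × V)} (h : Comp (PC G X) J) :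
    (J.image Prod.snd).card = J.card := card_image_of_injOn (snd_inj h)

theorem kelly_one (G X : SimpleGraph V) (S : Finset V) :
    ∑ u : V, ((pe G X S).filter (fun J => u ∉ J.image Prod.snd)).card =
      (Fintype.card V - S.card) * (pe G X S).card := by
  have h1 : ∀ u : V, ((pe G X S).filter (fun J => u ∉ J.image Prod.snd)).card =
      ∑ J ∈ pe G X S, if u ∉ J.image Prod.snd then 1 else 0 := by
    intro u
    rw [card_filter]
  simp_rw [h1]
  rw [sum_comm, mul_comm, ← smul_eq_mul, ← sum_const]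
  apply sum_congr rfl
  intro J hJ
  rw [mem_pe] at hJ
  rw [← card_filter]
  have h2 : univ.filter (fun u : V => u ∉ J.image Prod.snd) = (J.image Prod.snd)ᶜ := by
    ext u
    rw [mem_filter, mem_compl]
    exact and_iff_right (mem_univ _)
  rw [h2, card_compl, card_snd hJ.1, ← card_fst hJ.1, hJ.2]

variable {G H : SimpleGraph V} {π : V → Equiv.Perm V}

/-- the image of an embedding under a permutation of the target -/
noncomputable def push (τ : Equiv.Perm V) (J : Finset (V × V)) : Finset (V × V) :=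
  J.image (fun p => (p.1, τ p.2))

theorem push_push (τ : Equiv.Perm V) (J : Finset (V × V)) : push τ.symm (push τ J) = J := by
  unfold push
  rw [image_image]
  have : ((fun p : V × V => (p.1, τ.symm p.2)) ∘ fun p : V × V => (p.1, τ p.2)) = id := by
    funext p
    simp
  rw [this, image_id]

theorem push_push' (τ : Equiv.Perm V) (J : Finset (V × V)) : push τ (push τ.symm J) = J := by
  have := push_push τ.symm J
  rwa [Equiv.symm_symm] at this

theorem push_fst (τ : Equiv.Perm V) (J : Finset (V × V)) :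
    (push τ J).image Prod.fst = J.image Prod.fst := by
  unfold push
  rw [image_image]
  rfl

theorem push_snd (τ : Equiv.Perm V) (J : Finset (V × V)) :
    (push τ J).image Prod.snd = (J.image Prod.snd).image τ := by
  unfold push
  rw [image_image, image_image]
  rfl

theorem push_mem {X Y : SimpleGraph V} {S : Finset V} {τ : Equiv.Perm V} {u : V}
    (hu : τ u = u) (hadj : ∀ x y, x ≠ u → y ≠ u → (Y.Adj (τ x) (τ y) ↔ X.Adj x y))
    {J : Finset (V × V)} (hJ : J ∈ pe G X S) (hJu : u ∉ J.image Prod.snd) :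
    push τ J ∈ pe G Y S ∧ u ∉ (push τ J).image Prod.snd := by
  rw [mem_pe] at hJ ⊢
  have hne : ∀ p ∈ J, p.2 ≠ u := by
    intro p hp e
    exact hJu (mem_image.mpr ⟨p, hp, e⟩)
  refine ⟨⟨?_, by rw [push_fst]; exact hJ.2⟩, ?_⟩
  · intro a ha b hb hab
    unfold push at ha hb
    rw [mem_image] at ha hb
    obtain ⟨p, hp, rfl⟩ := ha
    obtain ⟨q, hq, rfl⟩ := hb
    have hpq : p ≠ q := fun e => hab (by rw [e])
    obtain ⟨h1, h2, h3⟩ := hJ.1 p hp q hq hpq
    exact ⟨h1, fun e => h2 (τ.injective e), by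
      show Y.Adj (τ p.2) (τ q.2) ↔ G.Adj p.1 q.1
      rw [hadj _ _ (hne p hp) (hne q hq)]
      exact h3⟩
  · rw [push_snd, mem_image]
    rintro ⟨x, hx, hxu⟩
    have : x = u := τ.injective (by rw [hxu, hu])
    rw [this] at hx
    exact hJu hx

theorem kelly (hH : Hypo G H π) {S : Finset V} (hS : S ≠ univ) :
    (pe G G S).card = (pe G H S).card := by
  have h1 := kelly_one G G S
  have h2 := kelly_one G H S
  have h3 : ∀ u : V, ((pe G G S).filter (fun J => u ∉ J.image Prod.snd)).card =
      ((pe G H S).filter (fun J => u ∉ J.image Prod.snd)).card := by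
    intro u
    have hu := hH.fix u
    have hu' : (π u).symm u = u := by
      rw [Equiv.symm_apply_eq]
      exact hu.symm
    have hadj' : ∀ x y, x ≠ u → y ≠ u → (G.Adj ((π u).symm x) ((π u).symm y) ↔ H.Adj x y) := by
      intro x y hx hy
      have hne : ∀ z, z ≠ u → (π u).symm z ≠ u := by
        intro z hz e
        rw [Equiv.symm_apply_eq, hu] at e
        exact hz e
      rw [← hH.adj u _ _ (hne x hx) (hne y hy), Equiv.apply_symm_apply, Equiv.apply_symm_apply]
    apply card_bij' (fun J _ => push (π u) J) (fun J _ => push (π u).symm J)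
    · intro J hJ
      rw [mem_filter] at hJ ⊢
      exact push_mem hu (hH.adj u) hJ.1 hJ.2
    · intro J hJ
      rw [mem_filter] at hJ ⊢
      exact push_mem hu' hadj' hJ.1 hJ.2
    · intro J _
      exact push_push _ J
    · intro J _
      exact push_push' _ J
  rw [sum_congr rfl (fun u _ => h3 u), h2] at h1
  have h4 : 0 < Fintype.card V - S.card := by
    have : S.card < Fintype.card V := by
      rw [← card_univ]
      exact card_lt_card (ssubset_of_ne_of_subset hS (subset_univ _))
    omega
  exact (Nat.eq_of_mul_eq_mul_left h4 h1).symm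

/-- every vertex outside `D` is determined by its neighbours in `D` -/
def Loc (G : SimpleGraph V) (D : Finset V) : Prop :=
  ∀ x y : V, x ∉ D → y ∉ D → (∀ d ∈ D, G.Adj x d ↔ G.Adj y d) → x = y

/-- the pairs by which an embedding `F` of `G[D]` can be extended -/
noncomputable def extP (G X : SimpleGraph V) (D : Finset V) (F : Finset (V × V)) :
    Finset (V × V) :=
  univ.filter (fun p => p.1 ∉ D ∧ ∀ q ∈ F, PC G X p q)

theorem mem_extP {G X : SimpleGraph V} {D : Finset V} {F : Finset (V × V)} {p : V × V} :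
    p ∈ extP G X D F ↔ p.1 ∉ D ∧ ∀ q ∈ F, PC G X p q := by
  unfold extP
  rw [mem_filter]
  exact and_iff_right (mem_univ _)

theorem card_extP {G X : SimpleGraph V} {D : Finset V} (hD : Loc G D) {F : Finset (V × V)}
    (hF : F ∈ pe G X D) : (extP G X D F).card ≤ Fintype.card V - D.card := by
  rw [mem_pe] at hF
  have hinj : Set.InjOn Prod.snd (extP G X D F : Set (V × V)) := by
    intro p hp q hq e
    rw [mem_coe, mem_extP] at hp hq
    apply Prod.ext _ e
    apply hD _ _ hp.1 hq.1
    intro d hd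
    rw [← hF.2, mem_image] at hd
    obtain ⟨r, hr, rfl⟩ := hd
    rw [← (hp.2 r hr).2.2, ← (hq.2 r hr).2.2, e]
  have hsub : (extP G X D F).image Prod.snd ⊆ (F.image Prod.snd)ᶜ := by
    intro x hx
    rw [mem_image] at hx
    obtain ⟨p, hp, rfl⟩ := hx
    rw [mem_extP] at hp
    rw [mem_compl, mem_image]
    rintro ⟨q, hq, e⟩
    exact (hp.2 q hq).2.1 e.symm
  have := card_le_card hsub
  rw [card_image_of_injOn hinj, card_compl, card_snd hF.1, ← card_fst hF.1, hF.2] at this
  exact this

/-- the generating function of the embeddings of the graphs `G[S]`, `D ⊆ S` -/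
noncomputable def gen (G X : SimpleGraph V) (D : Finset V) (y : ℝ) : ℝ :=
  ∑ S ∈ univ.filter (fun S : Finset V => D ⊆ S),
    (-y) ^ (S.card - D.card) * ((pe G X S).card : ℝ)

theorem gen_eq (G X : SimpleGraph V) (D : Finset V) (y : ℝ) :
    gen G X D y = ∑ F ∈ pe G X D, ip (PC G X) y (extP G X D F) := by
  -- both sides are sums over all embeddings of the graphs `G[S]`
  have h1 : gen G X D y =
      ∑ J ∈ univ.filter (fun J : Finset (V × V) => Comp (PC G X) J ∧ D ⊆ J.image Prod.fst),
        (-y) ^ (J.card - D.card) := by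
    unfold gen
    have h2 : ∀ S : Finset V, (-y) ^ (S.card - D.card) * ((pe G X S).card : ℝ) =
        ∑ J ∈ pe G X S, (-y) ^ (J.card - D.card) := by
      intro S
      have : ∀ J ∈ pe G X S, (-y) ^ (J.card - D.card) = (-y) ^ (S.card - D.card) := by
        intro J hJ
        rw [mem_pe] at hJ
        rw [← card_fst hJ.1, hJ.2]
      rw [sum_congr rfl this, sum_const, nsmul_eq_mul]
      ring
    rw [sum_congr rfl (fun S _ => h2 S)]
    rw [← sum_fiberwise_of_maps_to (s := univ.filter (fun J : Finset (V × V) =>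
      Comp (PC G X) J ∧ D ⊆ J.image Prod.fst)) (t := univ.filter (fun S : Finset V => D ⊆ S))
      (g := fun J => J.image Prod.fst)]
    · apply sum_congr rfl
      intro S hS
      rw [mem_filter] at hS
      apply sum_congr _ (fun _ _ => rfl)
      ext J
      rw [mem_filter, mem_filter, mem_pe]
      constructor
      · rintro ⟨h3, h4⟩
        exact ⟨⟨mem_univ _, h3, by rw [h4]; exact hS.2⟩, h4⟩
      · rintro ⟨⟨_, h3, _⟩, h4⟩
        exact ⟨h3, h4⟩
    · intro J hJ
      rw [mem_filter] at hJ ⊢
      exact ⟨mem_univ _, hJ.2.2⟩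
  rw [h1]
  rw [← sum_fiberwise_of_maps_to (s := univ.filter (fun J : Finset (V × V) =>
      Comp (PC G X) J ∧ D ⊆ J.image Prod.fst)) (t := pe G X D)
      (g := fun J => J.filter (fun p => p.1 ∈ D))]
  · apply sum_congr rfl
    intro F hF
    have hF' := hF
    rw [mem_pe] at hF'
    have hFD : ∀ p ∈ F, p.1 ∈ D := by
      intro p hp
      rw [← hF'.2]
      exact mem_image_of_mem _ hp
    have hFc : F.card = D.card := by rw [← card_fst hF'.1, hF'.2]
    unfold ip
    rw [← sum_filter]
    apply sum_bij' (fun J _ => J.filter (fun p => p.1 ∉ D)) (fun K _ => F ∪ K)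
    · intro J hJ
      rw [mem_filter, mem_filter] at hJ
      obtain ⟨⟨-, h2, h3⟩, h4⟩ := hJ
      rw [mem_filter, mem_powerset]
      constructor
      · intro p hp
        rw [mem_filter] at hp
        rw [mem_extP]
        refine ⟨hp.2, fun q hq => ?_⟩
        have hqJ : q ∈ J := by
          rw [← h4] at hq
          exact (mem_filter.mp hq).1
        apply h2 p hp.1 q hqJ
        intro e
        rw [e] at hp
        exact hp.2 (hFD q hq)
      · intro p hp q hq hne
        exact h2 p (mem_filter.mp hp).1 q (mem_filter.mp hq).1 hne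
    · intro K hK
      rw [mem_filter, mem_powerset] at hK
      obtain ⟨h2, h3⟩ := hK
      have hKD : ∀ p ∈ K, p.1 ∉ D := fun p hp => (mem_extP.mp (h2 hp)).1
      rw [mem_filter, mem_filter]
      refine ⟨⟨mem_univ _, ?_, ?_⟩, ?_⟩
      · intro p hp q hq hne
        rw [mem_union] at hp hq
        rcases hp with hp | hp
        · rcases hq with hq | hq
          · exact hF'.1 p hp q hq hne
          · exact pc_symm ((mem_extP.mp (h2 hq)).2 p hp)
        · rcases hq with hq | hq
          · exact (mem_extP.mp (h2 hp)).2 q hq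
          · exact h3 p hp q hq hne
      · rw [← hF'.2]
        exact image_subset_image subset_union_left
      · rw [filter_union, filter_true_of_mem hFD, filter_false_of_mem hKD, union_empty]
    · intro J hJ
      rw [mem_filter] at hJ
      rw [← hJ.2]
      exact filter_union_filter_not_eq _ _
    · intro K hK
      rw [mem_filter, mem_powerset] at hK
      have hKD : ∀ p ∈ K, p.1 ∉ D := fun p hp => (mem_extP.mp (hK.1 hp)).1
      rw [filter_union, filter_false_of_mem (fun p hp h => h (hFD p hp)),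
        filter_true_of_mem hKD, empty_union]
    · intro J hJ
      rw [mem_filter] at hJ
      congr 1
      have := card_filter_add_card_filter_not (s := J) (fun p => p.1 ∈ D)
      rw [hJ.2, hFc] at this
      omega
  · intro J hJ
    rw [mem_filter] at hJ
    rw [mem_pe]
    refine ⟨fun p hp q hq hne => hJ.2.1 p (mem_filter.mp hp).1 q (mem_filter.mp hq).1 hne, ?_⟩
    ext d
    rw [mem_image]
    constructor
    · rintro ⟨p, hp, rfl⟩
      exact (mem_filter.mp hp).2
    · intro hd
      have := hJ.2.2 hd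
      rw [mem_image] at this
      obtain ⟨p, hp, rfl⟩ := this
      exact ⟨p, mem_filter.mpr ⟨hp, hd⟩, rfl⟩

theorem gen_bound (G X : SimpleGraph V) {D : Finset V} (hD : Loc G D) :
    |gen G X D (2 + Real.sqrt 2)| ≤
      ((pe G X D).card : ℝ) * (1 + Real.sqrt 2) ^ (Fintype.card V - D.card) := by
  rw [gen_eq]
  calc |∑ F ∈ pe G X D, ip (PC G X) (2 + Real.sqrt 2) (extP G X D F)|
      ≤ ∑ F ∈ pe G X D, |ip (PC G X) (2 + Real.sqrt 2) (extP G X D F)| := abs_sum_le_sum_abs _ _
    _ ≤ ∑ F ∈ pe G X D, (1 + Real.sqrt 2) ^ (Fintype.card V - D.card) := by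
        apply sum_le_sum
        intro F hF
        refine (ip_bound _ _).trans ?_
        apply pow_le_pow_right₀
        · have := Real.sqrt_nonneg 2
          linarith
        · exact card_extP hD hF
    _ = _ := by rw [sum_const, nsmul_eq_mul]

theorem pe_univ_H (hN : NonIso G H) : (pe G H univ).card = 0 := by
  rw [card_eq_zero]
  by_contra hne
  obtain ⟨J, hJ⟩ := nonempty_iff_ne_empty.mpr hne
  rw [mem_pe] at hJ
  have h1 : ∀ x : V, ∃ w, (x, w) ∈ J := by
    intro x
    have : x ∈ J.image Prod.fst := by rw [hJ.2]; exact mem_univ x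
    rw [mem_image] at this
    obtain ⟨p, hp, rfl⟩ := this
    exact ⟨p.2, hp⟩
  choose f hf using h1
  have hinj : Function.Injective f := by
    intro x y e
    by_contra hne
    have := hJ.1 _ (hf x) _ (hf y) (fun h => hne (congrArg Prod.fst h))
    exact this.2.1 e
  apply hN
  refine ⟨Equiv.ofBijective f (Finite.injective_iff_bijective.mp hinj), fun x y => ?_⟩
  show H.Adj (f x) (f y) ↔ G.Adj x y
  by_cases hxy : x = y
  · subst hxy
    exact iff_of_false (H.loopless.irrefl _) (G.loopless.irrefl _)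
  · exact (hJ.1 _ (hf x) _ (hf y) (fun h => hxy (congrArg Prod.fst h))).2.2

/-- **The counting bound.** -/
theorem bound (hH : Hypo G H π) (hN : NonIso G H) {D : Finset V} (hD : Loc G D)
    (hDu : D ≠ univ) :
    (pe G G univ).card ^ 2 * 2 ^ (Fintype.card V - D.card) ≤ 4 * (pe G G D).card ^ 2 := by
  have hs : Real.sqrt 2 * Real.sqrt 2 = 2 := Real.mul_self_sqrt (by norm_num)
  have hs0 : 0 ≤ Real.sqrt 2 := Real.sqrt_nonneg 2
  have h1 := gen_bound G G hD
  have h2 := gen_bound G H hD
  rw [← kelly hH hDu] at h2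
  have h3 : gen G G D (2 + Real.sqrt 2) - gen G H D (2 + Real.sqrt 2) =
      (-(2 + Real.sqrt 2)) ^ (Fintype.card V - D.card) * ((pe G G univ).card : ℝ) := by
    unfold gen
    rw [← sum_sub_distrib, sum_eq_single univ]
    · rw [pe_univ_H hN, card_univ]
      simp
    · intro S _ hS
      rw [kelly hH hS, sub_self]
    · intro h
      exact absurd (mem_filter.mpr ⟨mem_univ _, subset_univ _⟩) h
  set N := Fintype.card V - D.card with hNdef
  set a : ℝ := ((pe G G univ).card : ℝ) with ha
  set e : ℝ := ((pe G G D).card : ℝ) with he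
  have ha0 : 0 ≤ a := Nat.cast_nonneg _
  have he0 : 0 ≤ e := Nat.cast_nonneg _
  have h4 : (2 + Real.sqrt 2) ^ N * a ≤ 2 * e * (1 + Real.sqrt 2) ^ N := by
    have h5 : |(-(2 + Real.sqrt 2)) ^ N * a| = (2 + Real.sqrt 2) ^ N * a := by
      rw [abs_mul, abs_pow, abs_neg, abs_of_nonneg (by linarith : (0 : ℝ) ≤ 2 + Real.sqrt 2),
        abs_of_nonneg ha0]
    rw [← h5, ← h3]
    calc |gen G G D (2 + Real.sqrt 2) - gen G H D (2 + Real.sqrt 2)| ≤
        |gen G G D (2 + Real.sqrt 2)| + |gen G H D (2 + Real.sqrt 2)| := abs_sub _ _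
      _ ≤ _ := by linarith
  have h5 : ((2 + Real.sqrt 2) ^ N * a) ^ 2 ≤ (2 * e * (1 + Real.sqrt 2) ^ N) ^ 2 := by
    apply pow_le_pow_left₀ _ h4
    positivity
  have h6 : (2 + Real.sqrt 2) ^ N * (2 + Real.sqrt 2) ^ N =
      2 ^ N * ((1 + Real.sqrt 2) ^ N * (1 + Real.sqrt 2) ^ N) := by
    rw [← mul_pow, ← mul_pow, ← mul_pow]
    congr 1
    nlinarith
  have h7 : (0 : ℝ) < (1 + Real.sqrt 2) ^ N * (1 + Real.sqrt 2) ^ N := by positivity
  have h8 : a ^ 2 * 2 ^ N * ((1 + Real.sqrt 2) ^ N * (1 + Real.sqrt 2) ^ N) ≤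
      4 * e ^ 2 * ((1 + Real.sqrt 2) ^ N * (1 + Real.sqrt 2) ^ N) := by
    calc a ^ 2 * 2 ^ N * ((1 + Real.sqrt 2) ^ N * (1 + Real.sqrt 2) ^ N) =
        a ^ 2 * (2 ^ N * ((1 + Real.sqrt 2) ^ N * (1 + Real.sqrt 2) ^ N)) := by ring
      _ = a ^ 2 * ((2 + Real.sqrt 2) ^ N * (2 + Real.sqrt 2) ^ N) := by rw [← h6]
      _ = ((2 + Real.sqrt 2) ^ N * a) ^ 2 := by ring
      _ ≤ (2 * e * (1 + Real.sqrt 2) ^ N) ^ 2 := h5
      _ = _ := by ring
  have h9 := le_of_mul_le_mul_right h8 h7
  rw [ha, he] at h9
  exact_mod_cast h9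

end Pool.Agent.H71.LOC
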