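import Pool.Agent.H71.LOC.Color

set_option autoImplicit false
set_option linter.unusedSectionVars false

/-!
# Connected sets which contain a set that is dense in the metric sense
-/

namespace Pool.Agent.H71.LOC

open Finset Classical

variable {V : Type} [Fintype V]

theorem conn_of_cut {G : SimpleGraph V} (hne : Nonempty V) (hc : CutConn G) : G.Connected := by
  rw [SimpleGraph.connected_iff]
  refine ⟨fun u v => ?_, hne⟩
  by_contra hcon
  obtain ⟨x, hx, y, hy, hxy⟩ := hc (univ.filter (fun x => G.Reachable u x))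
    ⟨u, mem_filter.mpr ⟨mem_univ _, SimpleGraph.Reachable.refl u⟩⟩
    ⟨v, fun h => hcon (mem_filter.mp h).2⟩
  exact hy (mem_filter.mpr ⟨mem_univ _, (mem_filter.mp hx).2.trans hxy.reachable⟩)

theorem grow_walk {G : SimpleGraph V} {a b : V} (p : G.Walk a b) : ∀ D : Finset V, Grow G D →
    a ∈ D → ∃ D' : Finset V, D ⊆ D' ∧ Grow G D' ∧ b ∈ D' ∧ D'.card ≤ D.card + p.length := by
  induction p with
  | nil => exact fun D hD ha => ⟨D, Subset.refl _, hD, ha, by simp⟩
  | @cons u v w h p ih =>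
    intro D hD ha
    by_cases hv : v ∈ D
    · obtain ⟨D', h1, h2, h3, h4⟩ := ih D hD hv
      refine ⟨D', h1, h2, h3, ?_⟩
      rw [SimpleGraph.Walk.length_cons]
      omega
    · obtain ⟨D', h1, h2, h3, h4⟩ := ih (insert v D) (Grow.step D v u hD ha hv h)
        (mem_insert_self _ _)
      refine ⟨D', (subset_insert _ _).trans h1, h2, h3, ?_⟩
      rw [card_insert_of_notMem hv] at h4
      rw [SimpleGraph.Walk.length_cons]
      omega

theorem close_pair {G : SimpleGraph V} (hconn : G.Connected) {r : ℕ} {S D : Finset V}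
    (hdom : ∀ v, ∃ s ∈ S, G.dist v s ≤ r) (hD : D.Nonempty) (hSD : ¬ S ⊆ D) :
    ∃ t ∈ D, ∃ s ∈ S, s ∉ D ∧ G.dist t s ≤ 2 * r + 1 := by
  obtain ⟨s0, hs0, hs0D⟩ : ∃ s ∈ S, s ∉ D := by
    by_contra hcon
    push Not at hcon
    exact hSD hcon
  obtain ⟨t0, ht0⟩ := hD
  -- a closest pair
  have hex : ∃ l : ℕ, ∃ t ∈ D, ∃ s ∈ S, s ∉ D ∧ G.dist t s = l :=
    ⟨_, t0, ht0, s0, hs0, hs0D, rfl⟩
  obtain ⟨t, ht, s, hs, hsD, hl⟩ := Nat.find_spec hex
  have hmin : ∀ t' ∈ D, ∀ s' ∈ S, s' ∉ D → Nat.find hex ≤ G.dist t' s' :=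
    fun t' ht' s' hs' hs'D => Nat.find_min' hex ⟨t', ht', s', hs', hs'D, rfl⟩
  refine ⟨t, ht, s, hs, hsD, ?_⟩
  by_contra hlt
  push Not at hlt
  obtain ⟨p, hp⟩ := hconn.exists_walk_length_eq_dist t s
  have h1 : G.dist t (p.getVert (r + 1)) ≤ r + 1 := by
    refine (SimpleGraph.dist_le (p.take (r + 1))).trans ?_
    rw [SimpleGraph.Walk.take_length]
    exact min_le_left _ _
  have h2 : G.dist (p.getVert (r + 1)) s ≤ p.length - (r + 1) := by
    refine (SimpleGraph.dist_le (p.drop (r + 1))).trans ?_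
    rw [SimpleGraph.Walk.drop_length]
  obtain ⟨s', hs', hd⟩ := hdom (p.getVert (r + 1))
  by_cases hs'D : s' ∈ D
  · have h3 := hmin s' hs'D s hs hsD
    have h4 : G.dist s' s ≤ G.dist s' (p.getVert (r + 1)) + G.dist (p.getVert (r + 1)) s :=
      hconn.dist_triangle
    rw [SimpleGraph.dist_comm (u := s') (v := p.getVert (r + 1))] at h4
    omega
  · have h3 := hmin t ht s' hs' hs'D
    have h4 : G.dist t s' ≤ G.dist t (p.getVert (r + 1)) + G.dist (p.getVert (r + 1)) s' :=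
      hconn.dist_triangle
    omega

theorem ext2_aux {G : SimpleGraph V} (hconn : G.Connected) {r : ℕ} {S : Finset V}
    (hdom : ∀ v, ∃ s ∈ S, G.dist v s ≤ r) (m : ℕ) : ∀ D : Finset V, Grow G D →
    (S \ D).card = m → ∃ D' : Finset V, S ⊆ D' ∧ Grow G D' ∧
      D'.card ≤ D.card + (2 * r + 1) * m := by
  induction' m using Nat.strong_induction_on with m ih
  intro D hD hm
  by_cases hSD : S ⊆ D
  · exact ⟨D, hSD, hD, by omega⟩
  obtain ⟨t, ht, s, hs, hsD, hdist⟩ := close_pair hconn hdom (grow_nonempty hD) hSD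
  obtain ⟨p, hp⟩ := hconn.exists_walk_length_eq_dist t s
  obtain ⟨D1, h1, h2, h3, h4⟩ := grow_walk p D hD ht
  have hlt : (S \ D1).card < m := by
    rw [← hm]
    apply card_lt_card
    rw [ssubset_iff_of_subset (sdiff_subset_sdiff (Subset.refl S) h1)]
    exact ⟨s, mem_sdiff.mpr ⟨hs, hsD⟩, fun h => (mem_sdiff.mp h).2 h3⟩
  obtain ⟨D', h5, h6, h7⟩ := ih _ hlt D1 h2 rfl
  refine ⟨D', h5, h6, ?_⟩
  have h8 : D1.card ≤ D.card + (2 * r + 1) := by omega
  calc D'.card ≤ D1.card + (2 * r + 1) * (S \ D1).card := h7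
    _ ≤ D.card + (2 * r + 1) + (2 * r + 1) * (S \ D1).card := by omega
    _ = D.card + (2 * r + 1) * ((S \ D1).card + 1) := by ring
    _ ≤ D.card + (2 * r + 1) * m := by
        apply Nat.add_le_add_left
        exact Nat.mul_le_mul_left _ hlt

theorem extend2 {G : SimpleGraph V} (hconn : G.Connected) {r : ℕ} {S : Finset V}
    (hS : S.Nonempty) (hdom : ∀ v, ∃ s ∈ S, G.dist v s ≤ r) :
    ∃ D : Finset V, S ⊆ D ∧ Grow G D ∧ D.card ≤ (2 * r + 1) * S.card := by
  obtain ⟨s, hs⟩ := hS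
  obtain ⟨D, h1, h2, h3⟩ := ext2_aux hconn hdom _ {s} (Grow.single s) rfl
  refine ⟨D, h1, h2, ?_⟩
  have h4 : (S \ {s}).card = S.card - 1 := by
    rw [sdiff_singleton_eq_erase, card_erase_of_mem hs]
  obtain ⟨k, hk⟩ : ∃ k, S.card = k + 1 := ⟨S.card - 1, by
    have := card_pos.mpr ⟨s, hs⟩
    omega⟩
  rw [h4, card_singleton, hk, Nat.add_sub_cancel] at h3
  rw [hk]
  calc D.card ≤ 1 + (2 * r + 1) * k := h3
    _ ≤ (2 * r + 1) + (2 * r + 1) * k := by omega
    _ = (2 * r + 1) * (k + 1) := by ring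

end Pool.Agent.H71.LOC
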