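import Pool.Agent.H71.LOC.Two

set_option autoImplicit false
set_option linter.unusedSectionVars false

/-!
# Connected sets of vertices: few embeddings, and extension of dominating sets
-/

namespace Pool.Agent.H71.LOC

open Finset Classical

variable {V : Type} [Fintype V]

/-- the sets which arise from a single vertex by adding adjacent vertices -/
inductive Grow (G : SimpleGraph V) : Finset V → Prop
  | single (v : V) : Grow G {v}
  | step (D : Finset V) (w u : V) : Grow G D → u ∈ D → w ∉ D → G.Adj u w → Grow G (insert w D)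

/-- a vertex has at most `Δ` neighbours -/
def DegLE (G : SimpleGraph V) (Δ : ℕ) : Prop := ∀ v : V, (univ.filter (fun w => G.Adj v w)).card ≤ Δ

theorem grow_nonempty {G : SimpleGraph V} {D : Finset V} (h : Grow G D) : D.Nonempty := by
  cases h with
  | single v => exact singleton_nonempty v
  | step D w u _ _ _ _ => exact insert_nonempty w D

theorem pe_grow {G : SimpleGraph V} {Δ : ℕ} (hΔ : DegLE G Δ) {D : Finset V} (h : Grow G D) :
    (pe G G D).card ≤ Fintype.card V * Δ ^ (D.card - 1) := by
  induction h with
  | single v =>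
    rw [card_singleton, Nat.sub_self, pow_zero, mul_one, ← card_univ]
    have hsub : pe G G {v} ⊆ (univ : Finset V).image (fun w => ({(v, w)} : Finset (V × V))) := by
      intro J hJ
      rw [mem_pe] at hJ
      have h1 := card_fst hJ.1
      rw [hJ.2, card_singleton] at h1
      obtain ⟨p, hp⟩ := card_eq_one.mp h1.symm
      have h2 := hJ.2
      rw [hp, image_singleton, singleton_inj] at h2
      rw [mem_image]
      refine ⟨p.2, mem_univ _, ?_⟩
      rw [hp, ← h2]
    exact (card_le_card hsub).trans card_image_le
  | step D w u hD hu hw huw ih =>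
    have h1 : (pe G G (insert w D)).card ≤ Δ * (pe G G D).card := by
      apply card_le_mul_card_image_of_maps_to
        (f := fun J : Finset (V × V) => J.filter (fun p => p.1 ≠ w))
      · intro J hJ
        rw [mem_pe] at hJ ⊢
        refine ⟨fun p hp q hq hne => hJ.1 p (mem_filter.mp hp).1 q (mem_filter.mp hq).1 hne, ?_⟩
        ext x
        rw [mem_image]
        constructor
        · rintro ⟨p, hp, rfl⟩
          rw [mem_filter] at hp
          have h2 : p.1 ∈ insert w D := by
            rw [← hJ.2]
            exact mem_image_of_mem _ hp.1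
          exact (mem_insert.mp h2).resolve_left hp.2
        · intro hx
          have h2 : x ∈ J.image Prod.fst := by
            rw [hJ.2]
            exact mem_insert_of_mem hx
          rw [mem_image] at h2
          obtain ⟨p, hp, rfl⟩ := h2
          refine ⟨p, mem_filter.mpr ⟨hp, ?_⟩, rfl⟩
          intro e
          rw [e] at hx
          exact hw hx
      · intro F hF
        rw [mem_pe] at hF
        have hu' : u ∈ F.image Prod.fst := by rw [hF.2]; exact hu
        rw [mem_image] at hu'
        obtain ⟨p, hp, hpu⟩ := hu'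
        have hsub : (pe G G (insert w D)).filter
            (fun J => J.filter (fun p => p.1 ≠ w) = F) ⊆
            (univ.filter (fun x => G.Adj p.2 x)).image (fun x => insert (w, x) F) := by
          intro J hJ
          rw [mem_filter, mem_pe] at hJ
          obtain ⟨⟨h2, h3⟩, h4⟩ := hJ
          have hwJ : w ∈ J.image Prod.fst := by
            rw [h3]
            exact mem_insert_self _ _
          rw [mem_image] at hwJ
          obtain ⟨r, hr, hrw⟩ := hwJ
          have hpJ : p ∈ J := by
            rw [← h4] at hp
            exact (mem_filter.mp hp).1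
          have hne : p ≠ r := by
            intro e
            rw [e, hrw] at hpu
            rw [← hpu] at hu
            exact hw hu
          have h5 := (h2 p hpJ r hr hne).2.2
          rw [hpu, hrw] at h5
          rw [mem_image]
          refine ⟨r.2, mem_filter.mpr ⟨mem_univ _, h5.mpr huw⟩, ?_⟩
          ext s
          rw [mem_insert]
          constructor
          · rintro (rfl | hs)
            · rw [← hrw]
              exact hr
            · rw [← h4] at hs
              exact (mem_filter.mp hs).1
          · intro hs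
            by_cases hsw : s.1 = w
            · left
              have : s = r := fst_inj h2 hs hr (by rw [hsw, hrw])
              rw [this, ← hrw]
            · right
              rw [← h4]
              exact mem_filter.mpr ⟨hs, hsw⟩
        exact (card_le_card hsub).trans (card_image_le.trans (hΔ p.2))
    have h2 : (insert w D).card - 1 = (D.card - 1) + 1 := by
      rw [card_insert_of_notMem hw]
      have := card_pos.mpr (grow_nonempty hD)
      omega
    rw [h2, pow_succ]
    calc (pe G G (insert w D)).card ≤ Δ * (pe G G D).card := h1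
      _ ≤ Δ * (Fintype.card V * Δ ^ (D.card - 1)) := Nat.mul_le_mul_left _ ih
      _ = _ := by ring

/-- every cut has an edge -/
def CutConn (G : SimpleGraph V) : Prop :=
  ∀ A : Finset V, A.Nonempty → (∃ b, b ∉ A) → ∃ x ∈ A, ∃ y, y ∉ A ∧ G.Adj x y

theorem ext_aux {G : SimpleGraph V} (hc : CutConn G) {S : Finset V}
    (hdom : ∀ v, v ∈ S ∨ ∃ s ∈ S, G.Adj v s) (m : ℕ) : ∀ D : Finset V, Grow G D →
    (S \ D).card = m → ∃ D' : Finset V, S ⊆ D' ∧ Grow G D' ∧ D'.card ≤ D.card + 3 * m := by
  induction' m using Nat.strong_induction_on with m ih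
  intro D hD hm
  by_cases hSD : S ⊆ D
  · exact ⟨D, hSD, hD, by omega⟩
  -- after adding at most three vertices the set contains a new element of `S`
  have key : ∃ D1 : Finset V, D ⊆ D1 ∧ Grow G D1 ∧ D1.card ≤ D.card + 3 ∧
      ∃ s ∈ S, s ∉ D ∧ s ∈ D1 := by
    by_cases hA : ∃ s ∈ S, s ∉ D ∧ ∃ u ∈ D, G.Adj u s
    · obtain ⟨s, hs, hsD, u, hu, hus⟩ := hA
      refine ⟨insert s D, subset_insert _ _, Grow.step D s u hD hu hsD hus, ?_, s, hs, hsD,
        mem_insert_self _ _⟩
      rw [card_insert_of_notMem hsD]
      omega
    · push Not at hA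
      set U : Finset V := univ.filter (fun x => x ∈ D ∨ ∃ u ∈ D, G.Adj u x) with hU
      have hmU : ∀ x, x ∈ U ↔ (x ∈ D ∨ ∃ u ∈ D, G.Adj u x) := by
        intro x
        rw [hU, mem_filter]
        exact and_iff_right (mem_univ _)
      obtain ⟨d0, hd0⟩ := grow_nonempty hD
      obtain ⟨s0, hs0, hs0D⟩ : ∃ s ∈ S, s ∉ D := by
        by_contra hcon
        push Not at hcon
        exact hSD hcon
      have hs0U : s0 ∉ U := by
        rw [hmU]
        rintro (h | ⟨u, hu, h⟩)
        · exact hs0D h
        · exact hA s0 hs0 hs0D u hu h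
      obtain ⟨x, hx, y, hy, hxy⟩ := hc U ⟨d0, (hmU d0).mpr (Or.inl hd0)⟩ ⟨s0, hs0U⟩
      have hyD : y ∉ D := fun h => hy ((hmU y).mpr (Or.inl h))
      have hyN : ∀ u ∈ D, ¬ G.Adj u y := fun u hu h => hy ((hmU y).mpr (Or.inr ⟨u, hu, h⟩))
      have hxD : x ∉ D := fun h => hyN x h hxy
      obtain ⟨u, hu, hux⟩ := ((hmU x).mp hx).resolve_left hxD
      have hxS : x ∉ S := fun h => hA x h hxD u hu hux
      have hD1 : Grow G (insert x D) := Grow.step D x u hD hu hxD hux
      have hy1 : y ∉ insert x D := by
        rw [mem_insert, not_or]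
        exact ⟨fun e => hy (e ▸ hx), hyD⟩
      have hD2 : Grow G (insert y (insert x D)) :=
        Grow.step _ y x hD1 (mem_insert_self _ _) hy1 hxy
      rcases hdom y with hyS | ⟨s, hs, hys⟩
      · refine ⟨insert y (insert x D), (subset_insert _ _).trans (subset_insert _ _), hD2, ?_,
          y, hyS, hyD, mem_insert_self _ _⟩
        rw [card_insert_of_notMem hy1, card_insert_of_notMem hxD]
        omega
      · have hsD : s ∉ D := fun h => hyN s h hys.symm
        have hs2 : s ∉ insert y (insert x D) := by
          rw [mem_insert, mem_insert, not_or, not_or]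
          exact ⟨fun e => G.ne_of_adj hys e.symm, fun e => hxS (e ▸ hs), hsD⟩
        refine ⟨insert s (insert y (insert x D)),
          ((subset_insert _ _).trans (subset_insert _ _)).trans (subset_insert _ _),
          Grow.step _ s y hD2 (mem_insert_self _ _) hs2 hys, ?_, s, hs, hsD,
          mem_insert_self _ _⟩
        rw [card_insert_of_notMem hs2, card_insert_of_notMem hy1, card_insert_of_notMem hxD]
  obtain ⟨D1, h1, h2, h3, s, hs, hsD, hsD1⟩ := key
  have hlt : (S \ D1).card < m := by
    rw [← hm]
    apply card_lt_card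
    rw [ssubset_iff_of_subset (sdiff_subset_sdiff (Subset.refl S) h1)]
    exact ⟨s, mem_sdiff.mpr ⟨hs, hsD⟩, fun h => (mem_sdiff.mp h).2 hsD1⟩
  obtain ⟨D', h4, h5, h6⟩ := ih _ hlt D1 h2 rfl
  exact ⟨D', h4, h5, by omega⟩

/-- a dominating set is contained in a connected set of at most three times the order -/
theorem extend {G : SimpleGraph V} (hc : CutConn G) {S : Finset V} (hS : S.Nonempty)
    (hdom : ∀ v, v ∈ S ∨ ∃ s ∈ S, G.Adj v s) :
    ∃ D : Finset V, S ⊆ D ∧ Grow G D ∧ D.card + 2 ≤ 3 * S.card := by
  obtain ⟨s, hs⟩ := hS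
  obtain ⟨D, h1, h2, h3⟩ := ext_aux hc hdom _ {s} (Grow.single s) rfl
  refine ⟨D, h1, h2, ?_⟩
  have h4 : (S \ {s}).card = S.card - 1 := by
    rw [sdiff_singleton_eq_erase, card_erase_of_mem hs]
  have h5 : 0 < S.card := card_pos.mpr ⟨s, hs⟩
  rw [h4, card_singleton] at h3
  omega

/-! ### Averaging -/

theorem average {β : Type} (A : β → Finset V) (m : ℕ) : ∀ P : Finset β, ∃ Z : Finset V,
    Z.card ≤ m ∧ ((P.filter (fun p => ∀ z ∈ Z, z ∉ A p)).card : ℝ) ≤
      ∑ p ∈ P, (1 - ((A p).card : ℝ) / Fintype.card V) ^ m := by
  induction' m with m ih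
  · intro P
    refine ⟨∅, by simp, ?_⟩
    simp
  · intro P
    rcases Nat.eq_zero_or_pos (Fintype.card V) with h0 | h0
    · obtain ⟨Z, h1, h2⟩ := ih P
      refine ⟨Z, by omega, ?_⟩
      rw [h0] at h2 ⊢
      simpa using h2
    have hn : (0 : ℝ) < Fintype.card V := by exact_mod_cast h0
    have h1 : ∃ z ∈ (univ : Finset V), ∑ p ∈ P.filter (fun p => z ∉ A p),
        (1 - ((A p).card : ℝ) / Fintype.card V) ^ m ≤
        ∑ p ∈ P, (1 - ((A p).card : ℝ) / Fintype.card V) ^ (m + 1) := by
      apply exists_le_of_sum_le
      · have : Nonempty V := Fintype.card_pos_iff.mp h0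
        exact univ_nonempty
      · rw [sum_const, card_univ, nsmul_eq_mul, mul_sum]
        have e1 : ∀ z : V, ∑ p ∈ P.filter (fun p => z ∉ A p),
            (1 - ((A p).card : ℝ) / Fintype.card V) ^ m =
            ∑ p ∈ P, if z ∉ A p then (1 - ((A p).card : ℝ) / Fintype.card V) ^ m else 0 := by
          intro z
          rw [sum_filter]
        rw [sum_congr rfl (fun z _ => e1 z), sum_comm]
        apply le_of_eq
        apply sum_congr rfl
        intro p _
        rw [← sum_filter, sum_const, nsmul_eq_mul]
        have e2 : ((univ.filter (fun z => z ∉ A p)).card : ℝ) =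
            Fintype.card V - (A p).card := by
          have e3 : univ.filter (fun z => z ∉ A p) = (A p)ᶜ := by
            ext z
            rw [mem_filter, mem_compl]
            exact and_iff_right (mem_univ _)
          rw [e3, card_compl, Nat.cast_sub (card_le_univ _)]
        rw [e2, pow_succ]
        field_simp
    obtain ⟨z, _, hz⟩ := h1
    obtain ⟨Z, h2, h3⟩ := ih (P.filter (fun p => z ∉ A p))
    refine ⟨insert z Z, (card_insert_le _ _).trans (by omega), ?_⟩
    have e4 : P.filter (fun p => ∀ y ∈ insert z Z, y ∉ A p) =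
        (P.filter (fun p => z ∉ A p)).filter (fun p => ∀ y ∈ Z, y ∉ A p) := by
      ext p
      rw [mem_filter, mem_filter, mem_filter]
      constructor
      · rintro ⟨h4, h5⟩
        exact ⟨⟨h4, h5 z (mem_insert_self _ _)⟩, fun y hy => h5 y (mem_insert_of_mem hy)⟩
      · rintro ⟨⟨h4, h5⟩, h6⟩
        refine ⟨h4, fun y hy => ?_⟩
        rw [mem_insert] at hy
        rcases hy with rfl | hy
        · exact h5
        · exact h6 y hy
    rw [e4]
    exact h3.trans hz

end Pool.Agent.H71.LOC
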