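import Mathlib

set_option autoImplicit false
set_option linter.unusedSectionVars false

/-!
# Automorphism groups of graphs in which any two vertices of an orbit are well distinguished
-/

namespace Pool.Agent.H71.LOC

open Finset Classical

variable {U : Type} [Fintype U]

/-- the orbit -/
noncomputable def orb (Γ : Subgroup (Equiv.Perm U)) (v : U) : Finset U :=
  univ.filter (fun w => ∃ g ∈ Γ, g v = w)

theorem mem_orb {Γ : Subgroup (Equiv.Perm U)} {v w : U} : w ∈ orb Γ v ↔ ∃ g ∈ Γ, g v = w := by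
  unfold orb
  rw [mem_filter]
  exact and_iff_right (mem_univ _)

theorem self_orb (Γ : Subgroup (Equiv.Perm U)) (v : U) : v ∈ orb Γ v :=
  mem_orb.mpr ⟨1, Γ.one_mem, rfl⟩

theorem orb_eq {Γ : Subgroup (Equiv.Perm U)} {v w : U} (h : w ∈ orb Γ v) : orb Γ w = orb Γ v := by
  obtain ⟨g, hg, rfl⟩ := mem_orb.mp h
  ext u
  rw [mem_orb, mem_orb]
  constructor
  · rintro ⟨k, hk, rfl⟩
    exact ⟨k * g, Γ.mul_mem hk hg, rfl⟩
  · rintro ⟨k, hk, rfl⟩
    refine ⟨k * g⁻¹, Γ.mul_mem hk (Γ.inv_mem hg), ?_⟩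
    simp

theorem orb_mono {Γ Γ' : Subgroup (Equiv.Perm U)} (h : Γ' ≤ Γ) (v : U) : orb Γ' v ⊆ orb Γ v := by
  intro w hw
  obtain ⟨g, hg, e⟩ := mem_orb.mp hw
  exact mem_orb.mpr ⟨g, h hg, e⟩

theorem card_orb_pos (Γ : Subgroup (Equiv.Perm U)) (v : U) : 0 < (orb Γ v).card :=
  card_pos.mpr ⟨v, self_orb Γ v⟩

/-- the stabiliser of a point -/
def st (Γ : Subgroup (Equiv.Perm U)) (x : U) : Subgroup (Equiv.Perm U) :=
  Γ ⊓ MulAction.stabilizer (Equiv.Perm U) x

theorem mem_st {Γ : Subgroup (Equiv.Perm U)} {x : U} {g : Equiv.Perm U} :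
    g ∈ st Γ x ↔ g ∈ Γ ∧ g x = x := by
  unfold st
  rw [Subgroup.mem_inf, MulAction.mem_stabilizer_iff]
  rfl

theorem st_le (Γ : Subgroup (Equiv.Perm U)) (x : U) : st Γ x ≤ Γ := inf_le_left

/-- the order of the group -/
noncomputable def gc (Γ : Subgroup (Equiv.Perm U)) : ℕ :=
  (univ.filter (fun g : Equiv.Perm U => g ∈ Γ)).card

theorem le_gc {α : Type} {Γ : Subgroup (Equiv.Perm U)} (A : Finset α) (g : α → Equiv.Perm U)
    (h1 : ∀ a ∈ A, g a ∈ Γ) (h2 : Set.InjOn g (A : Set α)) : A.card ≤ gc Γ := by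
  unfold gc
  apply card_le_card_of_injOn g _ h2
  intro a ha
  exact mem_coe.mpr (mem_filter.mpr ⟨mem_univ _, h1 a (mem_coe.mp ha)⟩)

theorem gc_pos (Γ : Subgroup (Equiv.Perm U)) : 0 < gc Γ :=
  card_pos.mpr ⟨1, mem_filter.mpr ⟨mem_univ _, Γ.one_mem⟩⟩

theorem gc_le (Γ : Subgroup (Equiv.Perm U)) (x : U) : gc Γ ≤ gc (st Γ x) * (orb Γ x).card := by
  unfold gc
  apply card_le_mul_card_image_of_maps_to (f := fun g : Equiv.Perm U => g x)
  · intro g hg
    exact mem_orb.mpr ⟨g, (mem_filter.mp hg).2, rfl⟩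
  · intro y hy
    obtain ⟨g0, hg0, rfl⟩ := mem_orb.mp hy
    apply card_le_card_of_injOn (fun g => g0⁻¹ * g)
    · intro g hg
      rw [mem_coe, mem_filter, mem_filter] at hg
      rw [mem_coe, mem_filter, mem_st]
      refine ⟨mem_univ _, Γ.mul_mem (Γ.inv_mem hg0) hg.1.2, ?_⟩
      rw [Equiv.Perm.mul_apply, hg.2]
      exact g0.symm_apply_apply x
    · intro a _ b _ hab
      exact mul_left_cancel hab

theorem gc_st_lt {Γ : Subgroup (Equiv.Perm U)} {x : U} (h : 2 ≤ (orb Γ x).card) :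
    gc (st Γ x) < gc Γ := by
  unfold gc
  apply card_lt_card
  rw [ssubset_iff_of_subset]
  · obtain ⟨y, hy, z, hz, hyz⟩ := one_lt_card.mp (by omega : 1 < (orb Γ x).card)
    have : ∃ w ∈ orb Γ x, w ≠ x := by
      by_cases e : y = x
      · exact ⟨z, hz, fun h' => hyz (by rw [e, h'])⟩
      · exact ⟨y, hy, e⟩
    obtain ⟨w, hw, hwx⟩ := this
    obtain ⟨g, hg, rfl⟩ := mem_orb.mp hw
    refine ⟨g, mem_filter.mpr ⟨mem_univ _, hg⟩, fun h' => hwx ?_⟩
    exact (mem_st.mp (mem_filter.mp h').2).2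
  · intro g hg
    rw [mem_filter] at hg ⊢
    exact ⟨mem_univ _, st_le Γ x hg.2⟩

/-- the potential -/
noncomputable def pot (Γ : Subgroup (Equiv.Perm U)) : ℝ :=
  ∑ v : U, Real.logb 2 ((orb Γ v).card : ℝ)

theorem logb_orb_nonneg (Γ : Subgroup (Equiv.Perm U)) (v : U) :
    0 ≤ Real.logb 2 ((orb Γ v).card : ℝ) := by
  apply Real.logb_nonneg (by norm_num)
  exact_mod_cast card_orb_pos Γ v

theorem pot_nonneg (Γ : Subgroup (Equiv.Perm U)) : 0 ≤ pot Γ :=
  sum_nonneg (fun v _ => logb_orb_nonneg Γ v)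

theorem drop {Γ Γ' : Subgroup (Equiv.Perm U)} (hle : Γ' ≤ Γ) (P : U → Prop)
    (hP : ∀ g ∈ Γ', ∀ w, P (g w) ↔ P w) (M : Finset U) (r : ℝ) (hr : 1 ≤ r)
    (hM : ∀ w ∈ M, r * (((orb Γ w).filter (fun u => P u ↔ P w)).card : ℝ) ≤ (orb Γ w).card) :
    pot Γ' + M.card * Real.logb 2 r ≤ pot Γ := by
  have e1 : (M.card : ℝ) * Real.logb 2 r = ∑ v : U, if v ∈ M then Real.logb 2 r else 0 := by
    rw [sum_ite_mem, univ_inter, sum_const, nsmul_eq_mul]
  unfold pot
  rw [e1, ← sum_add_distrib]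
  apply sum_le_sum
  intro v _
  have h0 : (0 : ℝ) < (orb Γ' v).card := by exact_mod_cast card_orb_pos Γ' v
  split_ifs with hv
  · rw [← Real.logb_mul h0.ne' (by linarith)]
    apply Real.logb_le_logb_of_le (by norm_num) (by positivity)
    refine le_trans ?_ (hM v hv)
    rw [mul_comm]
    apply mul_le_mul_of_nonneg_left _ (by linarith)
    have hsub : orb Γ' v ⊆ (orb Γ v).filter (fun u => P u ↔ P v) := by
      intro w hw
      refine mem_filter.mpr ⟨orb_mono hle v hw, ?_⟩
      obtain ⟨g, hg, rfl⟩ := mem_orb.mp hw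
      exact hP g hg v
    exact_mod_cast card_le_card hsub
  · rw [add_zero]
    apply Real.logb_le_logb_of_le (by norm_num) h0
    exact_mod_cast card_le_card (orb_mono hle v)

/-- the vertices in the smaller one of the two parts into which `P` divides their orbit -/
noncomputable def minor (Γ : Subgroup (Equiv.Perm U)) (P : U → Prop) : Finset U :=
  univ.filter (fun w => (P w ↔ 2 * ((orb Γ w).filter P).card ≤ (orb Γ w).card))

theorem mem_minor {Γ : Subgroup (Equiv.Perm U)} {P : U → Prop} {w : U} :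
    w ∈ minor Γ P ↔ (P w ↔ 2 * ((orb Γ w).filter P).card ≤ (orb Γ w).card) := by
  unfold minor
  rw [mem_filter]
  exact and_iff_right (mem_univ _)

theorem part_pos {P : U → Prop} {w : U} (hw : P w) (S : Finset U) :
    S.filter (fun u => P u ↔ P w) = S.filter P := by
  apply filter_congr
  intro u _
  exact ⟨fun h => h.mpr hw, fun h => iff_of_true h hw⟩

theorem part_neg {P : U → Prop} {w : U} (hw : ¬ P w) (S : Finset U) :
    S.filter (fun u => P u ↔ P w) = S.filter (fun u => ¬ P u) := by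
  apply filter_congr
  intro u _
  exact ⟨fun h h' => hw (h.mp h'), fun h => iff_of_false h hw⟩

theorem minor_part {Γ : Subgroup (Equiv.Perm U)} {P : U → Prop} {w : U} (hw : w ∈ minor Γ P) :
    2 * ((orb Γ w).filter (fun u => P u ↔ P w)).card ≤ (orb Γ w).card := by
  rw [mem_minor] at hw
  by_cases h : P w
  · rw [part_pos h]
    exact hw.mp h
  · rw [part_neg h]
    have h1 : ¬ 2 * ((orb Γ w).filter P).card ≤ (orb Γ w).card := fun h' => h (hw.mpr h')
    have h2 := card_filter_add_card_filter_not (s := orb Γ w) P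
    omega

/-- the relation is invariant, and two elements of an orbit are distinguished by many elements,
apart from the exceptions `τ` -/
structure Good (R : U → U → Prop) (q : ℝ) (τ : U → Finset U) (Γ : Subgroup (Equiv.Perm U)) :
    Prop where
  inv : ∀ g ∈ Γ, ∀ x y, R (g x) (g y) ↔ R x y
  sep : ∀ g ∈ Γ, ∀ x, g x ≠ x → g x ∉ τ x →
    q ≤ ((univ.filter (fun z => ¬ (R x z ↔ R (g x) z))).card : ℝ)

/-- `x` is moved, and not only to exceptional elements -/
def Mov (τ : U → Finset U) (Γ : Subgroup (Equiv.Perm U)) (x : U) : Prop :=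
  ∃ g ∈ Γ, g x ≠ x ∧ g x ∉ τ x

theorem Good.mono {R : U → U → Prop} {q : ℝ} {τ : U → Finset U}
    {Γ Γ' : Subgroup (Equiv.Perm U)} (h : Γ' ≤ Γ) (hG : Good R q τ Γ) : Good R q τ Γ' :=
  ⟨fun g hg => hG.inv g (h hg), fun g hg => hG.sep g (h hg)⟩

theorem Mov.mono {τ : U → Finset U} {Γ Γ' : Subgroup (Equiv.Perm U)} (h : Γ' ≤ Γ) {x : U}
    (hx : Mov τ Γ' x) : Mov τ Γ x := by
  obtain ⟨g, hg, h1⟩ := hx
  exact ⟨g, h hg, h1⟩

theorem Mov.two {τ : U → Finset U} {Γ : Subgroup (Equiv.Perm U)} {x : U} (hx : Mov τ Γ x) :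
    2 ≤ (orb Γ x).card := by
  obtain ⟨g, hg, h1, _⟩ := hx
  exact one_lt_card.mpr ⟨g x, mem_orb.mpr ⟨g, hg, rfl⟩, x, self_orb Γ x, h1⟩

theorem not_mov {τ : U → Finset U} {Γ : Subgroup (Equiv.Perm U)} {x : U} (hx : ¬ Mov τ Γ x) :
    Real.logb 2 ((orb Γ x).card : ℝ) ≤ Real.logb 2 (1 + ((τ x).card : ℝ)) := by
  have hsub : orb Γ x ⊆ insert x (τ x) := by
    intro w hw
    obtain ⟨g, hg, rfl⟩ := mem_orb.mp hw
    rw [mem_insert]
    by_contra hcon
    rw [not_or] at hcon
    exact hx ⟨g, hg, hcon⟩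
  have h1 : (orb Γ x).card ≤ (τ x).card + 1 := (card_le_card hsub).trans (card_insert_le _ _)
  apply Real.logb_le_logb_of_le (by norm_num) (by exact_mod_cast card_orb_pos Γ x)
  rw [add_comm]
  exact_mod_cast h1

theorem minor_card {R : U → U → Prop} {Γ : Subgroup (Equiv.Perm U)}
    (hR : ∀ g ∈ Γ, ∀ x y, R (g x) (g y) ↔ R x y) (x : U) {g : Equiv.Perm U} (hg : g ∈ Γ) :
    (univ.filter (fun z => ¬ (R x z ↔ R (g x) z))).card ≤ 2 * (minor Γ (R x)).card := by
  have hsub : univ.filter (fun z => ¬ (R x z ↔ R (g x) z)) ⊆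
      minor Γ (R x) ∪ (minor Γ (R x)).image g := by
    intro z hz
    have hz' := (mem_filter.mp hz).2
    obtain ⟨u, rfl⟩ := g.surjective z
    rw [hR g hg] at hz'
    have horb : orb Γ (g u) = orb Γ u := orb_eq (mem_orb.mpr ⟨g, hg, rfl⟩)
    rw [mem_union]
    by_cases h1 : g u ∈ minor Γ (R x)
    · exact Or.inl h1
    · right
      rw [mem_image]
      refine ⟨u, ?_, rfl⟩
      rw [mem_minor] at h1 ⊢
      rw [horb] at h1
      tauto
  refine (card_le_card hsub).trans ((card_union_le _ _).trans ?_)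
  have := card_image_le (s := minor Γ (R x)) (f := g)
  omega

theorem card_inv {R : U → U → Prop} {Γ : Subgroup (Equiv.Perm U)}
    (hR : ∀ g ∈ Γ, ∀ x y, R (g x) (g y) ↔ R x y) (x z : U) {g : Equiv.Perm U} (hg : g ∈ Γ) :
    ((orb Γ z).filter (R (g x))).card = ((orb Γ z).filter (R x)).card := by
  have e : (orb Γ z).filter (R (g x)) = ((orb Γ z).filter (R x)).image g := by
    ext u
    rw [mem_filter, mem_image]
    constructor
    · rintro ⟨h1, h2⟩
      obtain ⟨v, rfl⟩ := g.surjective u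
      rw [hR g hg] at h2
      refine ⟨v, mem_filter.mpr ⟨?_, h2⟩, rfl⟩
      rw [← orb_eq h1, orb_eq (mem_orb.mpr ⟨g, hg, rfl⟩)]
      exact self_orb Γ v
    · rintro ⟨v, hv, rfl⟩
      rw [mem_filter] at hv
      refine ⟨?_, (hR g hg x v).mpr hv.2⟩
      rw [← orb_eq hv.1]
      exact mem_orb.mpr ⟨g, hg, rfl⟩
  rw [e, card_image_of_injective _ g.injective]

theorem dc {R : U → U → Prop} (hs : ∀ x y, R x y ↔ R y x) {Γ : Subgroup (Equiv.Perm U)}
    (hR : ∀ g ∈ Γ, ∀ x y, R (g x) (g y) ↔ R x y) (x z : U) :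
    (orb Γ x).card * ((orb Γ z).filter (R x)).card =
      (orb Γ z).card * ((orb Γ x).filter (R z)).card := by
  apply card_mul_eq_card_mul R
  · intro a ha
    obtain ⟨g, hg, rfl⟩ := mem_orb.mp ha
    exact card_inv hR x z hg
  · intro b hb
    obtain ⟨g, hg, rfl⟩ := mem_orb.mp hb
    rw [← card_inv hR z x hg]
    congr 1
    unfold bipartiteBelow
    apply filter_congr
    intro u _
    exact hs _ _

theorem step_small {R : U → U → Prop} {q : ℝ} {τ : U → Finset U}
    {Γ : Subgroup (Equiv.Perm U)} (hG : Good R q τ Γ) {x : U} (hx : Mov τ Γ x) :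
    pot (st Γ x) + q / 2 ≤ pot Γ := by
  obtain ⟨g, hg, hgx, hgt⟩ := hx
  have h1 := hG.sep g hg x hgx hgt
  have h2 : ((univ.filter (fun z => ¬ (R x z ↔ R (g x) z))).card : ℝ) ≤
      2 * (minor Γ (R x)).card := by exact_mod_cast minor_card hG.inv x hg
  have h3 := drop (st_le Γ x) (R x) (fun k hk w => by
    have hk' := mem_st.mp hk
    have := hG.inv k hk'.1 x w
    rwa [hk'.2] at this) (minor Γ (R x)) 2 (by norm_num) (fun w hw => by
      have := minor_part hw
      exact_mod_cast this)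
  rw [Real.logb_self_eq_one (by norm_num), mul_one] at h3
  linarith

theorem step_big {R : U → U → Prop} (hs : ∀ x y, R x y ↔ R y x) {q : ℝ} {τ : U → Finset U}
    {Γ : Subgroup (Equiv.Perm U)} (hG : Good R q τ Γ) {x : U} {σ : ℝ}
    (hx : Mov τ Γ x) (hσx : σ ^ 2 ≤ ((orb Γ x).card : ℝ)) :
    pot (st Γ x) + q / 4 * Real.logb 2 ((orb Γ x).card : ℝ) ≤ pot Γ ∨
      ∃ z, 2 ≤ (orb Γ z).card ∧ pot (st Γ z) + σ ≤ pot Γ := by
  set s : ℝ := ((orb Γ x).card : ℝ) with hsdef
  have hs1 : (2 : ℝ) ≤ s := by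
    rw [hsdef]
    exact_mod_cast hx.two
  have hsq : 1 ≤ Real.sqrt s := by
    rw [Real.one_le_sqrt]
    linarith
  have hσs : σ ≤ Real.sqrt s := Real.le_sqrt_of_sq_le hσx
  have hinvst : ∀ (y : U), ∀ k ∈ st Γ y, ∀ w, R y (k w) ↔ R y w := by
    intro y k hk w
    have hk' := mem_st.mp hk
    have := hG.inv k hk'.1 y w
    rwa [hk'.2] at this
  by_cases hcase : ∀ w ∈ minor Γ (R x),
      Real.sqrt s * (((orb Γ w).filter (fun u => R x u ↔ R x w)).card : ℝ) ≤ (orb Γ w).card
  · left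
    obtain ⟨g, hg, hgx, hgt⟩ := hx
    have h1 := hG.sep g hg x hgx hgt
    have h2 : ((univ.filter (fun z => ¬ (R x z ↔ R (g x) z))).card : ℝ) ≤
        2 * (minor Γ (R x)).card := by exact_mod_cast minor_card hG.inv x hg
    have h3 := drop (st_le Γ x) (R x) (hinvst x) (minor Γ (R x)) (Real.sqrt s) hsq hcase
    have h4 : Real.logb 2 (Real.sqrt s) = Real.logb 2 s / 2 := by
      rw [Real.logb, Real.log_sqrt (by linarith), Real.logb]
      ring
    rw [h4] at h3
    have h5 : 0 ≤ Real.logb 2 s := Real.logb_nonneg (by norm_num) (by linarith)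
    have h6 : q / 4 * Real.logb 2 s ≤ (minor Γ (R x)).card * (Real.logb 2 s / 2) := by
      nlinarith
    linarith
  · right
    push Not at hcase
    obtain ⟨z, hz, hlt⟩ := hcase
    have h2part := minor_part hz
    have hzpart : z ∈ (orb Γ z).filter (fun u => R x u ↔ R x z) :=
      mem_filter.mpr ⟨self_orb Γ z, Iff.rfl⟩
    have hpp : 0 < ((orb Γ z).filter (fun u => R x u ↔ R x z)).card := card_pos.mpr ⟨z, hzpart⟩
    refine ⟨z, by omega, ?_⟩
    -- the part of the orbit of `x`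
    set M : Finset U := (orb Γ x).filter
      (fun v => (R z v ↔ 2 * ((orb Γ x).filter (R z)).card ≤ (orb Γ x).card)) with hM
    have hMm : ∀ w ∈ M, w ∈ minor Γ (R z) := by
      intro w hw
      rw [hM, mem_filter] at hw
      rw [mem_minor, orb_eq hw.1]
      exact hw.2
    have h3 := drop (st_le Γ z) (R z) (hinvst z) M 2 (by norm_num) (fun w hw => by
      have := minor_part (hMm w hw)
      exact_mod_cast this)
    rw [Real.logb_self_eq_one (by norm_num), mul_one] at h3
    have hdc := dc hs hG.inv x z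
    -- `|M| |O| = |part| |X|`
    have hkey : M.card * (orb Γ z).card =
        ((orb Γ z).filter (fun u => R x u ↔ R x z)).card * (orb Γ x).card := by
      have hz' := mem_minor.mp hz
      have c1 := card_filter_add_card_filter_not (s := orb Γ z) (R x)
      have c2 := card_filter_add_card_filter_not (s := orb Γ x) (R z)
      have hXpos := card_orb_pos Γ x
      have hOpos := card_orb_pos Γ z
      by_cases hxz : R x z
      · have h4 := hz'.mp hxz
        have h5 : 2 * ((orb Γ x).filter (R z)).card ≤ (orb Γ x).card := by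
          by_contra hcon
          push Not at hcon
          have := Nat.mul_lt_mul_of_pos_left hcon hOpos
          nlinarith
        rw [part_pos hxz]
        have h6 : M = (orb Γ x).filter (R z) := by
          rw [hM]
          apply filter_congr
          intro v _
          exact ⟨fun h => h.mpr h5, fun h => iff_of_true h h5⟩
        rw [h6]
        nlinarith
      · have h4 : ¬ 2 * ((orb Γ z).filter (R x)).card ≤ (orb Γ z).card := fun h => hxz (hz'.mpr h)
        have h5 : ¬ 2 * ((orb Γ x).filter (R z)).card ≤ (orb Γ x).card := by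
          intro hcon
          apply h4
          by_contra hlt2
          push Not at hlt2
          have := Nat.mul_lt_mul_of_pos_left hlt2 hXpos
          nlinarith
        rw [part_neg hxz]
        have h6 : M = (orb Γ x).filter (fun v => ¬ R z v) := by
          rw [hM]
          apply filter_congr
          intro v _
          exact ⟨fun h h' => h5 (h.mp h'), fun h => iff_of_false h h5⟩
        rw [h6]
        nlinarith
    have hkey' : (M.card : ℝ) * (orb Γ z).card =
        (((orb Γ z).filter (fun u => R x u ↔ R x z)).card : ℝ) * s := by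
      rw [hsdef]
      exact_mod_cast hkey
    have hOr : (0 : ℝ) < (orb Γ z).card := by exact_mod_cast card_orb_pos Γ z
    have hss : Real.sqrt s * Real.sqrt s = s := Real.mul_self_sqrt (by linarith)
    have hMs : Real.sqrt s ≤ M.card := by
      by_contra hcon
      push Not at hcon
      have h7 : (M.card : ℝ) * (orb Γ z).card < Real.sqrt s * (orb Γ z).card :=
        mul_lt_mul_of_pos_right hcon hOr
      have h8 : Real.sqrt s * ((orb Γ z).card : ℝ) <
          Real.sqrt s * (Real.sqrt s *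
            (((orb Γ z).filter (fun u => R x u ↔ R x z)).card : ℝ)) :=
        mul_lt_mul_of_pos_left hlt (by linarith)
      have h9 : Real.sqrt s * (Real.sqrt s *
            (((orb Γ z).filter (fun u => R x u ↔ R x z)).card : ℝ)) =
          (((orb Γ z).filter (fun u => R x u ↔ R x z)).card : ℝ) * s := by
        rw [← mul_assoc, hss, mul_comm]
      linarith
    linarith

theorem trivial_group {Γ : Subgroup (Equiv.Perm U)} (h : ∀ x, (orb Γ x).card < 2) : gc Γ = 1 := by
  unfold gc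
  rw [card_eq_one]
  refine ⟨1, ?_⟩
  ext g
  rw [mem_filter, mem_singleton]
  constructor
  · rintro ⟨_, hg⟩
    ext x
    have h1 := h x
    have h2 : (orb Γ x).card = 1 := by
      have := card_orb_pos Γ x
      omega
    obtain ⟨a, ha⟩ := card_eq_one.mp h2
    have h3 : x ∈ orb Γ x := self_orb Γ x
    have h4 : g x ∈ orb Γ x := mem_orb.mpr ⟨g, hg, rfl⟩
    rw [ha, mem_singleton] at h3 h4
    rw [Equiv.Perm.one_apply, h4, ← h3]
  · rintro rfl
    exact ⟨mem_univ _, Γ.one_mem⟩

theorem log_gc_le (Γ : Subgroup (Equiv.Perm U)) (x : U) :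
    Real.logb 2 (gc Γ) ≤ Real.logb 2 (gc (st Γ x)) + Real.logb 2 ((orb Γ x).card : ℝ) := by
  have h1 : (0 : ℝ) < gc Γ := by exact_mod_cast gc_pos Γ
  have h2 : (0 : ℝ) < gc (st Γ x) := by exact_mod_cast gc_pos (st Γ x)
  have h3 : (0 : ℝ) < (orb Γ x).card := by exact_mod_cast card_orb_pos Γ x
  rw [← Real.logb_mul h2.ne' h3.ne']
  apply Real.logb_le_logb_of_le (by norm_num) h1
  exact_mod_cast gc_le Γ x

theorem gc_le_pot (n : ℕ) : ∀ Γ : Subgroup (Equiv.Perm U), gc Γ = n →
    Real.logb 2 (gc Γ) ≤ pot Γ := by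
  induction' n using Nat.strong_induction_on with n ih
  intro Γ hn
  by_cases h : ∀ x, (orb Γ x).card < 2
  · rw [trivial_group h]
    simp only [Nat.cast_one, Real.logb_one]
    exact pot_nonneg Γ
  · push Not at h
    obtain ⟨x, hx⟩ := h
    have h2 := ih _ (hn ▸ gc_st_lt hx) (st Γ x) rfl
    have h4 := log_gc_le Γ x
    have h5 := drop (st_le Γ x) (fun w => w = x) (fun g hg w => by
      have hg' := (mem_st.mp hg).2
      constructor
      · intro e
        exact g.injective (e.trans hg'.symm)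
      · rintro rfl
        exact hg') {x} ((orb Γ x).card : ℝ) (by exact_mod_cast card_orb_pos Γ x) (fun w hw => by
        rw [mem_singleton] at hw
        subst hw
        have h6 : (orb Γ w).filter (fun u => u = w ↔ w = w) ⊆ {w} := by
          intro u hu
          rw [mem_singleton]
          exact (mem_filter.mp hu).2.mpr rfl
        have h7 : ((((orb Γ w).filter (fun u => u = w ↔ w = w)).card : ℕ) : ℝ) ≤ 1 := by
          have := card_le_card h6
          rw [card_singleton] at this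
          exact_mod_cast this
        have h8 : (0 : ℝ) ≤ (orb Γ w).card := Nat.cast_nonneg _
        nlinarith)
    rw [card_singleton, Nat.cast_one, one_mul] at h5
    linarith

theorem pot_le {Γ : Subgroup (Equiv.Perm U)} {S : ℝ}
    (h : ∀ v, Real.logb 2 ((orb Γ v).card : ℝ) ≤ S) : pot Γ ≤ Fintype.card U * S := by
  unfold pot
  refine (sum_le_sum (fun v _ => h v)).trans (le_of_eq ?_)
  rw [sum_const, card_univ, nsmul_eq_mul]

theorem exc_nonneg (τ : U → Finset U) (v : U) : 0 ≤ Real.logb 2 (1 + ((τ v).card : ℝ)) := by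
  apply Real.logb_nonneg (by norm_num)
  have : (0 : ℝ) ≤ (τ v).card := Nat.cast_nonneg _
  linarith

theorem small_stage {R : U → U → Prop} {q : ℝ} (hq : 0 < q) {τ : U → Finset U} {S : ℝ}
    (hS : 0 ≤ S) (n : ℕ) :
    ∀ Γ : Subgroup (Equiv.Perm U), gc Γ = n → Good R q τ Γ →
      (∀ v, Mov τ Γ v → Real.logb 2 ((orb Γ v).card : ℝ) ≤ S) →
      Real.logb 2 (gc Γ) ≤ 2 * S / q * pot Γ + ∑ v, Real.logb 2 (1 + ((τ v).card : ℝ)) := by
  induction' n using Nat.strong_induction_on with n ih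
  intro Γ hn hG hS2
  by_cases h : ∀ x, ¬ Mov τ Γ x
  · have h1 := gc_le_pot _ Γ rfl
    have h2 : pot Γ ≤ ∑ v, Real.logb 2 (1 + ((τ v).card : ℝ)) :=
      sum_le_sum (fun v _ => not_mov (h v))
    have h3 := pot_nonneg Γ
    have h4 : 0 ≤ 2 * S / q * pot Γ := by positivity
    linarith
  · push Not at h
    obtain ⟨x, hx⟩ := h
    have h1 := gc_st_lt hx.two
    have h2 := ih _ (hn ▸ h1) (st Γ x) rfl (hG.mono (st_le Γ x)) (fun v hv => by
      refine le_trans ?_ (hS2 v (hv.mono (st_le Γ x)))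
      apply Real.logb_le_logb_of_le (by norm_num) (by exact_mod_cast card_orb_pos (st Γ x) v)
      exact_mod_cast card_le_card (orb_mono (st_le Γ x) v))
    have h3 := step_small hG hx
    have h4 := log_gc_le Γ x
    have h5 := hS2 x hx
    have h6 : 2 * S / q * (pot (st Γ x) + q / 2) ≤ 2 * S / q * pot Γ :=
      mul_le_mul_of_nonneg_left h3 (by positivity)
    have h7 : 2 * S / q * (pot (st Γ x) + q / 2) = 2 * S / q * pot (st Γ x) + S := by
      field_simp
    linarith

theorem big_stage {R : U → U → Prop} (hs : ∀ x y, R x y ↔ R y x) {q : ℝ} (hq : 0 < q)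
    {τ : U → Finset U} {σ Λ ρ : ℝ} (hσ : 1 ≤ σ) (hΛ : Λ * q ≤ 4 * σ)
    (hσq : 4 * Real.logb 2 σ ≤ q) (hρ : ∑ v, Real.logb 2 (1 + ((τ v).card : ℝ)) ≤ ρ) (n : ℕ) :
    ∀ Γ : Subgroup (Equiv.Perm U), gc Γ = n → Good R q τ Γ →
      (∀ v, Real.logb 2 ((orb Γ v).card : ℝ) ≤ Λ) →
      Real.logb 2 (gc Γ) ≤
        4 / q * pot Γ + (8 * Fintype.card U * Real.logb 2 σ ^ 2 / q + 2 * ρ) := by
  induction' n using Nat.strong_induction_on with n ih
  intro Γ hn hG hL
  have hlσ : 0 ≤ Real.logb 2 σ := Real.logb_nonneg (by norm_num) hσ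
  have hρ0 : 0 ≤ ρ := (sum_nonneg (fun v _ => exc_nonneg τ v)).trans hρ
  have hext : ∀ x : U, ∀ v, Real.logb 2 ((orb (st Γ x) v).card : ℝ) ≤ Λ := by
    intro x v
    refine le_trans ?_ (hL v)
    apply Real.logb_le_logb_of_le (by norm_num) (by exact_mod_cast card_orb_pos (st Γ x) v)
    exact_mod_cast card_le_card (orb_mono (st_le Γ x) v)
  by_cases h : ∀ x, Mov τ Γ x → ((orb Γ x).card : ℝ) < σ ^ 2
  · -- small orbits
    have hS : ∀ v, Mov τ Γ v → Real.logb 2 ((orb Γ v).card : ℝ) ≤ 2 * Real.logb 2 σ := by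
      intro v hv
      have hpos := card_orb_pos Γ v
      have h3 := h v hv
      have h4 : 2 * Real.logb 2 σ = Real.logb 2 (σ ^ 2) := by
        rw [Real.logb_pow]
        norm_num
      rw [h4]
      exact Real.logb_le_logb_of_le (by norm_num) (by exact_mod_cast hpos) h3.le
    have h1 := small_stage hq (by linarith : (0 : ℝ) ≤ 2 * Real.logb 2 σ) _ Γ rfl hG hS
    have h2 : pot Γ ≤ Fintype.card U * (2 * Real.logb 2 σ) + ρ := by
      have h3 : pot Γ ≤ ∑ v : U, (2 * Real.logb 2 σ + Real.logb 2 (1 + ((τ v).card : ℝ))) := by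
        apply sum_le_sum
        intro v _
        by_cases hv : Mov τ Γ v
        · have := hS v hv
          have := exc_nonneg τ v
          linarith
        · have := not_mov hv
          linarith
      rw [sum_add_distrib, sum_const, card_univ, nsmul_eq_mul] at h3
      linarith
    have h3 : 2 * (2 * Real.logb 2 σ) / q * pot Γ ≤
        2 * (2 * Real.logb 2 σ) / q * (Fintype.card U * (2 * Real.logb 2 σ) + ρ) :=
      mul_le_mul_of_nonneg_left h2 (by positivity)
    have h4 : 2 * (2 * Real.logb 2 σ) / q * (Fintype.card U * (2 * Real.logb 2 σ) + ρ) =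
        8 * Fintype.card U * Real.logb 2 σ ^ 2 / q + 4 * Real.logb 2 σ / q * ρ := by
      field_simp
      ring
    have h5 : 4 * Real.logb 2 σ / q * ρ ≤ 1 * ρ := by
      apply mul_le_mul_of_nonneg_right _ hρ0
      rw [div_le_one hq]
      exact hσq
    have h6 : 0 ≤ 4 / q * pot Γ := by
      have := pot_nonneg Γ
      positivity
    linarith
  · push Not at h
    obtain ⟨x, hx, hσx⟩ := h
    rcases step_big hs hG hx hσx with h1 | ⟨z, hz, h1⟩
    · have h2 := ih _ (hn ▸ gc_st_lt hx.two) (st Γ x) rfl (hG.mono (st_le Γ x)) (hext x)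
      have h3 := log_gc_le Γ x
      have h4 : 4 / q * (pot (st Γ x) + q / 4 * Real.logb 2 ((orb Γ x).card : ℝ)) ≤
          4 / q * pot Γ := mul_le_mul_of_nonneg_left h1 (by positivity)
      have h5 : 4 / q * (pot (st Γ x) + q / 4 * Real.logb 2 ((orb Γ x).card : ℝ)) =
          4 / q * pot (st Γ x) + Real.logb 2 ((orb Γ x).card : ℝ) := by
        field_simp
      linarith
    · have h2 := ih _ (hn ▸ gc_st_lt hz) (st Γ z) rfl (hG.mono (st_le Γ z)) (hext z)
      have h3 := log_gc_le Γ z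
      have h4 : 4 / q * (pot (st Γ z) + σ) ≤ 4 / q * pot Γ :=
        mul_le_mul_of_nonneg_left h1 (by positivity)
      have h5 : 4 / q * (pot (st Γ z) + σ) = 4 / q * pot (st Γ z) + 4 * σ / q := by
        field_simp
      have h6 : Λ ≤ 4 * σ / q := by
        rw [le_div_iff₀ hq]
        exact hΛ
      have h7 := hL z
      linarith

/-- **The bound for the order of the group.** -/
theorem group_bound {R : U → U → Prop} (hs : ∀ x y, R x y ↔ R y x) {q : ℝ} (hq : 0 < q)
    {τ : U → Finset U} {σ Λ ρ : ℝ} (hσ : 1 ≤ σ) (hΛ : Λ * q ≤ 4 * σ)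
    (hσq : 4 * Real.logb 2 σ ≤ q) (hρ : ∑ v, Real.logb 2 (1 + ((τ v).card : ℝ)) ≤ ρ)
    (Γ : Subgroup (Equiv.Perm U)) (hG : Good R q τ Γ)
    (hL : ∀ v, Real.logb 2 ((orb Γ v).card : ℝ) ≤ Λ) :
    Real.logb 2 (gc Γ) ≤
      Fintype.card U * (4 * Λ + 8 * Real.logb 2 σ ^ 2) / q + 2 * ρ := by
  have h1 := big_stage hs hq hσ hΛ hσq hρ _ Γ rfl hG hL
  have h2 : 4 / q * pot Γ ≤ 4 / q * (Fintype.card U * Λ) :=
    mul_le_mul_of_nonneg_left (pot_le hL) (by positivity)
  have h3 : 4 / q * (Fintype.card U * Λ) + 8 * Fintype.card U * Real.logb 2 σ ^ 2 / q =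
      Fintype.card U * (4 * Λ + 8 * Real.logb 2 σ ^ 2) / q := by
    field_simp
  linarith

end Pool.Agent.H71.LOC
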