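import Pool.Agent.H71.LOC.Pick

set_option autoImplicit false
set_option linter.unusedSectionVars false

/-!
# Graphs without near twins at distance at most four are reconstructible
-/

namespace Pool.Agent.H71.LOC

open Finset Classical
open Pool.Agent.H234RC (Hypo NonIso Reconstructible exists_hypo)

variable {V : Type} [Fintype V]

theorem choose_le (n k : ℕ) (hk : k ≤ n) :
    ((n.choose k : ℕ) : ℝ) ≤ (64 / 63 : ℝ) ^ n * 63 ^ k := by
  have h1 : (1 / 63 : ℝ) ^ k * 1 ^ (n - k) * (n.choose k : ℕ) ≤ (1 / 63 + 1 : ℝ) ^ n := by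
    rw [add_pow]
    exact single_le_sum (f := fun m => (1 / 63 : ℝ) ^ m * 1 ^ (n - m) * (n.choose m : ℕ))
      (fun m _ => by positivity) (mem_range.mpr (by omega))
  have h2 : (1 / 63 + 1 : ℝ) = 64 / 63 := by norm_num
  rw [h2, one_pow, mul_one] at h1
  have h3 : ((n.choose k : ℕ) : ℝ) = (1 / 63 : ℝ) ^ k * (n.choose k : ℕ) * 63 ^ k := by
    rw [one_div, inv_pow]
    field_simp
  rw [h3]
  exact mul_le_mul_of_nonneg_right h1 (by positivity)

theorem logb_choose_le (n k : ℕ) (hk : k ≤ n) :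
    Real.logb 2 ((n.choose k : ℕ) : ℝ) ≤ 0.023 * n + 6 * k := by
  have hl2 := Real.log_two_gt_d9
  have h1 := choose_le n k hk
  have h0 : (0 : ℝ) < ((n.choose k : ℕ) : ℝ) := by exact_mod_cast Nat.choose_pos hk
  have h2 := Real.log_le_log h0 h1
  rw [Real.log_mul (by positivity) (by positivity), Real.log_pow, Real.log_pow] at h2
  have h3 : Real.log (64 / 63) ≤ 1 / 63 := by
    have := Real.log_le_sub_one_of_pos (by norm_num : (0 : ℝ) < 64 / 63)
    linarith
  have h4 : Real.log 63 ≤ 6 * Real.log 2 := by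
    have h5 : (6 : ℝ) * Real.log 2 = Real.log (2 ^ 6) := by
      rw [Real.log_pow]
      norm_num
    rw [h5]
    apply Real.log_le_log (by norm_num)
    norm_num
  rw [Real.logb, div_le_iff₀ (by linarith)]
  have hn : (0 : ℝ) ≤ n := Nat.cast_nonneg _
  have hk0 : (0 : ℝ) ≤ k := Nat.cast_nonneg _
  nlinarith

theorem log_sq_le {L : ℝ} (hL : 13 ≤ L) : Real.logb 2 (8 * L ^ 2) ^ 2 ≤ 9 * L := by
  have hl2 := Real.log_two_gt_d9
  have hl2' := Real.log_two_lt_d9
  set u : ℝ := Real.sqrt L with hu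
  have huu : u * u = L := Real.mul_self_sqrt (by linarith)
  have hu3 : 3.6 ≤ u := by
    rw [hu]
    apply Real.le_sqrt_of_sq_le
    norm_num
    linarith
  have hlogu : Real.log u ≤ u / 4 + 2 * Real.log 2 - 1 := by
    have h2 := Real.log_le_sub_one_of_pos (div_pos (by linarith : (0 : ℝ) < u)
      (by norm_num : (0 : ℝ) < 4))
    rw [Real.log_div (by linarith) (by norm_num)] at h2
    have h3 : Real.log 4 = 2 * Real.log 2 := by
      have : (4 : ℝ) = 2 ^ (2 : ℕ) := by norm_num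
      rw [this, Real.log_pow]
      norm_num
    linarith
  have e1 : Real.log (8 * L ^ 2) = 3 * Real.log 2 + 4 * Real.log u := by
    have h1 : (8 : ℝ) * L ^ 2 = 2 ^ (3 : ℕ) * u ^ (4 : ℕ) := by
      rw [← huu]
      ring
    rw [h1, Real.log_mul (by positivity) (by positivity), Real.log_pow, Real.log_pow]
    norm_num
  have h5 : 0 ≤ Real.logb 2 (8 * L ^ 2) := by
    apply Real.logb_nonneg (by norm_num)
    nlinarith
  have h6 : Real.logb 2 (8 * L ^ 2) ≤ 3 * u := by
    rw [Real.logb, e1, div_le_iff₀ (by linarith)]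
    nlinarith
  calc Real.logb 2 (8 * L ^ 2) ^ 2 ≤ (3 * u) ^ 2 := pow_le_pow_left₀ h5 h6 2
    _ = 9 * L := by
        rw [mul_pow, pow_two u, huu]
        norm_num

theorem num6 {n Δ L b b1 t0 t d' r κ d : ℝ} (hL : 13 ≤ L) (hΔL : 1024 * L ≤ Δ)
    (hLn : 1024 * L ≤ n) (hb : 128 * b * L ≤ n)
    (hb1 : b1 ≤ 2 * b + n / (1024 * L) + 128 * n / Δ ^ 3)
    (ht0 : t0 * (8 * L) ≤ d') (hd' : 64 * d' ≤ n) (ht : t ≤ 5 * (b1 + t0))
    (hr0 : 0 ≤ r) (hκ0 : 0 ≤ κ) (hr : 128 * r * (1 + κ) ≤ n)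
    (hd : d ≤ d' + r + t) (hd0 : 0 ≤ d) :
    2 + 2 * (d * (8 * L + 8 * Real.logb 2 (8 * L ^ 2) ^ 2) / (16 * L) + 2 * (r * κ) +
      (0.023 * n + 6 * d) + (Real.logb 2 n + t * L)) + d < n := by
  have hl2 := Real.log_two_gt_d9
  have hΔ0 : 13312 ≤ Δ := by linarith
  have hn1 : 13312 ≤ n := by linarith
  have hLpos : 0 < L := by linarith
  -- the logarithm of `n`
  have e2 : Real.logb 2 n ≤ 0.01 * n := by
    have h1 : Real.log n ≤ n / 1024 + 10 * Real.log 2 - 1 := by
      have h2 := Real.log_le_sub_one_of_pos (div_pos (by linarith : (0 : ℝ) < n)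
        (by norm_num : (0 : ℝ) < 1024))
      rw [Real.log_div (by linarith) (by norm_num)] at h2
      have h3 : Real.log 1024 = 10 * Real.log 2 := by
        have : (1024 : ℝ) = 2 ^ (10 : ℕ) := by norm_num
        rw [this, Real.log_pow]
        norm_num
      rw [h3] at h2
      linarith
    rw [Real.logb, div_le_iff₀ (by linarith)]
    nlinarith [Real.log_two_lt_d9]
  -- the first term
  have e1 : d * (8 * L + 8 * Real.logb 2 (8 * L ^ 2) ^ 2) / (16 * L) ≤ 5 * d := by
    rw [div_le_iff₀ (by linarith)]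
    have h1 := log_sq_le hL
    have h2 : 8 * L + 8 * Real.logb 2 (8 * L ^ 2) ^ 2 ≤ 80 * L := by linarith
    calc d * (8 * L + 8 * Real.logb 2 (8 * L ^ 2) ^ 2) ≤ d * (80 * L) :=
          mul_le_mul_of_nonneg_left h2 hd0
      _ = 5 * d * (16 * L) := by ring
  -- the numbers in terms of `n / L`
  set u : ℝ := n / L with hu
  have hu0 : 0 < u := by positivity
  have huL : u * L = n := by
    rw [hu]
    field_simp
  have e3 : b ≤ u / 128 := by
    rw [hu, div_div, le_div_iff₀ (by positivity)]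
    linarith
  have e4 : n / (1024 * L) = u / 1024 := by
    rw [hu]
    field_simp
  have e5 : 128 * n / Δ ^ 3 ≤ u / 100000 := by
    rw [div_le_iff₀ (by positivity)]
    have h1 : (100000 : ℝ) ≤ Δ ^ 2 := by nlinarith
    have h2 : 1024 * L * 100000 ≤ Δ ^ 3 := by
      calc 1024 * L * 100000 ≤ Δ * Δ ^ 2 := by
            apply mul_le_mul hΔL h1 (by norm_num) (by linarith)
        _ = Δ ^ 3 := by ring
    have h3 : 0 ≤ u / 100000 := by positivity
    have h4 := mul_le_mul_of_nonneg_left h2 h3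
    have h5 : u / 100000 * (1024 * L * 100000) = 1024 * n := by
      rw [← huL]
      ring
    linarith
  have e6 : t0 ≤ u / 512 := by
    have h1 : t0 * (512 * L) ≤ n := by linarith
    rw [hu, div_div, le_div_iff₀ (by positivity)]
    linarith
  have e7 : t ≤ 0.0929 * u := by linarith
  have e8 : t * L ≤ 0.0929 * n := by
    have := mul_le_mul_of_nonneg_right e7 hLpos.le
    rw [mul_assoc, huL] at this
    exact this
  have e9 : t ≤ 0.0072 * n := by
    have h1 : u ≤ n / 13 := by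
      rw [hu]
      apply div_le_div_of_nonneg_left (by linarith) (by norm_num) hL
    linarith
  have e10 : 0 ≤ r * κ := mul_nonneg hr0 hκ0
  have e11 : 128 * r + 128 * (r * κ) ≤ n := by linarith
  linarith

/-- the counting bound, with logarithms -/
theorem finish2 {G H : SimpleGraph V} {π : V → Equiv.Perm V} (hH : Hypo G H π) (hN : NonIso G H)
    {D : Finset V} (hloc : Loc G D) {A : ℝ} (hA : Real.logb 2 ((pe G G D).card : ℝ) ≤ A)
    (hA0 : 0 ≤ A) (hnum : 2 + 2 * A + (D.card : ℝ) < (Fintype.card V : ℝ)) : False := by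
  have hDn : D.card ≤ Fintype.card V := card_le_univ D
  have hDu : D ≠ univ := by
    intro e
    rw [e, card_univ] at hnum
    linarith
  have hb := bound hH hN hloc hDu
  have hpos : 1 ≤ (pe G G univ).card := (aut_pos G).trans (aut_le_pe G)
  have e8 : 2 ^ (Fintype.card V - D.card) ≤
      (pe G G univ).card ^ 2 * 2 ^ (Fintype.card V - D.card) := by
    have h1 := Nat.pow_le_pow_left hpos 2
    calc 2 ^ (Fintype.card V - D.card) = 1 ^ 2 * 2 ^ (Fintype.card V - D.card) := by ring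
      _ ≤ _ := Nat.mul_le_mul_right _ h1
  have e9 : 2 ^ (Fintype.card V - D.card) ≤ 4 * (pe G G D).card ^ 2 := e8.trans hb
  have hP : 0 < (pe G G D).card := by
    rcases Nat.eq_zero_or_pos (pe G G D).card with h0 | h0
    · rw [h0] at e9
      have := Nat.one_le_two_pow (n := Fintype.card V - D.card)
      omega
    · exact h0
  have hPr : (0 : ℝ) < (pe G G D).card := by exact_mod_cast hP
  have e10 : (2 : ℝ) ^ (Fintype.card V - D.card) ≤ 4 * ((pe G G D).card : ℝ) ^ 2 := by
    exact_mod_cast e9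
  have e11 := Real.logb_le_logb_of_le (b := 2) (by norm_num) (by positivity) e10
  rw [Real.logb_pow, Real.logb_self_eq_one (by norm_num), mul_one,
    Real.logb_mul (by norm_num) (by positivity), Real.logb_pow, Nat.cast_sub hDn] at e11
  have e12 : Real.logb 2 4 = 2 := by
    have : (4 : ℝ) = 2 ^ (2 : ℕ) := by norm_num
    rw [this, Real.logb_pow, Real.logb_self_eq_one (by norm_num)]
    norm_num
  rw [e12] at e11
  push_cast at e11
  linarith

/-- **Theorem N.** -/
theorem thmN (G : SimpleGraph V) (h3 : 3 ≤ Fintype.card V) (Δ : ℕ) (hΔ2 : 2 ≤ Δ)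
    (hΔ : DegLE G Δ) (B R : Finset V) (τ : V → Finset V) (k : ℕ)
    (hB : 128 * (B.card : ℝ) * Real.logb 2 Δ ≤ Fintype.card V)
    (hR : 128 * (R.card : ℝ) * (1 + Real.logb 2 (k + 1)) ≤ Fintype.card V)
    (hτR : ∀ x, x ∉ R → τ x = ∅) (hτk : ∀ x, (τ x).card ≤ k)
    (hRdeg : ∀ x ∈ R, 1024 * Real.logb 2 Δ ≤ ((nb G x).card : ℝ))
    (h : ∀ x y : V, x ∉ B → y ∉ B → x ≠ y → Near G x y → y ∉ τ x →
      2048 * Real.logb 2 Δ ≤ (dst G x y : ℝ)) :
    Reconstructible G ∧ Reconstructible Gᶜ := by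
  apply rec_of
  intro H π hH hN
  have hΔr : (2 : ℝ) ≤ Δ := by exact_mod_cast hΔ2
  have hn3 : (3 : ℝ) ≤ Fintype.card V := by exact_mod_cast h3
  -- `G` is connected
  have hcut : CutConn G := by
    intro A hA hB'
    by_contra hcon
    push Not at hcon
    apply hN
    exact Pool.Agent.TH87.RVP.disc_iso hH h3 A hA hB' (fun x hx y hy => hcon x hx y hy)
  have hneV : Nonempty V := Fintype.card_pos_iff.mp (by omega)
  have hconn : G.Connected := conn_of_cut hneV hcut
  have hdeg : ∀ v, ∃ w, G.Adj v w := by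
    intro v
    have h1 : ∃ b, b ∉ ({v} : Finset V) := by
      by_contra hcon
      push Not at hcon
      have h2 : (univ : Finset V).card ≤ ({v} : Finset V).card :=
        card_le_card (fun x _ => hcon x)
      rw [card_univ, card_singleton] at h2
      omega
    obtain ⟨x, hx, y, _, hxy⟩ := hcut {v} (singleton_nonempty v) h1
    rw [mem_singleton] at hx
    exact ⟨y, hx ▸ hxy⟩
  set L : ℝ := Real.logb 2 Δ with hL
  have hL1 : 1 ≤ L := by
    have h1 : Real.logb 2 2 ≤ Real.logb 2 (Δ : ℝ) :=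
      Real.logb_le_logb_of_le (by norm_num) (by norm_num) hΔr
    rw [Real.logb_self_eq_one (by norm_num)] at h1
    exact h1
  -- some degree is large
  have hbig : ∃ v, 1024 * L ≤ ((nb G v).card : ℝ) := by
    by_contra hlt
    push Not at hlt
    have hR0 : ∀ x, x ∉ R := fun x hx => absurd (hRdeg x hx) (not_le.mpr (hlt x))
    have h' : ∀ x y : V, x ∉ B → x ∉ R → y ∉ B → x ≠ y → Near G x y →
        2 * (1024 * L) ≤ (dst G x y : ℝ) := by
      intro x y hx hxR hy hxy hn
      have := h x y hx hy hxy hn (by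
        rw [hτR x hxR]
        exact notMem_empty y)
      linarith
    have h1 : Bᶜ ⊆ (low G B R (1024 * L)).filter (fun x => ∃ b ∈ B, G.Adj x b) := by
      intro x hx
      rw [mem_compl] at hx
      refine mem_filter.mpr ⟨mem_low.mpr ⟨hx, hR0 x, hlt x⟩, ?_⟩
      by_contra hcon
      obtain ⟨y, hxy⟩ := hdeg x
      have hy : y ∉ B := fun hy => hcon ⟨y, hy, hxy⟩
      have h2 := h' x y hx (hR0 x) hy (G.ne_of_adj hxy) (near_one hxy)
      have h4 : (dst G x y : ℝ) ≤ (nb G x).card + (nb G y).card := by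
        exact_mod_cast dst_le_nb G x y
      linarith [hlt x, hlt y]
    have h2 := (card_le_card h1).trans (low_one h')
    rw [card_compl] at h2
    have h4 : (128 : ℝ) * B.card ≤ Fintype.card V := by
      have h0 : (0 : ℝ) ≤ 128 * (B.card : ℝ) := by positivity
      nlinarith
    have h5 : 128 * B.card ≤ Fintype.card V := by exact_mod_cast h4
    omega
  obtain ⟨v0, hv0⟩ := hbig
  have hΔL : 1024 * L ≤ Δ := by
    have : ((nb G v0).card : ℝ) ≤ Δ := by exact_mod_cast hΔ v0
    linarith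
  have hLn : 1024 * L ≤ Fintype.card V := by
    have : ((nb G v0).card : ℝ) ≤ Fintype.card V := by exact_mod_cast card_le_univ (nb G v0)
    linarith
  have hpow : ∀ j : ℕ, 2 ^ j ≤ Δ → (j : ℝ) ≤ L := by
    intro j hj
    have h1 : ((2 ^ j : ℕ) : ℝ) ≤ (Δ : ℝ) := by exact_mod_cast hj
    push_cast at h1
    have h2 := Real.logb_le_logb_of_le (b := 2) (by norm_num) (by positivity) h1
    rw [Real.logb_pow, Real.logb_self_eq_one (by norm_num), mul_one] at h2
    exact h2
  have h10 : 2 ^ 10 ≤ Δ := by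
    have h1 : (1024 : ℝ) ≤ Δ := by linarith
    have h2 : (1024 : ℕ) ≤ Δ := by exact_mod_cast h1
    omega
  have hL10 := hpow 10 h10
  norm_num at hL10
  have h13 : 2 ^ 13 ≤ Δ := by
    have h1 : (10240 : ℝ) ≤ Δ := by linarith
    have h2 : (10240 : ℕ) ≤ Δ := by exact_mod_cast h1
    omega
  have hL13 := hpow 13 h13
  norm_num at hL13
  -- the sets
  obtain ⟨D', B1, hBB, hD'1, hB1, hdegD, hsepD⟩ := pick G Δ hΔ2 hΔ B R τ hτR h hdeg hRdeg
  obtain ⟨T0, hT0, hT0dom⟩ := pack G D' B1 (by linarith : (0 : ℝ) < 8 * L) hdegD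
  have hdom : ∀ v, ∃ s ∈ B1 ∪ T0, G.dist v s ≤ 2 := by
    intro v
    by_cases hv : v ∈ B1
    · exact ⟨v, mem_union_left _ hv, by simp⟩
    · obtain ⟨u, _, t, ht, h1, h2⟩ := hT0dom v hv
      exact ⟨t, mem_union_right _ ht,
        SimpleGraph.dist_le (SimpleGraph.Walk.cons h1 (SimpleGraph.Walk.cons h2 .nil))⟩
  have hSne : (B1 ∪ T0).Nonempty := by
    obtain ⟨s, hs, _⟩ := hdom v0
    exact ⟨s, hs⟩
  obtain ⟨T, hT1, hT2, hT3⟩ := extend2 hconn hSne hdom
  have hTB : ∀ v, v ∉ T → v ∉ B1 := fun v hv h1 => hv (hT1 (mem_union_left _ h1))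
  have hmono : ∀ x y, ((dset G D' x y).card : ℝ) ≤ ((dset G (D' ∪ R ∪ T) x y).card : ℝ) := by
    intro x y
    have h1 : dset G D' x y ⊆ dset G (D' ∪ R ∪ T) x y :=
      filter_subset_filter _ (subset_union_left.trans subset_union_left)
    exact_mod_cast card_le_card h1
  have hloc : Loc G (D' ∪ R ∪ T) := by
    intro x y hx hy hxy
    by_contra hne
    have hx1 : x ∉ B1 := hTB x (fun h' => hx (mem_union_right _ h'))
    have hy1 : y ∉ B1 := hTB y (fun h' => hy (mem_union_right _ h'))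
    have hxR : x ∉ R := fun h' => hx (mem_union_left _ (mem_union_right _ h'))
    have h1 := hdegD x hx1
    have h2 : (nb G x ∩ D').Nonempty := by
      rw [← card_pos]
      have : (0 : ℝ) < ((nb G x ∩ D').card : ℝ) := by linarith
      exact_mod_cast this
    obtain ⟨u, hu⟩ := h2
    rw [mem_inter, mem_nb] at hu
    have hyu := (hxy u (mem_union_left _ (mem_union_left _ hu.2))).mp hu.1
    have hF : Four G x y := ⟨u, x, u, hu.1, hu.1.symm, hu.1, hyu.symm⟩
    have h4 := hsepD x y hx1 hy1 hne hF (by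
      rw [hτR x hxR]
      exact notMem_empty y)
    have h5 : (dset G D' x y).Nonempty := by
      rw [← card_pos]
      have : (0 : ℝ) < ((dset G D' x y).card : ℝ) := by linarith
      exact_mod_cast this
    obtain ⟨z, hz⟩ := h5
    unfold dset at hz
    rw [mem_filter] at hz
    exact hz.2.2.2 (hxy z (mem_union_left _ (mem_union_left _ hz.1)))
  have hsq := log_sq_le hL13
  have haut := aut_bound hΔ2 hΔ (D := D' ∪ R ∪ T) (T := T) (q := 16 * L) (σ := 8 * L ^ 2)
    (fun v _ hv => by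
      obtain ⟨u, hu, t, ht, h1, h2⟩ := hT0dom v (hTB v hv)
      exact ⟨u, mem_union_left _ (mem_union_left _ hu), t, hT1 (mem_union_right _ ht), h1, h2⟩)
    subset_union_right (by linarith) (by nlinarith) (by rw [← hL]; nlinarith)
    (by nlinarith) τ R k hτR hτk
    (fun x y hx hy hxy hF hτ =>
      (hsepD x y (hTB x hx) (hTB y hy) hxy hF hτ).trans (hmono x y))
  rw [← hL] at haut
  -- the numerical inequality
  have hDc : (((D' ∪ R ∪ T).card : ℕ) : ℝ) ≤ D'.card + R.card + T.card := by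
    have h1 := card_union_le (D' ∪ R) T
    have h2 := card_union_le D' R
    have h4 : (D' ∪ R ∪ T).card ≤ D'.card + R.card + T.card := by omega
    exact_mod_cast h4
  have hTc : (T.card : ℝ) ≤ 5 * (B1.card + T0.card) := by
    have h1 := card_union_le B1 T0
    have h2 : T.card ≤ 5 * (B1.card + T0.card) := by
      refine hT3.trans ?_
      norm_num
      omega
    exact_mod_cast h2
  have hD'r : (64 : ℝ) * D'.card ≤ Fintype.card V := by exact_mod_cast hD'1
  have hk0 : (0 : ℝ) ≤ k := Nat.cast_nonneg _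
  have hκ0 : 0 ≤ Real.logb 2 ((k : ℝ) + 1) := Real.logb_nonneg (by norm_num) (by linarith)
  have hnum := num6 (n := Fintype.card V) (Δ := Δ) (L := L) (b := B.card) (b1 := B1.card)
    (t0 := T0.card) (t := T.card) (d' := D'.card) (r := R.card) (κ := Real.logb 2 ((k : ℝ) + 1))
    (d := (D' ∪ R ∪ T).card) hL13 hΔL hLn hB hB1 hT0
    hD'r hTc (Nat.cast_nonneg _) hκ0 hR hDc (Nat.cast_nonneg _)
  -- the number of embeddings
  have hcount := emb_count G (D := D' ∪ R ∪ T) (T := T) subset_union_right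
  have hgrow := pe_grow hΔ hT2
  have hDn : (D' ∪ R ∪ T).card ≤ Fintype.card V := card_le_univ _
  have hn0 : (0 : ℝ) < Fintype.card V := by linarith
  have hg0 : (0 : ℝ) < gc (fixAut G (D' ∪ R ∪ T) T) := by exact_mod_cast gc_pos _
  have hch0 : (0 : ℝ) < ((Fintype.card V).choose (D' ∪ R ∪ T).card : ℕ) := by
    exact_mod_cast Nat.choose_pos hDn
  have hlogn : 0 ≤ Real.logb 2 (Fintype.card V) := Real.logb_nonneg (by norm_num) (by linarith)
  have hTL : 0 ≤ (T.card : ℝ) * L := by positivity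
  refine finish2 hH hN hloc (A := (((D' ∪ R ∪ T).card : ℕ) : ℝ) *
    (8 * L + 8 * Real.logb 2 (8 * L ^ 2) ^ 2) / (16 * L) +
      2 * (R.card * Real.logb 2 ((k : ℝ) + 1)) +
      (0.023 * Fintype.card V + 6 * ((D' ∪ R ∪ T).card : ℕ)) +
      (Real.logb 2 (Fintype.card V) + T.card * L)) ?_ (by positivity) hnum
  rcases Nat.eq_zero_or_pos (pe G G (D' ∪ R ∪ T)).card with h0 | h0
  · rw [h0, Nat.cast_zero, Real.logb_zero]
    positivity
  have hP0 : (0 : ℝ) < ((pe G G (D' ∪ R ∪ T)).card : ℝ) := by exact_mod_cast h0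
  have hΔ1 : (1 : ℝ) ≤ Δ := by linarith
  have hle : ((pe G G (D' ∪ R ∪ T)).card : ℝ) ≤ gc (fixAut G (D' ∪ R ∪ T) T) *
      (((Fintype.card V).choose (D' ∪ R ∪ T).card : ℕ) *
        (Fintype.card V * (Δ : ℝ) ^ T.card)) := by
    have h1 : ((pe G G (D' ∪ R ∪ T)).card : ℝ) ≤ gc (fixAut G (D' ∪ R ∪ T) T) *
      (((Fintype.card V).choose (D' ∪ R ∪ T).card : ℕ) * (pe G G T).card) := by
      exact_mod_cast hcount
    have h2 : ((pe G G T).card : ℝ) ≤ Fintype.card V * (Δ : ℝ) ^ (T.card - 1) := by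
      exact_mod_cast hgrow
    have h4 : (Δ : ℝ) ^ (T.card - 1) ≤ (Δ : ℝ) ^ T.card :=
      pow_le_pow_right₀ hΔ1 (Nat.sub_le _ _)
    refine h1.trans ?_
    apply mul_le_mul_of_nonneg_left _ hg0.le
    apply mul_le_mul_of_nonneg_left _ hch0.le
    exact h2.trans (mul_le_mul_of_nonneg_left h4 hn0.le)
  have hlog := Real.logb_le_logb_of_le (b := 2) (by norm_num) hP0 hle
  rw [Real.logb_mul hg0.ne' (by positivity), Real.logb_mul hch0.ne' (by positivity),
    Real.logb_mul hn0.ne' (by positivity), Real.logb_pow, ← hL] at hlog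
  have hch := logb_choose_le _ _ hDn
  linarith

end Pool.Agent.H71.LOC
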