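import Pool.Agent.H71.LOC.Near

set_option autoImplicit false
set_option linter.unusedSectionVars false

/-!
# The form with the square of the logarithm, for vertices at distance at most four
-/

namespace Pool.Agent.H71.LOC

open Finset Classical
open Pool.Agent.H234RC (Hypo NonIso Reconstructible exists_hypo)

variable {V : Type} [Fintype V]

theorem nb_ncard' (G : SimpleGraph V) (v : V) : (nb G v).card = {w : V | G.Adj v w}.ncard := by
  rw [ncard_filter]
  rfl

theorem rec_disc (G : SimpleGraph V) (h3 : 3 ≤ Fintype.card V) (h : ¬ CutConn G) :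
    Reconstructible G ∧ Reconstructible Gᶜ := by
  apply rec_of
  intro H π hH hN
  apply h
  intro A hA hB'
  by_contra hcon
  push Not at hcon
  apply hN
  exact Pool.Agent.TH87.RVP.disc_iso hH h3 A hA hB' (fun x hx y hy => hcon x hx y hy)

theorem dst_of_far {G : SimpleGraph V} {x y : V} (hxy : x ≠ y) (h : ¬ Near G x y) :
    (nb G x).card + (nb G y).card ≤ dst G x y := by
  have hd : Disjoint (nb G x) (nb G y) := by
    rw [disjoint_left]
    intro u hu1 hu2
    exact h (near_two (mem_nb.mp hu1) (mem_nb.mp hu2).symm)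
  rw [← card_union_of_disjoint hd, dst_eq]
  apply card_le_card
  intro z hz
  rw [mem_union, mem_nb, mem_nb] at hz
  have hnxy : ¬ G.Adj x y := fun h' => h (near_one h')
  refine mem_filter.mpr ⟨mem_univ _, ?_, ?_, ?_⟩
  · rintro rfl
    rcases hz with h1 | h1
    · exact G.loopless.irrefl _ h1
    · exact hnxy h1.symm
  · rintro rfl
    rcases hz with h1 | h1
    · exact hnxy h1
    · exact G.loopless.irrefl _ h1
  · intro hiff
    rcases hz with h1 | h1
    · exact h (near_two h1 (hiff.mp h1).symm)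
    · exact h (near_two (hiff.mpr h1) h1.symm)

/-- **Theorem S'.** -/
theorem thmS' (G : SimpleGraph V) (h3 : 3 ≤ Fintype.card V) (Δ : ℕ) (hΔ2 : 2 ≤ Δ)
    (hΔ : DegLE G Δ) (B : Finset V)
    (hB : 128 * (B.card : ℝ) * Real.logb 2 Δ ≤ Fintype.card V)
    (h : ∀ x y : V, x ∉ B → y ∉ B → x ≠ y → Near G x y →
      80 * Real.log Δ ^ 2 ≤ (dst G x y : ℝ)) :
    Reconstructible G ∧ Reconstructible Gᶜ := by
  by_cases hcut : CutConn G
  swap
  · exact rec_disc G h3 hcut
  have hΔr : (2 : ℝ) ≤ Δ := by exact_mod_cast hΔ2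
  have hn3 : (3 : ℝ) ≤ Fintype.card V := by exact_mod_cast h3
  have hl2 := Real.log_two_gt_d9
  have hl2' := Real.log_two_lt_d9
  set l : ℝ := Real.log Δ with hl
  have hl0 : 0.69 ≤ l := by
    have := Real.log_le_log (by norm_num : (0 : ℝ) < 2) hΔr
    linarith
  have hB' : 128 * (B.card : ℝ) * l ≤ Fintype.card V := by
    have h1 : l ≤ Real.logb 2 Δ := by
      rw [Real.logb, ← hl, le_div_iff₀ (by linarith)]
      nlinarith
    have h2 : 128 * (B.card : ℝ) * l ≤ 128 * (B.card : ℝ) * Real.logb 2 Δ :=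
      mul_le_mul_of_nonneg_left h1 (by positivity)
    linarith
  have hdeg : ∀ v, ∃ w, G.Adj v w := by
    intro v
    have h1 : ∃ b, b ∉ ({v} : Finset V) := by
      by_contra hcon
      push Not at hcon
      have h2 : (univ : Finset V).card ≤ ({v} : Finset V).card :=
        card_le_card (fun x _ => hcon x)
      rw [card_univ, card_singleton] at h2
      omega
    obtain ⟨x, hx, y, _, hxy⟩ := hcut {v} (singleton_nonempty v) h1
    rw [mem_singleton] at hx
    exact ⟨y, hx ▸ hxy⟩
  have h' : ∀ x y : V, x ∉ B → x ∉ (∅ : Finset V) → y ∉ B → x ≠ y → Near G x y →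
      2 * (40 * l ^ 2) ≤ (dst G x y : ℝ) := by
    intro x y hx _ hy hxy hn
    have := h x y hx hy hxy hn
    linarith
  -- some degree is large
  have hbig : ∃ v, 40 * l ^ 2 ≤ ((nb G v).card : ℝ) := by
    by_contra hlt
    push Not at hlt
    have h1 : Bᶜ ⊆ (low G B ∅ (40 * l ^ 2)).filter (fun x => ∃ b ∈ B, G.Adj x b) := by
      intro x hx
      rw [mem_compl] at hx
      refine mem_filter.mpr ⟨mem_low.mpr ⟨hx, notMem_empty x, hlt x⟩, ?_⟩
      by_contra hcon
      obtain ⟨y, hxy⟩ := hdeg x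
      have hy : y ∉ B := fun hy => hcon ⟨y, hy, hxy⟩
      have h2 := h' x y hx (notMem_empty x) hy (G.ne_of_adj hxy) (near_one hxy)
      have h4 : (dst G x y : ℝ) ≤ (nb G x).card + (nb G y).card := by
        exact_mod_cast dst_le_nb G x y
      linarith [hlt x, hlt y]
    have h2 := (card_le_card h1).trans (low_one h')
    rw [card_compl] at h2
    have h4 : (80 : ℝ) * B.card ≤ Fintype.card V := by
      have h0 : (0 : ℝ) ≤ 128 * (B.card : ℝ) := by positivity
      nlinarith
    have h5 : 80 * B.card ≤ Fintype.card V := by exact_mod_cast h4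
    omega
  obtain ⟨v0, hv0⟩ := hbig
  have hΔl : 40 * l ^ 2 ≤ Δ := by
    have : ((nb G v0).card : ℝ) ≤ Δ := by exact_mod_cast hΔ v0
    linarith
  -- so `l` is not small
  have hl1 : 1 ≤ l := by
    by_contra hlt
    push Not at hlt
    have h1 : (19 : ℝ) ≤ Δ := by nlinarith
    have h2 : Real.log (2 ^ 4) ≤ l := by
      rw [hl]
      apply Real.log_le_log (by norm_num)
      linarith
    rw [Real.log_pow] at h2
    norm_num at h2
    linarith
  apply thmS G h3 Δ hΔ2 hΔ (B ∪ low G B ∅ (40 * l ^ 2))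
  · have h1 : ((B ∪ low G B ∅ (40 * l ^ 2)).card : ℝ) ≤
        B.card + (low G B ∅ (40 * l ^ 2)).card := by exact_mod_cast card_union_le _ _
    have h3 : ((low G B ∅ (40 * l ^ 2)).card : ℝ) =
        ((low G B ∅ (40 * l ^ 2)).filter (fun x => ∃ b ∈ B, G.Adj x b)).card +
        ((low G B ∅ (40 * l ^ 2)).filter (fun x => ¬ ∃ b ∈ B, G.Adj x b)).card := by
      exact_mod_cast low_split (G := G) (B := B) (R := ∅) (c := 40 * l ^ (2 : ℕ))
    have h4 : (((low G B ∅ (40 * l ^ 2)).filter (fun x => ∃ b ∈ B, G.Adj x b)).card : ℝ) ≤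
        B.card := by
      exact_mod_cast low_one h'
    have h5 := low_two h' hdeg
    rw [← hl]
    set w : ℝ := (((low G B ∅ (40 * l ^ 2)).filter
      (fun x => ¬ ∃ b ∈ B, G.Adj x b)).card : ℝ) with hw
    have hw0 : 0 ≤ w := Nat.cast_nonneg _
    have h6 : 40 * (w * l) ≤ Fintype.card V := by
      have h7 : 40 * (w * l) ≤ w * (40 * l ^ 2) := by
        have h8 : w * l * 1 ≤ w * l * l := mul_le_mul_of_nonneg_left hl1 (by positivity)
        nlinarith
      linarith
    have h9 : ((B ∪ low G B ∅ (40 * l ^ 2)).card : ℝ) * l ≤ (2 * B.card + w) * l :=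
      mul_le_mul_of_nonneg_right (by linarith) (by linarith)
    nlinarith
  · intro x y hx hy hxy
    rw [mem_union, not_or] at hx hy
    by_cases hn : Near G x y
    · exact h x y hx.1 hy.1 hxy hn
    · have h1 : ((nb G x).card : ℝ) + (nb G y).card ≤ dst G x y := by
        exact_mod_cast dst_of_far hxy hn
      have h2 : ∀ v, v ∉ B → v ∉ low G B ∅ (40 * l ^ 2) → 40 * l ^ 2 ≤ ((nb G v).card : ℝ) := by
        intro v hv hvl
        by_contra hlt
        push Not at hlt
        exact hvl (mem_low.mpr ⟨hv, notMem_empty v, hlt⟩)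
      have h4 := h2 x hx.1 hx.2
      have h5 := h2 y hy.1 hy.2
      rw [← hl]
      linarith

/-- the form without exceptional near twins -/
theorem thmM (G : SimpleGraph V) (h3 : 3 ≤ Fintype.card V) (Δ : ℕ) (hΔ2 : 2 ≤ Δ)
    (hΔ : DegLE G Δ) (B : Finset V)
    (hB : 128 * (B.card : ℝ) * Real.logb 2 Δ ≤ Fintype.card V)
    (h : ∀ x y : V, x ∉ B → y ∉ B → x ≠ y → Near G x y →
      min (2048 * Real.logb 2 Δ) (80 * Real.log Δ ^ 2) ≤ (dst G x y : ℝ)) :
    Reconstructible G ∧ Reconstructible Gᶜ := by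
  rcases le_total (2048 * Real.logb 2 (Δ : ℝ)) (80 * Real.log Δ ^ 2) with h1 | h1
  · apply thmN G h3 Δ hΔ2 hΔ B ∅ (fun _ => ∅) 0 hB
    · simp
    · exact fun _ _ => rfl
    · exact fun _ => by simp
    · exact fun x hx => absurd hx (notMem_empty x)
    · intro x y hx hy hxy hn _
      have := h x y hx hy hxy hn
      rwa [min_eq_left h1] at this
  · apply thmS' G h3 Δ hΔ2 hΔ B hB
    intro x y hx hy hxy hn
    have := h x y hx hy hxy hn
    rwa [min_eq_right h1] at this

end Pool.Agent.H71.LOC
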