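import Pool.Agent.H71.LOC.Sparse

set_option autoImplicit false
set_option linter.unusedSectionVars false

/-!
# Small contagious sets
-/

namespace Pool.Agent.H71.LOC

open Finset Classical

variable {V : Type} [Fintype V]

/-- the number of the neighbours of `v` in `S` -/
noncomputable def dg (G : SimpleGraph V) (S : Finset V) (v : V) : ℕ :=
  (S.filter (fun u => G.Adj v u)).card

/-- starting with `X`, all of `S` is infected if `v` is infected by `k v` infected neighbours -/
def Perc (G : SimpleGraph V) (k : V → ℕ) (X S : Finset V) : Prop :=
  ∀ A : Finset V, X ⊆ A → A ⊆ S → A ≠ S → ∃ v ∈ S, v ∉ A ∧ k v ≤ dg G A v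

theorem dg_insert {G : SimpleGraph V} {S : Finset V} {v u : V} (hv : v ∉ S) :
    dg G (insert v S) u = dg G S u + (if G.Adj u v then 1 else 0) := by
  unfold dg
  rw [filter_insert]
  split_ifs with h
  · rw [card_insert_of_notMem (fun h' => hv (mem_filter.mp h').1)]
  · rfl

theorem dg_erase {G : SimpleGraph V} {S : Finset V} {v u : V} (hv : v ∈ S) :
    dg G S u = dg G (S.erase v) u + (if G.Adj u v then 1 else 0) := by
  conv_lhs => rw [← insert_erase hv]
  rw [dg_insert (notMem_erase v S)]

theorem dg_mono {G : SimpleGraph V} {S T : Finset V} (h : S ⊆ T) (v : V) :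
    dg G S v ≤ dg G T v :=
  card_le_card (filter_subset_filter _ h)

theorem erase_ne {A S : Finset V} {v : V} (hv : v ∈ A) (hAS : A ⊆ S) (hne : A ≠ S) :
    A.erase v ≠ S.erase v := by
  intro e
  apply hne
  rw [← insert_erase hv, e, insert_erase (hAS hv)]

/-- the weight of `v` -/
noncomputable def wt (G : SimpleGraph V) (S : Finset V) (k : V → ℕ) (v : V) : ℝ :=
  min 1 ((k v : ℝ) / ((dg G S v : ℝ) + 1))

theorem wt_nonneg (G : SimpleGraph V) (S : Finset V) (k : V → ℕ) (v : V) : 0 ≤ wt G S k v := by
  unfold wt
  apply le_min zero_le_one
  positivity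

theorem wt_dec {d k : ℕ} (hd : 1 ≤ d) :
    min (1 : ℝ) (((k - 1 : ℕ) : ℝ) / (((d - 1 : ℕ) : ℝ) + 1)) ≤ min 1 ((k : ℝ) / ((d : ℝ) + 1)) := by
  have hd' : ((d - 1 : ℕ) : ℝ) + 1 = d := by
    rw [Nat.cast_sub hd]
    push_cast
    ring
  rw [hd']
  have hd0 : (0 : ℝ) < d := by exact_mod_cast hd
  rcases Nat.lt_or_ge (d + 1) k with h | h
  · have h1 : (1 : ℝ) ≤ (k : ℝ) / ((d : ℝ) + 1) := by
      rw [one_le_div (by positivity)]
      have : ((d + 1 : ℕ) : ℝ) ≤ k := by exact_mod_cast h.le
      push_cast at this
      exact this
    rw [min_eq_left h1]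
    exact min_le_left _ _
  · apply le_min (min_le_left _ _)
    refine (min_le_right _ _).trans ?_
    rcases Nat.eq_zero_or_pos k with h0 | h0
    · subst h0
      simp
    · rw [div_le_div_iff₀ hd0 (by positivity), Nat.cast_sub h0]
      have h2 : (k : ℝ) ≤ (d : ℝ) + 1 := by exact_mod_cast h
      push_cast
      nlinarith

theorem contagious (G : SimpleGraph V) (m : ℕ) : ∀ (S : Finset V) (k : V → ℕ), S.card = m →
    ∃ X ⊆ S, Perc G k X S ∧ (X.card : ℝ) ≤ ∑ v ∈ S, wt G S k v := by
  induction' m with m ih
  · intro S k hS
    rw [card_eq_zero] at hS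
    subst hS
    refine ⟨∅, Subset.refl _, fun A _ hA hne => absurd (subset_empty.mp hA) hne, by simp⟩
  · intro S k hS
    have hSne : S.Nonempty := by
      rw [← card_pos]
      omega
    by_cases hcase : ∃ v ∈ S, k v = 0 ∨ dg G S v < k v
    · -- `v` comes first
      obtain ⟨v, hv, hk⟩ := hcase
      have hS' : (S.erase v).card = m := by
        rw [card_erase_of_mem hv, hS]
        omega
      obtain ⟨X', hX'S, hP, hc⟩ := ih (S.erase v) (fun u => if G.Adj u v then k u - 1 else k u) hS'
      have hvX' : v ∉ X' := fun h => notMem_erase v S (hX'S h)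
      set X : Finset V := if k v = 0 then X' else insert v X' with hX
      have hX'X : X' ⊆ X := by
        rw [hX]
        split_ifs
        · exact Subset.refl _
        · exact subset_insert _ _
      have hperc : Perc G k X S := by
        intro A hXA hAS hne
        by_cases hvA : v ∈ A
        · obtain ⟨u, hu, huA, hku⟩ := hP (A.erase v)
            (by
              intro x hx
              rw [mem_erase]
              exact ⟨fun e => hvX' (e ▸ hx), hXA (hX'X hx)⟩)
            (erase_subset_erase v hAS) (erase_ne hvA hAS hne)
          have hne' : u ≠ v := (mem_erase.mp hu).1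
          refine ⟨u, (mem_erase.mp hu).2, fun h => huA (mem_erase.mpr ⟨hne', h⟩), ?_⟩
          rw [dg_erase hvA]
          have hku' : (if G.Adj u v then k u - 1 else k u) ≤ dg G (A.erase v) u := hku
          split_ifs at hku' ⊢ with h
          · omega
          · omega
        · have hk0 : k v = 0 := by
            by_contra hk0
            rw [hX, if_neg hk0] at hXA
            exact hvA (hXA (mem_insert_self _ _))
          exact ⟨v, hv, hvA, by rw [hk0]; exact Nat.zero_le _⟩
      have hXS : X ⊆ S := by
        rw [hX]
        split_ifs
        · exact hX'S.trans (erase_subset _ _)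
        · exact insert_subset hv (hX'S.trans (erase_subset _ _))
      refine ⟨X, hXS, hperc, ?_⟩
      -- the weights
      have hsum : ∑ u ∈ S.erase v, wt G (S.erase v)
          (fun u => if G.Adj u v then k u - 1 else k u) u ≤ ∑ u ∈ S.erase v, wt G S k u := by
        apply sum_le_sum
        intro u hu
        unfold wt
        have e1 : dg G S u = dg G (S.erase v) u + (if G.Adj u v then 1 else 0) := dg_erase hv
        by_cases h : G.Adj u v
        · simp only [if_pos h] at e1 ⊢
          have h1 := wt_dec (d := dg G S u) (k := k u) (by omega)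
          rw [show dg G S u - 1 = dg G (S.erase v) u by omega] at h1
          exact h1
        · simp only [if_neg h] at e1 ⊢
          rw [e1, add_zero]
      rw [← add_sum_erase S _ hv]
      have hXc : (X.card : ℝ) ≤ wt G S k v + X'.card := by
        rw [hX]
        split_ifs with h0
        · have := wt_nonneg G S k v
          linarith
        · have h1 : dg G S v < k v := hk.resolve_left h0
          have h2 : wt G S k v = 1 := by
            unfold wt
            apply min_eq_left
            rw [one_le_div (by positivity)]
            have : ((dg G S v + 1 : ℕ) : ℝ) ≤ k v := by exact_mod_cast h1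
            push_cast at this
            exact this
          rw [h2, card_insert_of_notMem hvX']
          push_cast
          linarith
      linarith
    · -- all thresholds are between one and the degree: some vertex can come last
      push Not at hcase
      have hk1 : ∀ v ∈ S, 1 ≤ k v ∧ k v ≤ dg G S v := fun v hv =>
        ⟨Nat.pos_of_ne_zero (hcase v hv).1, (hcase v hv).2⟩
      have hdpos : ∀ v ∈ S, (0 : ℝ) < dg G S v := by
        intro v hv
        have := hk1 v hv
        have h1 : 0 < dg G S v := by omega
        exact_mod_cast h1
      have hex : ∃ v ∈ S, ∑ u ∈ S.filter (fun u => G.Adj u v),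
          (k u : ℝ) / ((dg G S u : ℝ) * ((dg G S u : ℝ) + 1)) ≤ (k v : ℝ) / ((dg G S v : ℝ) + 1) := by
        apply exists_le_of_sum_le hSne
        have e1 : ∀ v ∈ S, ∑ u ∈ S.filter (fun u => G.Adj u v),
            (k u : ℝ) / ((dg G S u : ℝ) * ((dg G S u : ℝ) + 1)) =
            ∑ u ∈ S, if G.Adj u v then (k u : ℝ) / ((dg G S u : ℝ) * ((dg G S u : ℝ) + 1)) else 0 := by
          intro v _
          rw [sum_filter]
        rw [sum_congr rfl e1, sum_comm]
        apply le_of_eq
        apply sum_congr rfl
        intro u hu
        rw [← sum_filter, sum_const, nsmul_eq_mul]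
        have h1 := hdpos u hu
        have e2 : ((S.filter (fun v => G.Adj u v)).card : ℝ) = dg G S u := rfl
        rw [e2]
        field_simp
      obtain ⟨v, hv, hle⟩ := hex
      have hS' : (S.erase v).card = m := by
        rw [card_erase_of_mem hv, hS]
        omega
      obtain ⟨X, hXS, hP, hc⟩ := ih (S.erase v) k hS'
      refine ⟨X, hXS.trans (erase_subset _ _), ?_, ?_⟩
      · intro A hXA hAS hne
        by_cases hA : A.erase v = S.erase v
        · have hvA : v ∉ A := by
            intro hvA
            apply hne
            rw [← insert_erase hvA, hA, insert_erase hv]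
          refine ⟨v, hv, hvA, ?_⟩
          rw [erase_eq_of_notMem hvA] at hA
          have h1 := (hk1 v hv).2
          rw [dg_erase hv, ← hA, if_neg (G.loopless.irrefl v)] at h1
          omega
        · obtain ⟨u, hu, huA, hku⟩ := hP (A.erase v)
            (by
              intro x hx
              exact mem_erase.mpr ⟨(mem_erase.mp (hXS hx)).1, hXA hx⟩)
            (erase_subset_erase v hAS) hA
          refine ⟨u, (mem_erase.mp hu).2, fun h => huA (mem_erase.mpr ⟨(mem_erase.mp hu).1, h⟩), ?_⟩
          exact hku.trans (dg_mono (erase_subset _ _) u)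
      · have hw : ∀ u ∈ S, wt G S k u = (k u : ℝ) / ((dg G S u : ℝ) + 1) := by
          intro u hu
          unfold wt
          apply min_eq_right
          rw [div_le_one (by positivity)]
          have : (k u : ℝ) ≤ dg G S u := by exact_mod_cast (hk1 u hu).2
          linarith
        have hw' : ∀ u ∈ S.erase v, wt G (S.erase v) k u ≤ wt G S k u +
            (if G.Adj u v then (k u : ℝ) / ((dg G S u : ℝ) * ((dg G S u : ℝ) + 1)) else 0) := by
          intro u hu
          have huS := (mem_erase.mp hu).2
          rw [hw u huS]
          have e1 : dg G S u = dg G (S.erase v) u + (if G.Adj u v then 1 else 0) := dg_erase hv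
          unfold wt
          refine (min_le_right _ _).trans ?_
          by_cases h : G.Adj u v
          · rw [if_pos h] at e1 ⊢
            have e2 : ((dg G (S.erase v) u : ℝ) + 1) = dg G S u := by
              rw [e1]
              push_cast
              ring
            rw [e2]
            have h1 := hdpos u huS
            apply le_of_eq
            field_simp
          · rw [if_neg h] at e1 ⊢
            rw [e1]
            simp
        calc (X.card : ℝ) ≤ ∑ u ∈ S.erase v, wt G (S.erase v) k u := hc
          _ ≤ ∑ u ∈ S.erase v, (wt G S k u +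
            (if G.Adj u v then (k u : ℝ) / ((dg G S u : ℝ) * ((dg G S u : ℝ) + 1)) else 0)) :=
              sum_le_sum hw'
          _ = ∑ u ∈ S.erase v, wt G S k u + ∑ u ∈ S.erase v,
            (if G.Adj u v then (k u : ℝ) / ((dg G S u : ℝ) * ((dg G S u : ℝ) + 1)) else 0) :=
              sum_add_distrib
          _ ≤ ∑ u ∈ S.erase v, wt G S k u + wt G S k v := by
              have h1 : ∑ u ∈ S.erase v, (if G.Adj u v then
                  (k u : ℝ) / ((dg G S u : ℝ) * ((dg G S u : ℝ) + 1)) else 0) ≤
                  ∑ u ∈ S, (if G.Adj u v then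
                  (k u : ℝ) / ((dg G S u : ℝ) * ((dg G S u : ℝ) + 1)) else 0) := by
                apply sum_le_sum_of_subset_of_nonneg (erase_subset _ _)
                intro u _ _
                split_ifs
                · positivity
                · exact le_refl _
              rw [sum_filter] at hle
              rw [hw v hv]
              linarith
          _ = ∑ u ∈ S, wt G S k u := by rw [add_comm, add_sum_erase S _ hv]

end Pool.Agent.H71.LOC
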