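import Pool.Agent.H71.LOC.Grow
import Pool.Graph.R_seed8.TH87.RVP.Fin

set_option autoImplicit false
set_option linter.unusedSectionVars false

/-!
# Graphs of bounded degree without near twins are reconstructible
-/

namespace Pool.Agent.H71.LOC

open Finset Classical
open Pool.Agent.H234RC (Hypo NonIso Reconstructible exists_hypo)

variable {V : Type} [Fintype V]

theorem degLE_of_ncard {G : SimpleGraph V} {Δ : ℕ} (h : ∀ v : V, {w : V | G.Adj v w}.ncard ≤ Δ) :
    DegLE G Δ := by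
  intro v
  rw [← ncard_filter]
  exact h v

theorem dst_le_deg (G : SimpleGraph V) (x y : V) :
    dst G x y ≤ (univ.filter (fun w => G.Adj x w)).card +
      (univ.filter (fun w => G.Adj y w)).card := by
  rw [dst_eq]
  refine le_trans (card_le_card ?_) (card_union_le _ _)
  intro z hz
  rw [mem_filter] at hz
  rw [mem_union, mem_filter, mem_filter]
  by_cases h : G.Adj x z
  · exact Or.inl ⟨mem_univ _, h⟩
  · right
    refine ⟨mem_univ _, ?_⟩
    by_contra h2
    exact hz.2.2.2 (iff_of_false h h2)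

theorem exists_dom (G : SimpleGraph V) (Δ : ℕ) (hΔ2 : 2 ≤ Δ) (hΔ : DegLE G Δ) (B : Finset V)
    (q : ℝ) (hq : 0 < q) (hn0 : 0 < Fintype.card V)
    (h : ∀ x y : V, x ∉ B → y ∉ B → x ≠ y → q ≤ (dst G x y : ℝ)) :
    ∃ D : Finset V, (∀ v, v ∈ D ∨ ∃ s ∈ D, G.Adj v s) ∧ Loc G D ∧
      (D.card : ℝ) ≤ B.card + 2 + 3 * Fintype.card V * Real.log Δ / q +
        2 * Fintype.card V / Δ := by
  have hn : (0 : ℝ) < Fintype.card V := by exact_mod_cast hn0
  have hΔr : (2 : ℝ) ≤ Δ := by exact_mod_cast hΔ2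
  have hΔpos : (0 : ℝ) < Δ := by linarith
  set n : ℝ := (Fintype.card V : ℝ) with hndef
  set L : ℝ := Real.log Δ with hL
  have hL0 : 0 < L := Real.log_pos (by linarith)
  have hexpL : Real.exp (-L) = (Δ : ℝ)⁻¹ := by
    rw [Real.exp_neg, hL, Real.exp_log hΔpos]
  set t : ℝ := 3 * n * L / q with ht
  have ht0 : 0 ≤ t := by positivity
  set m : ℕ := ⌈t⌉₊ with hm
  have htm : t ≤ m := Nat.le_ceil t
  let N : V → Finset V := fun v => univ.filter (fun w => G.Adj v w)
  let Zs : V → V → Finset V := fun x y =>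
    univ.filter (fun z => z ≠ x ∧ z ≠ y ∧ ¬ (G.Adj x z ↔ G.Adj y z))
  let A : V × V → Finset V := fun p => if p.1 = p.2 then N p.1 else Zs p.1 p.2
  let P1 : Finset (V × V) := univ.filter (fun p => p.1 = p.2 ∧ q / 2 ≤ ((N p.1).card : ℝ))
  let P2 : Finset (V × V) := univ.filter (fun p => p.1 ≠ p.2 ∧ q ≤ ((Zs p.1 p.2).card : ℝ) ∧
    ∃ w, G.Adj w p.1 ∧ G.Adj w p.2)
  have hdisj : Disjoint P1 P2 := by
    rw [disjoint_left]
    intro p h1 h2
    exact (mem_filter.mp h2).2.1 (mem_filter.mp h1).2.1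
  obtain ⟨Z, hZm, hZ⟩ := average A m (P1 ∪ P2)
  rw [sum_union hdisj] at hZ
  -- the general estimate
  have hest : ∀ a : ℝ, ∀ S : Finset V, 0 ≤ a → a ≤ (S.card : ℝ) →
      (1 - (S.card : ℝ) / n) ^ m ≤ Real.exp (-(a * t / n)) := by
    intro a S ha haS
    have h0 : 0 ≤ 1 - (S.card : ℝ) / n := by
      rw [sub_nonneg, div_le_one hn, hndef]
      exact_mod_cast card_le_univ S
    have h1 : 1 - (S.card : ℝ) / n ≤ Real.exp (-(a / n)) := by
      have h2 := Real.add_one_le_exp (-(a / n))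
      have h3 : a / n ≤ (S.card : ℝ) / n := div_le_div_of_nonneg_right haS hn.le
      linarith
    have h2 : (1 - (S.card : ℝ) / n) ^ m ≤ Real.exp (-(a / n)) ^ m := pow_le_pow_left₀ h0 h1 m
    rw [← Real.exp_nat_mul] at h2
    refine h2.trans (Real.exp_le_exp.mpr ?_)
    have h3 : a * t / n ≤ m * (a / n) := by
      have h4 : a * t / n = t * (a / n) := by ring
      rw [h4]
      exact mul_le_mul_of_nonneg_right htm (by positivity)
    linarith
  have hP1 : ∑ p ∈ P1, (1 - ((A p).card : ℝ) / n) ^ m ≤ n / Δ := by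
    have h1 : ∀ p ∈ P1, (1 - ((A p).card : ℝ) / n) ^ m ≤ (Δ : ℝ)⁻¹ := by
      intro p hp
      have hp' := (mem_filter.mp hp).2
      have e1 : A p = N p.1 := if_pos hp'.1
      rw [e1]
      refine (hest (q / 2) (N p.1) (by linarith) hp'.2).trans ?_
      rw [← hexpL]
      apply Real.exp_le_exp.mpr
      have e2 : q / 2 * t / n = 3 / 2 * L := by
        rw [ht]
        field_simp
      rw [e2]
      linarith
    have h2 : (P1.card : ℝ) ≤ n := by
      have h3 : P1.card ≤ (univ : Finset V).card := by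
        apply card_le_card_of_injOn (fun p => p.1) (fun _ _ => mem_coe.mpr (mem_univ _))
        intro a ha b hb hab
        have ha' := (mem_filter.mp (mem_coe.mp ha)).2.1
        have hb' := (mem_filter.mp (mem_coe.mp hb)).2.1
        apply Prod.ext hab
        rw [← ha', ← hb']
        exact hab
      rw [hndef, ← card_univ]
      exact_mod_cast h3
    calc ∑ p ∈ P1, (1 - ((A p).card : ℝ) / n) ^ m ≤ ∑ p ∈ P1, (Δ : ℝ)⁻¹ := sum_le_sum h1
      _ = P1.card * (Δ : ℝ)⁻¹ := by rw [sum_const, nsmul_eq_mul]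
      _ ≤ n * (Δ : ℝ)⁻¹ := mul_le_mul_of_nonneg_right h2 (by positivity)
      _ = n / Δ := by rw [div_eq_mul_inv]
  have hP2 : ∑ p ∈ P2, (1 - ((A p).card : ℝ) / n) ^ m ≤ n / Δ := by
    have h1 : ∀ p ∈ P2, (1 - ((A p).card : ℝ) / n) ^ m ≤ ((Δ : ℝ)⁻¹) ^ 3 := by
      intro p hp
      have hp' := (mem_filter.mp hp).2
      have e1 : A p = Zs p.1 p.2 := if_neg hp'.1
      rw [e1]
      refine (hest q (Zs p.1 p.2) hq.le hp'.2.1).trans ?_
      rw [← hexpL, ← Real.exp_nat_mul]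
      apply Real.exp_le_exp.mpr
      have e2 : q * t / n = 3 * L := by
        rw [ht]
        field_simp
      rw [e2]
      push_cast
      linarith
    have h2 : (P2.card : ℝ) ≤ n * Δ ^ 2 := by
      have h3 : P2 ⊆ univ.biUnion (fun w => (N w) ×ˢ (N w)) := by
        intro p hp
        obtain ⟨w, hw1, hw2⟩ := (mem_filter.mp hp).2.2.2
        rw [mem_biUnion]
        exact ⟨w, mem_univ _, mem_product.mpr ⟨mem_filter.mpr ⟨mem_univ _, hw1⟩,
          mem_filter.mpr ⟨mem_univ _, hw2⟩⟩⟩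
      have h4 : P2.card ≤ Fintype.card V * (Δ * Δ) := by
        refine (card_le_card h3).trans (card_biUnion_le.trans ?_)
        rw [← card_univ, ← smul_eq_mul, ← sum_const]
        apply sum_le_sum
        intro w _
        rw [card_product]
        exact Nat.mul_le_mul (hΔ w) (hΔ w)
      have h5 : ((P2.card : ℕ) : ℝ) ≤ ((Fintype.card V * (Δ * Δ) : ℕ) : ℝ) := by exact_mod_cast h4
      push_cast at h5
      rw [pow_two]
      exact h5
    calc ∑ p ∈ P2, (1 - ((A p).card : ℝ) / n) ^ m ≤ ∑ p ∈ P2, ((Δ : ℝ)⁻¹) ^ 3 := sum_le_sum h1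
      _ = P2.card * ((Δ : ℝ)⁻¹) ^ 3 := by rw [sum_const, nsmul_eq_mul]
      _ ≤ (n * Δ ^ 2) * ((Δ : ℝ)⁻¹) ^ 3 := mul_le_mul_of_nonneg_right h2 (by positivity)
      _ = n / Δ := by field_simp
  set U : Finset (V × V) := (P1 ∪ P2).filter (fun p => ∀ z ∈ Z, z ∉ A p) with hU
  have hUc : (U.card : ℝ) ≤ 2 * n / Δ := by
    have : 2 * n / Δ = n / Δ + n / Δ := by ring
    rw [this]
    linarith
  set E : Finset V := univ.filter (fun v => v ∉ B ∧ ((N v).card : ℝ) < q / 2) with hE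
  have hEc : E.card ≤ 1 := by
    rw [card_le_one]
    intro a ha b hb
    rw [hE, mem_filter] at ha hb
    by_contra hab
    have h1 := h a b ha.2.1 hb.2.1 hab
    have h2 : (dst G a b : ℝ) ≤ (N a).card + (N b).card := by exact_mod_cast dst_le_deg G a b
    linarith [ha.2.2, hb.2.2]
  refine ⟨B ∪ E ∪ Z ∪ U.image Prod.fst, ?_, ?_, ?_⟩
  · intro v
    by_contra hcon
    rw [not_or] at hcon
    obtain ⟨h1, h2⟩ := hcon
    simp only [mem_union, not_or] at h1
    obtain ⟨⟨⟨hvB, hvE⟩, hvZ⟩, hvU⟩ := h1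
    have hdeg : q / 2 ≤ ((N v).card : ℝ) := by
      by_contra hlt
      push Not at hlt
      exact hvE (mem_filter.mpr ⟨mem_univ _, hvB, hlt⟩)
    apply hvU
    rw [mem_image]
    refine ⟨(v, v), ?_, rfl⟩
    rw [hU, mem_filter]
    refine ⟨mem_union_left _ (mem_filter.mpr ⟨mem_univ _, rfl, hdeg⟩), fun z hz hzA => ?_⟩
    have e1 : A (v, v) = N v := if_pos rfl
    rw [e1] at hzA
    exact h2 ⟨z, mem_union_left _ (mem_union_right _ hz), (mem_filter.mp hzA).2⟩
  · intro x y hx hy hxy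
    by_contra hne
    have hx' := hx
    simp only [mem_union, not_or] at hx hy
    -- `x` has a neighbour in the set
    have hnb : ∃ s ∈ B ∪ E ∪ Z ∪ U.image Prod.fst, G.Adj x s := by
      by_contra hcon
      have hdeg : q / 2 ≤ ((N x).card : ℝ) := by
        by_contra hlt
        push Not at hlt
        exact hx.1.1.2 (mem_filter.mpr ⟨mem_univ _, hx.1.1.1, hlt⟩)
      apply hx.2
      rw [mem_image]
      refine ⟨(x, x), ?_, rfl⟩
      rw [hU, mem_filter]
      refine ⟨mem_union_left _ (mem_filter.mpr ⟨mem_univ _, rfl, hdeg⟩), fun z hz hzA => ?_⟩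
      have e1 : A (x, x) = N x := if_pos rfl
      rw [e1] at hzA
      exact hcon ⟨z, mem_union_left _ (mem_union_right _ hz), (mem_filter.mp hzA).2⟩
    obtain ⟨s, hs, hxs⟩ := hnb
    have hys := (hxy s hs).mp hxs
    have hd := h x y hx.1.1.1 hy.1.1.1 hne
    rw [dst_eq] at hd
    have hpU : (x, y) ∉ U := by
      intro hp
      exact hx.2 (mem_image.mpr ⟨(x, y), hp, rfl⟩)
    apply hpU
    rw [hU, mem_filter]
    refine ⟨mem_union_right _ (mem_filter.mpr ⟨mem_univ _, hne, ?_, s, hxs.symm, hys.symm⟩),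
      fun z hz hzA => ?_⟩
    · convert hd using 3
    have e1 : A (x, y) = Zs x y := if_neg hne
    rw [e1] at hzA
    have h3 := (mem_filter.mp hzA).2
    exact h3.2.2 (hxy z (mem_union_left _ (mem_union_right _ hz)))
  · have h1 : (B ∪ E ∪ Z ∪ U.image Prod.fst).card ≤ B.card + E.card + Z.card + U.card := by
      refine (card_union_le _ _).trans ?_
      have h2 := card_union_le (B ∪ E) Z
      have h3 := card_union_le B E
      have h4 := card_image_le (s := U) (f := Prod.fst)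
      omega
    have h2 : ((B ∪ E ∪ Z ∪ U.image Prod.fst).card : ℝ) ≤
        B.card + E.card + Z.card + U.card := by exact_mod_cast h1
    have h3 : (E.card : ℝ) ≤ 1 := by exact_mod_cast hEc
    have h4 : (Z.card : ℝ) ≤ m := by exact_mod_cast hZm
    have h5 : (m : ℝ) < t + 1 := Nat.ceil_lt_add_one ht0
    linarith

/-- the numerical inequality -/
theorem num3 {n Δ b d : ℝ} (hn0 : 0 < n) (hΔ0 : 0 < Δ) (hd0 : 0 ≤ d)
    (hΔL : 40 * Real.log Δ ^ 2 ≤ Δ) (hnL : 40 * Real.log Δ ^ 2 + 1 ≤ n)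
    (hL : 6.93 ≤ Real.log Δ) (hb : 24 * b * Real.log Δ ≤ n)
    (hd : d + 2 ≤ 3 * (b + 2 + 3 * n * Real.log Δ / (80 * Real.log Δ ^ 2) + 2 * n / Δ)) :
    2 + 2 * Real.logb 2 n + d * (2 * Real.logb 2 Δ + 1) < n := by
  have hl2 := Real.log_two_gt_d9
  have hl2' := Real.log_two_lt_d9
  set L : ℝ := Real.log Δ with hLdef
  have hLpos : 0 < L := by linarith
  have hn1 : 1900 ≤ n := by nlinarith
  have e1 : 2 * Real.logb 2 Δ ≤ 2.8854 * L := by
    rw [Real.logb, ← hLdef]
    have : L / Real.log 2 ≤ 1.4427 * L := by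
      rw [div_le_iff₀ (by linarith)]
      nlinarith
    linarith
  have e2 : 2 * Real.logb 2 n ≤ 0.02 * n := by
    -- `log n ≤ n / 1024 + log 1024 - 1`
    have h1 : Real.log n ≤ n / 1024 + 10 * Real.log 2 - 1 := by
      have h2 := Real.log_le_sub_one_of_pos (div_pos hn0 (by norm_num : (0 : ℝ) < 1024))
      rw [Real.log_div hn0.ne' (by norm_num)] at h2
      have h3 : Real.log 1024 = 10 * Real.log 2 := by
        have : (1024 : ℝ) = 2 ^ (10 : ℕ) := by norm_num
        rw [this, Real.log_pow]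
        norm_num
      rw [h3] at h2
      linarith
    have h4 : Real.logb 2 n ≤ 0.01 * n := by
      rw [Real.logb, div_le_iff₀ (by linarith)]
      nlinarith
    linarith
  have e3 : b ≤ n / (24 * L) := by
    rw [le_div_iff₀ (by positivity)]
    linarith
  have e4 : 3 * n * L / (80 * L ^ 2) = 3 / 80 * (n / L) := by
    field_simp
  have e5 : n / (24 * L) = 1 / 24 * (n / L) := by
    field_simp
  have e6 : 2 * n / Δ ≤ 1 / 20 * (n / L ^ 2) := by
    rw [div_le_iff₀ hΔ0]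
    have h1 : 0 ≤ 1 / 20 * (n / L ^ 2) := by positivity
    have h2 := mul_le_mul_of_nonneg_left hΔL h1
    have h3 : 1 / 20 * (n / L ^ 2) * (40 * L ^ 2) = 2 * n := by
      field_simp
      norm_num
    linarith
  rw [e4] at hd
  rw [e5] at e3
  have hd' : d ≤ 0.2375 * (n / L) + 3 / 20 * (n / L ^ 2) + 4 := by
    linarith
  have e7 : d * (2 * Real.logb 2 Δ + 1) ≤
      (0.2375 * (n / L) + 3 / 20 * (n / L ^ 2) + 4) * (2.8854 * L + 1) := by
    have h1 : 0 ≤ 0.2375 * (n / L) + 3 / 20 * (n / L ^ 2) + 4 := by positivity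
    calc d * (2 * Real.logb 2 Δ + 1) ≤ d * (2.8854 * L + 1) :=
          mul_le_mul_of_nonneg_left (by linarith) hd0
      _ ≤ _ := mul_le_mul_of_nonneg_right hd' (by linarith)
  have e8 : (0.2375 * (n / L) + 3 / 20 * (n / L ^ 2) + 4) * (2.8854 * L + 1) =
      0.6852825 * n + 0.67031 * (n / L) + 3 / 20 * (n / L ^ 2) + 11.5416 * L + 4 := by
    field_simp
    ring
  have e9 : n / L ≤ 0.1444 * n := by
    rw [div_le_iff₀ hLpos]
    nlinarith
  have e10 : n / L ^ 2 ≤ 0.0209 * n := by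
    rw [div_le_iff₀ (by positivity)]
    have : 1 ≤ 0.0209 * L ^ 2 := by nlinarith
    nlinarith
  have e11 : L ≤ L ^ 2 / 14 + 3.5 := by nlinarith [sq_nonneg (L - 7)]
  rw [e8] at e7
  linarith

/-- **Theorem S.** -/
theorem thmS (G : SimpleGraph V) (h3 : 3 ≤ Fintype.card V) (Δ : ℕ) (hΔ2 : 2 ≤ Δ)
    (hΔ : DegLE G Δ) (B : Finset V)
    (hB : 24 * (B.card : ℝ) * Real.log Δ ≤ Fintype.card V)
    (h : ∀ x y : V, x ∉ B → y ∉ B → x ≠ y → 80 * Real.log Δ ^ 2 ≤ (dst G x y : ℝ)) :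
    Reconstructible G ∧ Reconstructible Gᶜ := by
  apply rec_of
  intro H π hH hN
  have hΔr : (2 : ℝ) ≤ Δ := by exact_mod_cast hΔ2
  have hn3 : (3 : ℝ) ≤ Fintype.card V := by exact_mod_cast h3
  have hl2 := Real.log_two_gt_d9
  have hlog2 : Real.log 2 ≤ Real.log Δ := Real.log_le_log (by norm_num) hΔr
  -- `G` is connected
  have hconn : CutConn G := by
    intro A hA hB'
    by_contra hcon
    push Not at hcon
    apply hN
    exact Pool.Agent.TH87.RVP.disc_iso hH h3 A hA hB' (fun x hx y hy => hcon x hx y hy)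
  -- two vertices outside `B`
  have hBc : B.card + 2 ≤ Fintype.card V := by
    have h1 : (16 : ℝ) * B.card ≤ Fintype.card V := by
      have h0 : (0 : ℝ) ≤ B.card := Nat.cast_nonneg _
      nlinarith
    have h4 : 16 * B.card ≤ Fintype.card V := by exact_mod_cast h1
    omega
  have hcompl : 1 < (Bᶜ).card := by
    rw [card_compl]
    omega
  obtain ⟨x, hx, y, hy, hxy⟩ := one_lt_card.mp hcompl
  rw [mem_compl] at hx hy
  have hd := h x y hx hy hxy
  have hd1 : (dst G x y : ℝ) ≤ 2 * Δ := by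
    have h1 := dst_le_deg G x y
    have h2 := hΔ x
    have h4 := hΔ y
    have h5 : dst G x y ≤ 2 * Δ := by omega
    exact_mod_cast h5
  have hdn : (dst G x y : ℝ) ≤ 2 * (Fintype.card V - 1) := by
    have h1 := dst_le G hxy
    have h2 : ((dst G x y + 2 : ℕ) : ℝ) ≤ Fintype.card V := by exact_mod_cast h1
    push_cast at h2
    linarith
  have hΔL : 40 * Real.log Δ ^ 2 ≤ (Δ : ℝ) := by linarith
  have hnL : 40 * Real.log Δ ^ 2 + 1 ≤ (Fintype.card V : ℝ) := by linarith
  have hpow : ∀ j : ℕ, 2 ^ j ≤ Δ → (j : ℝ) * Real.log 2 ≤ Real.log Δ := by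
    intro j hj
    rw [← Real.log_pow]
    apply Real.log_le_log (by positivity)
    have h1 : ((2 ^ j : ℕ) : ℝ) ≤ (Δ : ℝ) := by exact_mod_cast hj
    push_cast at h1
    exact h1
  have hbig : 1024 ≤ Δ := by
    by_contra hlt
    have hcases : (Δ < 4) ∨ (4 ≤ Δ ∧ Δ < 8) ∨ (8 ≤ Δ ∧ Δ < 16) ∨ (16 ≤ Δ ∧ Δ < 32) ∨
        (32 ≤ Δ ∧ Δ < 64) ∨ (64 ≤ Δ ∧ Δ < 128) ∨ (128 ≤ Δ ∧ Δ < 256) ∨
        (256 ≤ Δ ∧ Δ < 512) ∨ (512 ≤ Δ ∧ Δ < 1024) := by omega
    rcases hcases with h1 | ⟨h1, h2⟩ | ⟨h1, h2⟩ | ⟨h1, h2⟩ | ⟨h1, h2⟩ | ⟨h1, h2⟩ | ⟨h1, h2⟩ |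
      ⟨h1, h2⟩ | ⟨h1, h2⟩
    · have h4 := hpow 1 (by omega)
      have h5 : (Δ : ℝ) < 4 := by exact_mod_cast h1
      norm_num at h4
      nlinarith
    · have h4 := hpow 2 (by omega)
      have h5 : (Δ : ℝ) < 8 := by exact_mod_cast h2
      norm_num at h4
      nlinarith
    · have h4 := hpow 3 (by omega)
      have h5 : (Δ : ℝ) < 16 := by exact_mod_cast h2
      norm_num at h4
      nlinarith
    · have h4 := hpow 4 (by omega)
      have h5 : (Δ : ℝ) < 32 := by exact_mod_cast h2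
      norm_num at h4
      nlinarith
    · have h4 := hpow 5 (by omega)
      have h5 : (Δ : ℝ) < 64 := by exact_mod_cast h2
      norm_num at h4
      nlinarith
    · have h4 := hpow 6 (by omega)
      have h5 : (Δ : ℝ) < 128 := by exact_mod_cast h2
      norm_num at h4
      nlinarith
    · have h4 := hpow 7 (by omega)
      have h5 : (Δ : ℝ) < 256 := by exact_mod_cast h2
      norm_num at h4
      nlinarith
    · have h4 := hpow 8 (by omega)
      have h5 : (Δ : ℝ) < 512 := by exact_mod_cast h2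
      norm_num at h4
      nlinarith
    · have h4 := hpow 9 (by omega)
      have h5 : (Δ : ℝ) < 1024 := by exact_mod_cast h2
      norm_num at h4
      nlinarith
  have h10 := hpow 10 (by omega)
  norm_num at h10
  have hL0 : 6.93 ≤ Real.log Δ := by linarith
  -- the locating set
  obtain ⟨S, hS1, hS2, hS3⟩ := exists_dom G Δ hΔ2 hΔ B (80 * Real.log Δ ^ 2) (by positivity)
    (by omega) h
  have hSne : S.Nonempty := by
    rcases hS1 x with h1 | ⟨s, hs, _⟩
    · exact ⟨x, h1⟩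
    · exact ⟨s, hs⟩
  obtain ⟨D, hD1, hD2, hD3⟩ := extend hconn hSne hS1
  have hDloc : Loc G D := by
    intro a b ha hb hab
    exact hS2 a b (fun h' => ha (hD1 h')) (fun h' => hb (hD1 h')) (fun d hd' => hab d (hD1 hd'))
  have hnum : 2 + 2 * Real.logb 2 (Fintype.card V) + (D.card : ℝ) * (2 * Real.logb 2 Δ + 1) <
      (Fintype.card V : ℝ) := by
    apply num3 (by linarith) (by linarith) (Nat.cast_nonneg _) hΔL hnL hL0 hB
    have h1 : ((D.card + 2 : ℕ) : ℝ) ≤ ((3 * S.card : ℕ) : ℝ) := by exact_mod_cast hD3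
    push_cast at h1
    linarith
  -- the counting bound
  have hlogn : 0 ≤ Real.logb 2 (Fintype.card V) := Real.logb_nonneg (by norm_num) (by linarith)
  have hlogΔ : 0 ≤ Real.logb 2 Δ := Real.logb_nonneg (by norm_num) (by linarith)
  have hDn : D.card ≤ Fintype.card V := card_le_univ D
  have hDu : D ≠ univ := by
    intro e
    rw [e, card_univ] at hnum
    have h0 : (0 : ℝ) ≤ Fintype.card V := Nat.cast_nonneg _
    nlinarith
  have hb := bound hH hN hDloc hDu
  have hpos : 1 ≤ (pe G G univ).card := (aut_pos G).trans (aut_le_pe G)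
  have hpe := pe_grow hΔ hD2
  have e1 : ((Fintype.card V * Δ ^ (D.card - 1) : ℕ) : ℝ) ≤
      (2 : ℝ) ^ (Real.logb 2 (Fintype.card V) + (D.card : ℝ) * Real.logb 2 Δ) := by
    rw [Real.rpow_add (by norm_num), Real.rpow_logb (by norm_num) (by norm_num) (by linarith),
      mul_comm (D.card : ℝ), Real.rpow_mul (by norm_num),
      Real.rpow_logb (by norm_num) (by norm_num) (by linarith), Real.rpow_natCast]
    push_cast
    apply mul_le_mul_of_nonneg_left _ (by linarith)
    exact pow_le_pow_right₀ (by linarith) (by omega)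
  have e2 : ((pe G G D).card : ℝ) ≤
      (2 : ℝ) ^ (Real.logb 2 (Fintype.card V) + (D.card : ℝ) * Real.logb 2 Δ) := by
    refine le_trans ?_ e1
    exact_mod_cast hpe
  have e3 : ((pe G G D).card : ℝ) ^ 2 ≤
      (2 : ℝ) ^ (2 * (Real.logb 2 (Fintype.card V) + (D.card : ℝ) * Real.logb 2 Δ)) := by
    refine (pow_le_pow_left₀ (Nat.cast_nonneg _) e2 2).trans (le_of_eq ?_)
    rw [← Real.rpow_natCast, ← Real.rpow_mul (by norm_num)]
    congr 1
    push_cast
    ring
  have e4 : (2 : ℝ) ^ (Fintype.card V - D.card) =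
      (2 : ℝ) ^ ((Fintype.card V : ℝ) - (D.card : ℝ)) := by
    rw [← Nat.cast_sub hDn, Real.rpow_natCast]
  have e5 : (4 : ℝ) * ((pe G G D).card : ℝ) ^ 2 < (2 : ℝ) ^ (Fintype.card V - D.card) := by
    rw [e4]
    have e6 : (4 : ℝ) = (2 : ℝ) ^ (2 : ℝ) := by norm_num
    calc (4 : ℝ) * ((pe G G D).card : ℝ) ^ 2 ≤
        4 * (2 : ℝ) ^ (2 * (Real.logb 2 (Fintype.card V) + (D.card : ℝ) * Real.logb 2 Δ)) := by
          linarith
      _ = (2 : ℝ) ^ (2 + 2 * (Real.logb 2 (Fintype.card V) + (D.card : ℝ) * Real.logb 2 Δ)) := by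
          rw [e6, ← Real.rpow_add (by norm_num)]
      _ < _ := by
          apply Real.rpow_lt_rpow_of_exponent_lt (by norm_num)
          linarith
  have e7 : 4 * (pe G G D).card ^ 2 < 2 ^ (Fintype.card V - D.card) := by exact_mod_cast e5
  have e8 : 2 ^ (Fintype.card V - D.card) ≤
      (pe G G univ).card ^ 2 * 2 ^ (Fintype.card V - D.card) := by
    have h1 := Nat.pow_le_pow_left hpos 2
    calc 2 ^ (Fintype.card V - D.card) = 1 ^ 2 * 2 ^ (Fintype.card V - D.card) := by ring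
      _ ≤ _ := Nat.mul_le_mul_right _ h1
  omega

end Pool.Agent.H71.LOC
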