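import Pool.Agent.H71.LOC.Cnt
import Pool.Agent.H71.LOC.Col
import Pool.Agent.H71.LOC.Sparse

set_option autoImplicit false
set_option linter.unusedSectionVars false

/-!
# Choice of the locating set
-/

namespace Pool.Agent.H71.LOC

open Finset Classical

variable {V : Type} [Fintype V]

/-- joined by a walk of length at most four -/
def Near (G : SimpleGraph V) (x y : V) : Prop := ∃ p : G.Walk x y, p.length ≤ 4

theorem near_one {G : SimpleGraph V} {x y : V} (h : G.Adj x y) : Near G x y :=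
  ⟨SimpleGraph.Walk.cons h .nil, by simp⟩

theorem near_two {G : SimpleGraph V} {x a y : V} (h : G.Adj x a) (h' : G.Adj a y) : Near G x y :=
  ⟨SimpleGraph.Walk.cons h (SimpleGraph.Walk.cons h' .nil), by simp⟩

theorem near_four {G : SimpleGraph V} {x y : V} (h : Four G x y) : Near G x y := by
  obtain ⟨a, t, b, h1, h2, h3, h4⟩ := h
  exact ⟨SimpleGraph.Walk.cons h1 (SimpleGraph.Walk.cons h2 (SimpleGraph.Walk.cons h3
    (SimpleGraph.Walk.cons h4 .nil))), by simp⟩

theorem dst_le_nb (G : SimpleGraph V) (x y : V) :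
    dst G x y ≤ (nb G x).card + (nb G y).card := dst_le_deg G x y

section low

variable (G : SimpleGraph V) (B R : Finset V) (c : ℝ)

/-- the vertices of low degree outside `B` and `R` -/
noncomputable def low : Finset V :=
  univ.filter (fun v => v ∉ B ∧ v ∉ R ∧ ((nb G v).card : ℝ) < c)

theorem mem_low {G : SimpleGraph V} {B R : Finset V} {c : ℝ} {v : V} :
    v ∈ low G B R c ↔ v ∉ B ∧ v ∉ R ∧ ((nb G v).card : ℝ) < c := by
  unfold low
  rw [mem_filter]
  exact and_iff_right (mem_univ _)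

variable {G B R c}

theorem low_sep (h : ∀ x y : V, x ∉ B → x ∉ R → y ∉ B → x ≠ y → Near G x y →
    2 * c ≤ (dst G x y : ℝ))
    {x y : V} (hx : x ∈ low G B R c) (hy : y ∈ low G B R c) (hn : Near G x y) : x = y := by
  by_contra hne
  rw [mem_low] at hx hy
  have h1 := h x y hx.1 hx.2.1 hy.1 hne hn
  have h2 : (dst G x y : ℝ) ≤ (nb G x).card + (nb G y).card := by exact_mod_cast dst_le_nb G x y
  linarith [hx.2.2, hy.2.2]

theorem low_one (h : ∀ x y : V, x ∉ B → x ∉ R → y ∉ B → x ≠ y → Near G x y →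
    2 * c ≤ (dst G x y : ℝ)) :
    ((low G B R c).filter (fun x => ∃ b ∈ B, G.Adj x b)).card ≤ B.card := by
  have hex : ∀ x : V, ∃ b, x ∈ (low G B R c).filter (fun x => ∃ b ∈ B, G.Adj x b) →
      b ∈ B ∧ G.Adj x b := by
    intro x
    by_cases hx : x ∈ (low G B R c).filter (fun x => ∃ b ∈ B, G.Adj x b)
    · obtain ⟨b, hb, hxb⟩ := (mem_filter.mp hx).2
      exact ⟨b, fun _ => ⟨hb, hxb⟩⟩
    · exact ⟨x, fun h' => absurd h' hx⟩
  choose f hf using hex
  apply card_le_card_of_injOn f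
  · intro x hx
    exact mem_coe.mpr (hf x (mem_coe.mp hx)).1
  · intro x hx y hy hxy
    have hx' := hf x (mem_coe.mp hx)
    have hy' := hf y (mem_coe.mp hy)
    apply low_sep h (mem_filter.mp (mem_coe.mp hx)).1 (mem_filter.mp (mem_coe.mp hy)).1
    rw [← hxy] at hy'
    exact near_two hx'.2 hy'.2.symm

theorem low_two
    (h : ∀ x y : V, x ∉ B → x ∉ R → y ∉ B → x ≠ y → Near G x y → 2 * c ≤ (dst G x y : ℝ))
    (hdeg : ∀ v, ∃ w, G.Adj v w) :
    (((low G B R c).filter (fun x => ¬ ∃ b ∈ B, G.Adj x b)).card : ℝ) * c ≤ Fintype.card V := by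
  choose f hf using hdeg
  have h1 : ∀ x ∈ (low G B R c).filter (fun x => ¬ ∃ b ∈ B, G.Adj x b),
      c ≤ ((nb G (f x)).card : ℝ) := by
    intro x hx
    rw [mem_filter] at hx
    have hfB : f x ∉ B := fun hb => hx.2 ⟨f x, hb, hf x⟩
    have hxl := mem_low.mp hx.1
    have h2 := h x (f x) hxl.1 hxl.2.1 hfB (G.ne_of_adj (hf x)) (near_one (hf x))
    have h3 : (dst G x (f x) : ℝ) ≤ (nb G x).card + (nb G (f x)).card := by
      exact_mod_cast dst_le_nb G x (f x)
    linarith [hxl.2.2]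
  have hdisj : ∀ x ∈ (low G B R c).filter (fun x => ¬ ∃ b ∈ B, G.Adj x b),
      ∀ y ∈ (low G B R c).filter (fun x => ¬ ∃ b ∈ B, G.Adj x b), x ≠ y →
        Disjoint (nb G (f x)) (nb G (f y)) := by
    intro x hx y hy hne
    rw [disjoint_left]
    intro u hu1 hu2
    apply hne
    apply low_sep h (mem_filter.mp hx).1 (mem_filter.mp hy).1
    exact near_four ⟨f x, u, f y, hf x, mem_nb.mp hu1, (mem_nb.mp hu2).symm, (hf y).symm⟩
  have h2 : ∑ x ∈ (low G B R c).filter (fun x => ¬ ∃ b ∈ B, G.Adj x b), (nb G (f x)).card ≤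
      Fintype.card V := by
    rw [← card_biUnion hdisj]
    exact card_le_univ _
  calc (((low G B R c).filter (fun x => ¬ ∃ b ∈ B, G.Adj x b)).card : ℝ) * c =
      ∑ x ∈ (low G B R c).filter (fun x => ¬ ∃ b ∈ B, G.Adj x b), c := by
        rw [sum_const, nsmul_eq_mul]
    _ ≤ ∑ x ∈ (low G B R c).filter (fun x => ¬ ∃ b ∈ B, G.Adj x b), ((nb G (f x)).card : ℝ) :=
        sum_le_sum h1
    _ ≤ Fintype.card V := by exact_mod_cast h2

theorem low_split : (low G B R c).card =
    ((low G B R c).filter (fun x => ∃ b ∈ B, G.Adj x b)).card +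
      ((low G B R c).filter (fun x => ¬ ∃ b ∈ B, G.Adj x b)).card :=
  (card_filter_add_card_filter_not _).symm

end low

theorem dset_univ (G : SimpleGraph V) (x y : V) : (dset G univ x y).card = dst G x y := by
  rw [dst_eq]
  rfl

theorem dset_inter (G : SimpleGraph V) (D : Finset V) (x y : V) :
    dset G univ x y ∩ D = dset G D x y := by
  unfold dset
  ext z
  rw [mem_inter, mem_filter, mem_filter]
  constructor
  · rintro ⟨⟨_, h⟩, hD⟩
    exact ⟨hD, h⟩
  · rintro ⟨hD, h⟩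
    exact ⟨⟨mem_univ _, h⟩, hD⟩

/-- the random part of the locating set, and the exceptional vertices -/
theorem pick (G : SimpleGraph V) (Δ : ℕ) (hΔ2 : 2 ≤ Δ) (hΔ : DegLE G Δ) (B R : Finset V)
    (τ : V → Finset V) (hτR : ∀ x, x ∉ R → τ x = ∅)
    (h : ∀ x y : V, x ∉ B → y ∉ B → x ≠ y → Near G x y → y ∉ τ x →
      2048 * Real.logb 2 Δ ≤ (dst G x y : ℝ)) (hdeg : ∀ v, ∃ w, G.Adj v w)
    (hRdeg : ∀ x ∈ R, 1024 * Real.logb 2 Δ ≤ ((nb G x).card : ℝ)) :
    ∃ D B1 : Finset V, B ⊆ B1 ∧ 64 * D.card ≤ Fintype.card V ∧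
      (B1.card : ℝ) ≤ 2 * B.card + Fintype.card V / (1024 * Real.logb 2 Δ) +
        128 * Fintype.card V / Δ ^ 3 ∧
      (∀ v, v ∉ B1 → 8 * Real.logb 2 Δ ≤ ((nb G v ∩ D).card : ℝ)) ∧
      (∀ x y, x ∉ B1 → y ∉ B1 → x ≠ y → Four G x y → y ∉ τ x →
        16 * Real.logb 2 Δ ≤ ((dset G D x y).card : ℝ)) := by
  have hΔr : (2 : ℝ) ≤ Δ := by exact_mod_cast hΔ2
  set L : ℝ := Real.logb 2 Δ with hL
  have hL1 : 1 ≤ L := by
    have h1 : Real.logb 2 2 ≤ Real.logb 2 (Δ : ℝ) :=
      Real.logb_le_logb_of_le (by norm_num) (by norm_num) hΔr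
    rw [Real.logb_self_eq_one (by norm_num)] at h1
    exact h1
  have h2L : (2 : ℝ) ^ L = Δ := Real.rpow_logb (by norm_num) (by norm_num) (by linarith)
  have hθ7 : (2 : ℝ) ^ (-(7 * L)) = ((Δ : ℝ) ^ 7)⁻¹ := by
    rw [Real.rpow_neg (by norm_num), mul_comm, Real.rpow_mul (by norm_num), h2L]
    congr 1
    exact_mod_cast Real.rpow_natCast (Δ : ℝ) 7
  have hθ3 : (2 : ℝ) ^ (-(3 * L)) = ((Δ : ℝ) ^ 3)⁻¹ := by
    rw [Real.rpow_neg (by norm_num), mul_comm, Real.rpow_mul (by norm_num), h2L]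
    congr 1
    exact_mod_cast Real.rpow_natCast (Δ : ℝ) 3
  let N : V × V → Finset V := fun p => if p.1 = p.2 then nb G p.1 else dset G univ p.1 p.2
  let θ : V × V → ℝ := fun p => if p.1 = p.2 then ((Δ : ℝ) ^ 3)⁻¹ else ((Δ : ℝ) ^ 7)⁻¹
  let Q1 : Finset (V × V) := univ.filter (fun p => p.1 = p.2 ∧ 1024 * L ≤ ((nb G p.1).card : ℝ))
  let Q2 : Finset (V × V) := univ.filter (fun p => p.1 ≠ p.2 ∧ Four G p.1 p.2 ∧
    2048 * L ≤ (dst G p.1 p.2 : ℝ))
  have hdisj : Disjoint Q1 Q2 := by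
    rw [disjoint_left]
    intro p h1 h2
    exact (mem_filter.mp h2).2.1 (mem_filter.mp h1).2.1
  have hQ1 : Q1.card ≤ Fintype.card V := by
    rw [← card_univ (α := V)]
    apply card_le_card_of_injOn (fun p => p.1) (fun _ _ => mem_coe.mpr (mem_univ _))
    intro a ha b hb hab
    have ha' := (mem_filter.mp (mem_coe.mp ha)).2.1
    have hb' := (mem_filter.mp (mem_coe.mp hb)).2.1
    apply Prod.ext hab
    rw [← ha', ← hb']
    exact hab
  let N2 : V → Finset V := fun t => (nb G t).biUnion (fun u => nb G u)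
  have hN2 : ∀ t, (N2 t).card ≤ Δ * Δ := by
    intro t
    refine card_biUnion_le.trans ?_
    calc ∑ u ∈ nb G t, (nb G u).card ≤ ∑ u ∈ nb G t, Δ := sum_le_sum (fun u _ => hΔ u)
      _ = (nb G t).card * Δ := by rw [sum_const, smul_eq_mul]
      _ ≤ Δ * Δ := Nat.mul_le_mul_right _ (hΔ t)
  have hQ2 : Q2.card ≤ Fintype.card V * ((Δ * Δ) * (Δ * Δ)) := by
    have h3 : Q2 ⊆ univ.biUnion (fun t => (N2 t) ×ˢ (N2 t)) := by
      intro p hp
      obtain ⟨a, t, b, h1, h2, h3, h4⟩ := (mem_filter.mp hp).2.2.1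
      rw [mem_biUnion]
      exact ⟨t, mem_univ _, mem_product.mpr
        ⟨mem_biUnion.mpr ⟨a, mem_nb.mpr h2.symm, mem_nb.mpr h1.symm⟩,
          mem_biUnion.mpr ⟨b, mem_nb.mpr h3, mem_nb.mpr h4⟩⟩⟩
    refine (card_le_card h3).trans (card_biUnion_le.trans ?_)
    rw [← card_univ, ← smul_eq_mul, ← sum_const]
    apply sum_le_sum
    intro w _
    rw [card_product]
    exact Nat.mul_le_mul (hN2 w) (hN2 w)
  obtain ⟨D, hD1, hD2⟩ := coloring64 N (Q1 ∪ Q2) θ (by
    intro p hp
    rw [mem_union] at hp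
    rcases hp with hp | hp
    · have hp' := (mem_filter.mp hp).2
      have e1 : N p = nb G p.1 := if_pos hp'.1
      have e2 : θ p = ((Δ : ℝ) ^ 3)⁻¹ := if_pos hp'.1
      rw [e1, e2, ← hθ3]
      apply tail_le (by linarith) (by norm_num)
      linarith [hp'.2]
    · have hp' := (mem_filter.mp hp).2
      have e1 : N p = dset G univ p.1 p.2 := if_neg hp'.1
      have e2 : θ p = ((Δ : ℝ) ^ 7)⁻¹ := if_neg hp'.1
      rw [e1, e2, ← hθ7]
      apply tail_le (by linarith) (by norm_num)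
      rw [dset_univ]
      linarith [hp'.2.2])
  set U : Finset (V × V) := (Q1 ∪ Q2).filter
    (fun p => ((N p ∩ D).card : ℝ) < ((N p).card : ℝ) / 128) with hU
  have hn0 : (0 : ℝ) ≤ Fintype.card V := Nat.cast_nonneg _
  have hUc : (U.card : ℝ) ≤ 128 * Fintype.card V / Δ ^ 3 := by
    refine hD2.trans ?_
    rw [sum_union hdisj]
    have h1 : ∑ p ∈ Q1, θ p ≤ Fintype.card V * ((Δ : ℝ) ^ 3)⁻¹ := by
      have h2 : ∀ p ∈ Q1, θ p = ((Δ : ℝ) ^ 3)⁻¹ := fun p hp => if_pos (mem_filter.mp hp).2.1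
      rw [sum_congr rfl h2, sum_const, nsmul_eq_mul]
      apply mul_le_mul_of_nonneg_right _ (by positivity)
      exact_mod_cast hQ1
    have h3 : ∑ p ∈ Q2, θ p ≤ Fintype.card V * ((Δ : ℝ) ^ 3)⁻¹ := by
      have h2 : ∀ p ∈ Q2, θ p = ((Δ : ℝ) ^ 7)⁻¹ := fun p hp => if_neg (mem_filter.mp hp).2.1
      rw [sum_congr rfl h2, sum_const, nsmul_eq_mul]
      have h4 : (Q2.card : ℝ) ≤ Fintype.card V * ((Δ * Δ) * (Δ * Δ)) := by exact_mod_cast hQ2
      refine (mul_le_mul_of_nonneg_right h4 (by positivity)).trans (le_of_eq ?_)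
      field_simp
    have h5 : 128 * (Fintype.card V : ℝ) / Δ ^ 3 =
        64 * (Fintype.card V * ((Δ : ℝ) ^ 3)⁻¹ + Fintype.card V * ((Δ : ℝ) ^ 3)⁻¹) := by
      rw [div_eq_mul_inv]
      ring
    rw [h5]
    linarith
  have h' : ∀ x y : V, x ∉ B → x ∉ R → y ∉ B → x ≠ y → Near G x y →
      2 * (1024 * L) ≤ (dst G x y : ℝ) := by
    intro x y hx hxR hy hxy hn
    have := h x y hx hy hxy hn (by
      rw [hτR x hxR]
      exact notMem_empty y)
    linarith
  refine ⟨D, B ∪ low G B R (1024 * L) ∪ U.image Prod.fst,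
    subset_union_left.trans subset_union_left, hD1, ?_, ?_, ?_⟩
  · have h1 : (B ∪ low G B R (1024 * L) ∪ U.image Prod.fst).card ≤
        B.card + (low G B R (1024 * L)).card + U.card := by
      refine (card_union_le _ _).trans ?_
      have h2 := card_union_le B (low G B R (1024 * L))
      have h3 := card_image_le (s := U) (f := Prod.fst)
      omega
    have h2 : ((B ∪ low G B R (1024 * L) ∪ U.image Prod.fst).card : ℝ) ≤
        B.card + (low G B R (1024 * L)).card + U.card := by exact_mod_cast h1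
    have h3 : ((low G B R (1024 * L)).card : ℝ) =
        ((low G B R (1024 * L)).filter (fun x => ∃ b ∈ B, G.Adj x b)).card +
        ((low G B R (1024 * L)).filter (fun x => ¬ ∃ b ∈ B, G.Adj x b)).card := by
      exact_mod_cast low_split (G := G) (B := B) (R := R) (c := 1024 * L)
    have h4 : (((low G B R (1024 * L)).filter (fun x => ∃ b ∈ B, G.Adj x b)).card : ℝ) ≤
        B.card := by
      exact_mod_cast low_one h'
    have h5 := low_two h' hdeg
    have h6 : (((low G B R (1024 * L)).filter (fun x => ¬ ∃ b ∈ B, G.Adj x b)).card : ℝ) ≤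
        Fintype.card V / (1024 * L) := by
      rw [le_div_iff₀ (by linarith)]
      exact h5
    linarith
  · intro v hv
    simp only [mem_union, not_or] at hv
    obtain ⟨⟨hvB, hvL⟩, hvU⟩ := hv
    have hd : 1024 * L ≤ ((nb G v).card : ℝ) := by
      by_cases hvR : v ∈ R
      · exact hRdeg v hvR
      · by_contra hlt
        push Not at hlt
        exact hvL (mem_low.mpr ⟨hvB, hvR, hlt⟩)
    have hnot : (v, v) ∉ U := fun h1 => hvU (mem_image.mpr ⟨(v, v), h1, rfl⟩)
    have e1 : N (v, v) = nb G v := if_pos rfl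
    by_contra hlt
    push Not at hlt
    apply hnot
    rw [hU, mem_filter, e1]
    refine ⟨mem_union_left _ (mem_filter.mpr ⟨mem_univ _, rfl, hd⟩), ?_⟩
    linarith
  · intro x y hx hy hxy hF hτ
    simp only [mem_union, not_or] at hx hy
    have hd := h x y hx.1.1 hy.1.1 hxy (near_four hF) hτ
    have hnot : (x, y) ∉ U := fun h1 => hx.2 (mem_image.mpr ⟨(x, y), h1, rfl⟩)
    have e1 : N (x, y) = dset G univ x y := if_neg hxy
    by_contra hlt
    push Not at hlt
    apply hnot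
    rw [hU, mem_filter, e1, dset_inter, dset_univ]
    refine ⟨mem_union_right _ (mem_filter.mpr ⟨mem_univ _, hxy, hF, hd⟩), ?_⟩
    linarith

/-- a maximal set of vertices whose neighbourhoods in `D` are disjoint -/
theorem pack (G : SimpleGraph V) (D B1 : Finset V) {c : ℝ} (hc : 0 < c)
    (h : ∀ v, v ∉ B1 → c ≤ ((nb G v ∩ D).card : ℝ)) :
    ∃ T0 : Finset V, (T0.card : ℝ) * c ≤ D.card ∧
      ∀ v, v ∉ B1 → ∃ u ∈ D, ∃ t ∈ T0, G.Adj v u ∧ G.Adj u t := by
  let F : Finset (Finset V) := univ.filter (fun T => (∀ t ∈ T, t ∉ B1) ∧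
    ∀ s ∈ T, ∀ t ∈ T, s ≠ t → Disjoint (nb G s ∩ D) (nb G t ∩ D))
  have hF : F.Nonempty := ⟨∅, mem_filter.mpr ⟨mem_univ _, by simp, by simp⟩⟩
  obtain ⟨T0, hT0, hmax⟩ := exists_max_image F card hF
  have hT0' := (mem_filter.mp hT0).2
  refine ⟨T0, ?_, ?_⟩
  · have h1 : ∑ t ∈ T0, (nb G t ∩ D).card ≤ D.card := by
      rw [← card_biUnion hT0'.2]
      apply card_le_card
      intro u hu
      obtain ⟨t, _, hu⟩ := mem_biUnion.mp hu
      exact (mem_inter.mp hu).2
    calc (T0.card : ℝ) * c = ∑ t ∈ T0, c := by rw [sum_const, nsmul_eq_mul]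
      _ ≤ ∑ t ∈ T0, ((nb G t ∩ D).card : ℝ) := sum_le_sum (fun t ht => h t (hT0'.1 t ht))
      _ ≤ D.card := by exact_mod_cast h1
  · intro v hv
    by_contra hcon
    push Not at hcon
    have hne : (nb G v ∩ D).Nonempty := by
      rw [← card_pos]
      have := h v hv
      have h2 : (0 : ℝ) < ((nb G v ∩ D).card : ℝ) := by linarith
      exact_mod_cast h2
    have hvT : v ∉ T0 := by
      intro hvT
      obtain ⟨u, hu⟩ := hne
      rw [mem_inter, mem_nb] at hu
      exact hcon u hu.2 v hvT hu.1 hu.1.symm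
    have hdis : ∀ t ∈ T0, Disjoint (nb G v ∩ D) (nb G t ∩ D) := by
      intro t ht
      rw [disjoint_left]
      intro u hu1 hu2
      rw [mem_inter, mem_nb] at hu1 hu2
      exact hcon u hu1.2 t ht hu1.1 hu2.1.symm
    have hins : insert v T0 ∈ F := by
      refine mem_filter.mpr ⟨mem_univ _, ?_, ?_⟩
      · intro t ht
        rcases mem_insert.mp ht with rfl | ht
        · exact hv
        · exact hT0'.1 t ht
      · intro s hs t ht hst
        rcases mem_insert.mp hs with e | hs'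
        · rcases mem_insert.mp ht with e' | ht'
          · exact absurd (e.trans e'.symm) hst
          · rw [e]
            exact hdis t ht'
        · rcases mem_insert.mp ht with e' | ht'
          · rw [e']
            exact (hdis s hs').symm
          · exact hT0'.2 s hs' t ht' hst
    have := hmax _ hins
    rw [card_insert_of_notMem hvT] at this
    omega

end Pool.Agent.H71.LOC
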