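import Pool.Graph.R_seed8.H234RC.T1

set_option autoImplicit false
set_option linter.unusedSectionVars false

/-!
# A bound for independence polynomials at a negative point

`ip C y P` is the sum of `(-y) ^ |J|` over the subsets `J` of `P` whose elements are pairwise
compatible. At `y = 2 + √2` its absolute value is at most `(1 + √2) ^ |P|`.
-/

namespace Pool.Agent.H71.LOC

open Finset Classical

variable {α : Type}

/-- the elements of `J` are pairwise compatible -/
def Comp (C : α → α → Prop) (J : Finset α) : Prop := ∀ p ∈ J, ∀ q ∈ J, p ≠ q → C p q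

theorem comp_insert {C : α → α → Prop} {p : α} {J : Finset α} (hp : p ∉ J) :
    Comp C (insert p J) ↔ Comp C J ∧ ∀ q ∈ J, C p q ∧ C q p := by
  constructor
  · intro h
    refine ⟨fun a ha b hb hab => h a (mem_insert_of_mem ha) b (mem_insert_of_mem hb) hab,
      fun q hq => ?_⟩
    have hne : p ≠ q := fun e => hp (e ▸ hq)
    exact ⟨h p (mem_insert_self _ _) q (mem_insert_of_mem hq) hne,
      h q (mem_insert_of_mem hq) p (mem_insert_self _ _) hne.symm⟩
  · rintro ⟨h1, h2⟩ a ha b hb hab
    rw [mem_insert] at ha hb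
    rcases ha with rfl | ha
    · rcases hb with rfl | hb
      · exact absurd rfl hab
      · exact (h2 b hb).1
    · rcases hb with rfl | hb
      · exact (h2 a ha).2
      · exact h1 a ha b hb hab

/-- the independence polynomial of the incompatibility relation at `-y` -/
noncomputable def ip (C : α → α → Prop) (y : ℝ) (P : Finset α) : ℝ :=
  ∑ J ∈ P.powerset, if Comp C J then (-y) ^ J.card else 0

theorem ip_split (C : α → α → Prop) (y : ℝ) (P : Finset α) (p : α) (hp : p ∈ P) :
    ip C y P = ip C y (P.erase p) +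
      (-y) * ip C y ((P.erase p).filter (fun q => C p q ∧ C q p)) := by
  have hP : P = insert p (P.erase p) := (insert_erase hp).symm
  have hnp : p ∉ P.erase p := notMem_erase p P
  unfold ip
  conv_lhs => rw [hP]
  rw [sum_powerset_insert hnp]
  congr 1
  rw [mul_sum]
  have h1 : ((P.erase p).filter (fun q => C p q ∧ C q p)).powerset =
      (P.erase p).powerset.filter (fun J => ∀ q ∈ J, C p q ∧ C q p) := by
    ext J
    rw [mem_powerset, mem_filter, mem_powerset]
    constructor
    · intro h
      exact ⟨fun q hq => (mem_filter.mp (h hq)).1, fun q hq => (mem_filter.mp (h hq)).2⟩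
    · rintro ⟨h1, h2⟩ q hq
      exact mem_filter.mpr ⟨h1 hq, h2 q hq⟩
  rw [h1, sum_filter]
  apply sum_congr rfl
  intro J hJ
  rw [mem_powerset] at hJ
  have hpJ : p ∉ J := fun h => hnp (hJ h)
  rw [card_insert_of_notMem hpJ]
  by_cases h2 : ∀ q ∈ J, C p q ∧ C q p
  · rw [if_pos h2]
    by_cases h3 : Comp C J
    · rw [if_pos h3, if_pos ((comp_insert hpJ).mpr ⟨h3, h2⟩)]
      ring
    · rw [if_neg h3, if_neg (fun h => h3 ((comp_insert hpJ).mp h).1)]
      ring
  · rw [if_neg h2, if_neg (fun h => h2 ((comp_insert hpJ).mp h).2)]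

theorem ip_bound (C : α → α → Prop) (P : Finset α) :
    |ip C (2 + Real.sqrt 2) P| ≤ (1 + Real.sqrt 2) ^ P.card := by
  induction' hn : P.card using Nat.strong_induction_on with n ih generalizing P
  have hs : Real.sqrt 2 * Real.sqrt 2 = 2 := Real.mul_self_sqrt (by norm_num)
  have hs0 : 0 ≤ Real.sqrt 2 := Real.sqrt_nonneg 2
  by_cases hall : Comp C P
  · -- everything is compatible
    have h1 : ip C (2 + Real.sqrt 2) P = ∑ J ∈ P.powerset, (-(2 + Real.sqrt 2)) ^ J.card *
        (1 : ℝ) ^ (P.card - J.card) := by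
      unfold ip
      apply sum_congr rfl
      intro J hJ
      rw [mem_powerset] at hJ
      have hJc : Comp C J := fun p hp q hq hne => hall p (hJ hp) q (hJ hq) hne
      rw [if_pos hJc, one_pow, mul_one]
    rw [h1, sum_pow_mul_eq_add_pow, abs_pow, hn]
    apply pow_le_pow_left₀ (abs_nonneg _)
    rw [abs_of_nonpos (by linarith)]
    linarith
  · unfold Comp at hall
    push Not at hall
    obtain ⟨p, hp, q, hq, hne, hC⟩ := hall
    rw [ip_split C _ P p hp]
    have hc1 : (P.erase p).card = n - 1 := by rw [card_erase_of_mem hp, hn]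
    have hc2 : ((P.erase p).filter (fun q => C p q ∧ C q p)).card ≤ n - 2 := by
      have hsub : (P.erase p).filter (fun q => C p q ∧ C q p) ⊆ (P.erase p).erase q := by
        intro x hx
        rw [mem_filter] at hx
        rw [mem_erase]
        refine ⟨fun e => ?_, hx.1⟩
        rw [e] at hx
        exact hC hx.2.1
      have hq' : q ∈ P.erase p := mem_erase.mpr ⟨hne.symm, hq⟩
      have := card_le_card hsub
      rw [card_erase_of_mem hq', hc1] at this
      omega
    have hn2 : 2 ≤ n := by
      rw [← hn]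
      exact one_lt_card.mpr ⟨p, hp, q, hq, hne⟩
    have h1 := ih (n - 1) (by omega) (P.erase p) hc1
    have h2 := ih _ (by omega) ((P.erase p).filter (fun q => C p q ∧ C q p)) rfl
    have h3 : (1 + Real.sqrt 2) ^ ((P.erase p).filter (fun q => C p q ∧ C q p)).card ≤
        (1 + Real.sqrt 2) ^ (n - 2) :=
      pow_le_pow_right₀ (by linarith) hc2
    obtain ⟨m, rfl⟩ : ∃ m, n = m + 2 := ⟨n - 2, by omega⟩
    have e1 : m + 2 - 1 = m + 1 := by omega
    have e2 : m + 2 - 2 = m := by omega
    rw [e1] at h1
    rw [e2] at h3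
    have h4 : |(-(2 + Real.sqrt 2)) * ip C (2 + Real.sqrt 2)
        ((P.erase p).filter (fun q => C p q ∧ C q p))| ≤
        (2 + Real.sqrt 2) * (1 + Real.sqrt 2) ^ m := by
      rw [abs_mul, abs_neg, abs_of_nonneg (by linarith : (0 : ℝ) ≤ 2 + Real.sqrt 2)]
      exact mul_le_mul_of_nonneg_left (h2.trans h3) (by linarith)
    calc |_ + _| ≤ _ := abs_add_le _ _
      _ ≤ (1 + Real.sqrt 2) ^ (m + 1) + (2 + Real.sqrt 2) * (1 + Real.sqrt 2) ^ m :=
          add_le_add h1 h4
      _ = (1 + Real.sqrt 2) ^ (m + 2) := by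
          rw [pow_succ, pow_add]
          have : (1 + Real.sqrt 2) ^ 2 = 3 + 2 * Real.sqrt 2 := by
            rw [pow_two]
            nlinarith
          rw [this]
          ring

end Pool.Agent.H71.LOC
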