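import Pool.Agent.H71.LOC.Main

set_option autoImplicit false
set_option linter.unusedSectionVars false

/-!
# Graphs in which few vertices have near twins
-/

namespace Pool.Agent.H71.LOC

open Finset Classical
open Pool.Agent.H234RC (Hypo NonIso Reconstructible exists_hypo)

theorem amgm {ι : Type} (s : Finset ι) (z : ι → ℝ) (hz : ∀ i ∈ s, 0 ≤ z i) {b : ℝ}
    (hb : ∑ i ∈ s, z i ≤ b) : ∏ i ∈ s, z i ≤ (b / s.card) ^ s.card := by
  rcases Nat.eq_zero_or_pos s.card with h0 | h0
  · rw [card_eq_zero] at h0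
    subst h0
    simp
  have hc : (0 : ℝ) < s.card := by exact_mod_cast h0
  have h1 := Real.geom_mean_le_arith_mean s (fun _ => (1 : ℝ)) z (fun _ _ => zero_le_one)
    (by rw [sum_const, nsmul_eq_mul, mul_one]; exact hc) hz
  simp only [Real.rpow_one, sum_const, nsmul_eq_mul, mul_one, one_mul] at h1
  have hp : 0 ≤ ∏ i ∈ s, z i := prod_nonneg hz
  have h2 : (∏ i ∈ s, z i) = ((∏ i ∈ s, z i) ^ ((s.card : ℝ)⁻¹)) ^ s.card := by
    rw [← Real.rpow_natCast, ← Real.rpow_mul hp, inv_mul_cancel₀ hc.ne', Real.rpow_one]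
  rw [h2]
  apply pow_le_pow_left₀ (Real.rpow_nonneg hp _)
  refine h1.trans ?_
  exact div_le_div_of_nonneg_right hb hc.le

variable {V : Type} [Fintype V]

theorem emb_two (G : SimpleGraph V) (D R : Finset V) (k : ℕ)
    (hk : ∀ r ∈ R, (R.filter (fun r' => ∀ d ∈ D, G.Adj r' d ↔ G.Adj r d)).card ≤ k) :
    (Nat.card (G.induce ((D ∪ R : Finset V) : Set V) ↪g G) : ℝ) ≤
      (Fintype.card V : ℝ) ^ D.card * (k * Fintype.card V / R.card) ^ R.card := by
  let W : (D → V) → R → Finset V :=
    fun ψ r => univ.filter (fun w => ∀ d : D, G.Adj w (ψ d) ↔ G.Adj (r : V) (d : V))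
  let T : Finset (Σ _ : (D → V), (R → V)) := univ.sigma (fun ψ => Fintype.piFinset (fun r => W ψ r))
  have h1 : Nat.card (G.induce ((D ∪ R : Finset V) : Set V) ↪g G) ≤ T.card := by
    have hfin : Finite ((G.induce ((D ∪ R : Finset V) : Set V)) ↪g G) := inferInstance
    have : Fintype ((G.induce ((D ∪ R : Finset V) : Set V)) ↪g G) := Fintype.ofFinite _
    rw [Nat.card_eq_fintype_card, ← card_univ]
    apply card_le_card_of_injOn (fun φ : (G.induce ((D ∪ R : Finset V) : Set V)) ↪g G =>
      (⟨fun d => φ ⟨d, mem_coe.mpr (mem_union_left _ d.2)⟩,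
        fun r => φ ⟨r, mem_coe.mpr (mem_union_right _ r.2)⟩⟩ : Σ _ : (D → V), (R → V)))
    · intro φ _
      rw [mem_coe, mem_sigma]
      refine ⟨mem_univ _, ?_⟩
      rw [Fintype.mem_piFinset]
      intro r
      rw [mem_filter]
      refine ⟨mem_univ _, fun d => ?_⟩
      exact φ.map_rel_iff
    · intro φ _ ψ _ h
      have h2 := Sigma.mk.inj h
      apply RelEmbedding.ext
      intro x
      rcases mem_union.mp (mem_coe.mp x.2) with hx | hx
      · exact congrFun h2.1 ⟨x, hx⟩
      · exact congrFun (eq_of_heq h2.2) ⟨x, hx⟩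
  have h2 : (T.card : ℝ) ≤ (Fintype.card V : ℝ) ^ D.card *
      (k * Fintype.card V / R.card) ^ R.card := by
    rw [card_sigma]
    push_cast
    have h3 : ∀ ψ ∈ (univ : Finset (D → V)), ((Fintype.piFinset (fun r => W ψ r)).card : ℝ) ≤
        (k * Fintype.card V / R.card) ^ R.card := by
      intro ψ _
      rw [Fintype.card_piFinset]
      push_cast
      have h4 : ∑ r : R, ((W ψ r).card : ℝ) ≤ k * Fintype.card V := by
        have e1 : ∀ r : R, ((W ψ r).card : ℝ) = ∑ w : V, if (∀ d : D, G.Adj w (ψ d) ↔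
            G.Adj (r : V) (d : V)) then (1 : ℝ) else 0 := by
          intro r
          rw [sum_boole]
        rw [sum_congr rfl (fun r _ => e1 r), sum_comm]
        calc ∑ w : V, ∑ r : R, (if (∀ d : D, G.Adj w (ψ d) ↔ G.Adj (r : V) (d : V)) then (1 : ℝ)
              else 0) ≤ ∑ w : V, (k : ℝ) := by
              apply sum_le_sum
              intro w _
              rw [sum_boole]
              by_cases hex : ∃ r : R, ∀ d : D, G.Adj w (ψ d) ↔ G.Adj (r : V) (d : V)
              · obtain ⟨r, hr⟩ := hex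
                have h5 := hk r r.2
                have h6 : (univ.filter (fun r' : R => ∀ d : D, G.Adj w (ψ d) ↔
                    G.Adj (r' : V) (d : V))).card ≤
                    (R.filter (fun r' => ∀ d ∈ D, G.Adj r' d ↔ G.Adj (r : V) d)).card := by
                  apply card_le_card_of_injOn (fun r' : R => (r' : V))
                  · intro r' hr'
                    rw [mem_coe, mem_filter] at hr'
                    rw [mem_coe, mem_filter]
                    refine ⟨r'.2, fun d hd => ?_⟩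
                    rw [← hr'.2 ⟨d, hd⟩, hr ⟨d, hd⟩]
                  · intro a _ b _ hab
                    exact Subtype.ext hab
                exact_mod_cast h6.trans h5
              · have h7 : univ.filter (fun r' : R => ∀ d : D, G.Adj w (ψ d) ↔
                    G.Adj (r' : V) (d : V)) = ∅ := by
                  apply filter_false_of_mem
                  intro r' _ h8
                  exact hex ⟨r', h8⟩
                rw [h7, card_empty]
                exact_mod_cast Nat.zero_le k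
          _ = k * Fintype.card V := by
              rw [sum_const, card_univ, nsmul_eq_mul]
              ring
      have h8 := amgm (univ : Finset R) (fun r => ((W ψ r).card : ℝ))
        (fun _ _ => Nat.cast_nonneg _) h4
      rw [card_univ, Fintype.card_coe] at h8
      exact h8
    calc ∑ ψ : D → V, ((Fintype.piFinset (fun r => W ψ r)).card : ℝ) ≤
        ∑ ψ : D → V, ((k : ℝ) * Fintype.card V / R.card) ^ R.card := sum_le_sum h3
      _ = _ := by
        rw [sum_const, card_univ, nsmul_eq_mul, Fintype.card_fun, Fintype.card_coe]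
        push_cast
        ring
  calc (Nat.card (G.induce ((D ∪ R : Finset V) : Set V) ↪g G) : ℝ) ≤ (T.card : ℝ) := by
        exact_mod_cast h1
    _ ≤ _ := h2

/-- the two step form of Theorem A, with logarithms -/
theorem thmA2 (G : SimpleGraph V) (D R : Finset V) (k : ℕ) (hk1 : 1 ≤ k)
    (hD : Loc G (D ∪ R))
    (hk : ∀ r ∈ R, (R.filter (fun r' => ∀ d ∈ D, G.Adj r' d ↔ G.Adj r d)).card ≤ k)
    (h : (D.card : ℝ) * (2 * Real.logb 2 (Fintype.card V) + 1) +
      (R.card : ℝ) * (2 * Real.logb 2 (k * Fintype.card V / R.card) + 1) + 2 <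
      (Fintype.card V : ℝ)) :
    Reconstructible G ∧ Reconstructible Gᶜ := by
  apply thmA G hD
  have hDn : (D ∪ R).card ≤ Fintype.card V := card_le_univ _
  have hn : 0 < Fintype.card V := by
    by_contra h0
    have h0' : Fintype.card V = 0 := by omega
    have hD0 : D.card = 0 := by
      have := card_le_univ D
      omega
    have hR0 : R.card = 0 := by
      have := card_le_univ R
      omega
    rw [h0', hD0, hR0] at h
    norm_num at h
  have hn' : (0 : ℝ) < (Fintype.card V : ℝ) := by exact_mod_cast hn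
  have hkpos : (0 : ℝ) < k := by exact_mod_cast hk1
  have h1 := emb_two G D R k hk
  have e1 : ((Fintype.card V : ℝ)) ^ D.card =
      (2 : ℝ) ^ ((D.card : ℝ) * Real.logb 2 (Fintype.card V)) := by
    rw [mul_comm (D.card : ℝ), Real.rpow_mul (by norm_num),
      Real.rpow_logb (by norm_num) (by norm_num) hn', Real.rpow_natCast]
  have e2 : ((k : ℝ) * Fintype.card V / R.card) ^ R.card =
      (2 : ℝ) ^ ((R.card : ℝ) * Real.logb 2 (k * Fintype.card V / R.card)) := by
    rcases Nat.eq_zero_or_pos R.card with h0 | h0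
    · rw [h0]
      simp
    · have hRpos : (0 : ℝ) < R.card := by exact_mod_cast h0
      rw [mul_comm (R.card : ℝ), Real.rpow_mul (by norm_num),
        Real.rpow_logb (by norm_num) (by norm_num) (by positivity), Real.rpow_natCast]
  rw [e1, e2, ← Real.rpow_add (by norm_num)] at h1
  set a : ℝ := (D.card : ℝ) * Real.logb 2 (Fintype.card V) +
    (R.card : ℝ) * Real.logb 2 (k * Fintype.card V / R.card) with ha
  have h2 : (Nat.card (G.induce ((D ∪ R : Finset V) : Set V) ↪g G) : ℝ) ^ 2 ≤
      (2 : ℝ) ^ (2 * a) := by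
    calc (Nat.card (G.induce ((D ∪ R : Finset V) : Set V) ↪g G) : ℝ) ^ 2 ≤ ((2 : ℝ) ^ a) ^ 2 :=
          pow_le_pow_left₀ (Nat.cast_nonneg _) h1 2
      _ = (2 : ℝ) ^ (2 * a) := by
          rw [← Real.rpow_natCast, ← Real.rpow_mul (by norm_num)]
          congr 1
          push_cast
          ring
  have hcu : ((D ∪ R).card : ℝ) ≤ D.card + R.card := by exact_mod_cast card_union_le D R
  have h3 : (4 : ℝ) * (Nat.card (G.induce ((D ∪ R : Finset V) : Set V) ↪g G) : ℝ) ^ 2 <
      (2 : ℝ) ^ (Fintype.card V - (D ∪ R).card) := by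
    have e4 : (2 : ℝ) ^ (Fintype.card V - (D ∪ R).card) =
        (2 : ℝ) ^ ((Fintype.card V : ℝ) - ((D ∪ R).card : ℝ)) := by
      rw [← Nat.cast_sub hDn, Real.rpow_natCast]
    rw [e4]
    have e3 : (4 : ℝ) = (2 : ℝ) ^ (2 : ℝ) := by norm_num
    calc (4 : ℝ) * (Nat.card (G.induce ((D ∪ R : Finset V) : Set V) ↪g G) : ℝ) ^ 2 ≤
        4 * (2 : ℝ) ^ (2 * a) := by linarith
      _ = (2 : ℝ) ^ (2 + 2 * a) := by rw [e3, ← Real.rpow_add (by norm_num)]
      _ < _ := by
        apply Real.rpow_lt_rpow_of_exponent_lt (by norm_num)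
        rw [ha]
        linarith
  have h4 : 4 * Nat.card (G.induce ((D ∪ R : Finset V) : Set V) ↪g G) ^ 2 <
      2 ^ (Fintype.card V - (D ∪ R).card) := by exact_mod_cast h3
  have h5 := Nat.pow_le_pow_left (aut_pos G) 2
  calc 4 * Nat.card (G.induce ((D ∪ R : Finset V) : Set V) ↪g G) ^ 2 <
      2 ^ (Fintype.card V - (D ∪ R).card) := h4
    _ = 1 ^ 2 * 2 ^ (Fintype.card V - (D ∪ R).card) := by ring
    _ ≤ _ := Nat.mul_le_mul_right _ h5

/-- a small set which distinguishes all pairs that are distinguished by many vertices -/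
theorem exists_hit (G : SimpleGraph V) (q : ℝ) (hq0 : 0 < q) :
    ∃ D : Finset V, (∀ x y : V, x ≠ y → q ≤ (dst G x y : ℝ) → ∃ z ∈ D, ¬ (G.Adj x z ↔ G.Adj y z)) ∧
      (D.card : ℝ) ≤ 2 * Fintype.card V * Real.log (Fintype.card V) / q + 1 := by
  have hlog : 0 ≤ Real.log (Fintype.card V) := Real.log_natCast_nonneg _
  by_cases hpair : ∃ x y : V, x ≠ y ∧ q ≤ (dst G x y : ℝ)
  swap
  · refine ⟨∅, fun x y hx hy => ?_, ?_⟩
    · exact absurd ⟨x, y, hx, hy⟩ hpair
    · rw [card_empty]
      push_cast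
      positivity
  obtain ⟨x0, y0, hne0, hd0⟩ := hpair
  have hn2 : 2 ≤ Fintype.card V := by
    rw [← card_univ]
    exact one_lt_card.mpr ⟨x0, mem_univ _, y0, mem_univ _, hne0⟩
  have hn : (0 : ℝ) < Fintype.card V := by
    have : 0 < Fintype.card V := by omega
    exact_mod_cast this
  have hqn : q ≤ Fintype.card V := by
    refine hd0.trans ?_
    have := dst_le G hne0
    have h1 : dst G x0 y0 ≤ Fintype.card V := by omega
    exact_mod_cast h1
  set n : ℝ := (Fintype.card V : ℝ) with hndef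
  set t : ℝ := 2 * n * Real.log n / q with ht
  have ht0 : 0 ≤ t := by positivity
  set m : ℕ := ⌈t⌉₊ with hm
  let P : Finset (V × V) := univ.filter (fun p => p.1 ≠ p.2 ∧ q ≤ (dst G p.1 p.2 : ℝ))
  obtain ⟨D, hDm, hR⟩ := greedy P
    (fun z p => z ≠ p.1 ∧ z ≠ p.2 ∧ ¬ (G.Adj p.1 z ↔ G.Adj p.2 z)) q hqn (by
      intro p hp
      exact (mem_filter.mp hp).2.2) m
  have hP : (P.card : ℝ) < n ^ 2 := by
    have h1 : P ⊂ univ := by
      rw [ssubset_univ_iff]
      intro e
      have : (x0, x0) ∈ P := by rw [e]; exact mem_univ _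
      exact (mem_filter.mp this).2.1 rfl
    have h2 := card_lt_card h1
    rw [card_univ, Fintype.card_prod] at h2
    have h3 : ((P.card : ℕ) : ℝ) < ((Fintype.card V * Fintype.card V : ℕ) : ℝ) := by
      exact_mod_cast h2
    rw [Nat.cast_mul] at h3
    rw [pow_two]
    exact h3
  have hpow : (1 - q / n) ^ m ≤ (n ^ 2)⁻¹ := by
    have h1 : 1 - q / n ≤ Real.exp (-(q / n)) := by
      have := Real.add_one_le_exp (-(q / n))
      linarith
    have h0 : 0 ≤ 1 - q / n := by
      rw [sub_nonneg, div_le_one hn]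
      exact hqn
    have h2 : (1 - q / n) ^ m ≤ Real.exp (-(q / n)) ^ m := pow_le_pow_left₀ h0 h1 m
    rw [← Real.exp_nat_mul] at h2
    have h3 : Real.exp ((m : ℝ) * -(q / n)) ≤ Real.exp (-(2 * Real.log n)) := by
      apply Real.exp_le_exp.mpr
      have h4 : t ≤ (m : ℝ) := Nat.le_ceil t
      have h5 : t * (q / n) = 2 * Real.log n := by
        rw [ht]
        field_simp
      have h6 : t * (q / n) ≤ m * (q / n) := mul_le_mul_of_nonneg_right h4 (by positivity)
      linarith
    have h4 : Real.exp (-(2 * Real.log n)) = (n ^ 2)⁻¹ := by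
      rw [Real.exp_neg]
      congr 1
      rw [two_mul, Real.exp_add, Real.exp_log hn, pow_two]
    rw [← h4]
    exact h2.trans h3
  have hR0 : P.filter (fun p => ∀ z ∈ D, ¬ (z ≠ p.1 ∧ z ≠ p.2 ∧ ¬ (G.Adj p.1 z ↔ G.Adj p.2 z)))
      = ∅ := by
    rw [← card_eq_zero]
    have h0 : 0 ≤ (1 - q / n) ^ m := by
      apply pow_nonneg
      rw [sub_nonneg, div_le_one hn]
      exact hqn
    have h1 : (P.card : ℝ) * (1 - q / n) ^ m < 1 := by
      rcases eq_or_lt_of_le h0 with h2 | h2
      · rw [← h2, mul_zero]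
        norm_num
      · calc (P.card : ℝ) * (1 - q / n) ^ m < n ^ 2 * (1 - q / n) ^ m :=
              mul_lt_mul_of_pos_right hP h2
          _ ≤ n ^ 2 * (n ^ 2)⁻¹ := mul_le_mul_of_nonneg_left hpow (by positivity)
          _ = 1 := mul_inv_cancel₀ (by positivity)
    have h2 := lt_of_le_of_lt hR h1
    have h3 : (P.filter (fun p => ∀ z ∈ D, ¬ (z ≠ p.1 ∧ z ≠ p.2 ∧
        ¬ (G.Adj p.1 z ↔ G.Adj p.2 z)))).card < 1 := by exact_mod_cast h2
    omega
  refine ⟨D, ?_, ?_⟩
  · intro x y hxy hd
    by_contra hcon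
    push Not at hcon
    have h1 : (x, y) ∈ P.filter (fun p => ∀ z ∈ D, ¬ (z ≠ p.1 ∧ z ≠ p.2 ∧
        ¬ (G.Adj p.1 z ↔ G.Adj p.2 z))) := by
      rw [mem_filter]
      exact ⟨mem_filter.mpr ⟨mem_univ _, hxy, hd⟩, fun z hz h2 => h2.2.2 (hcon z hz)⟩
    rw [hR0] at h1
    exact absurd h1 (notMem_empty _)
  · have h2 : (D.card : ℝ) ≤ m := by exact_mod_cast hDm
    have h3 : (m : ℝ) < t + 1 := Nat.ceil_lt_add_one ht0
    linarith

/-- the near twins of `x` outside `B` -/
def nearTwins (G : SimpleGraph V) (B : Finset V) (x : V) : Set V :=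
  {y | y ∉ B ∧ y ≠ x ∧ (dst G x y : ℝ) < 16 * Real.log (Fintype.card V) ^ 2}

theorem log_le_lin {s : ℝ} (hs : 0 < s) : Real.logb 2 s ≤ 0.532 * s := by
  have h1 : Real.log s ≤ s / Real.exp 1 := by
    have h2 := Real.log_le_sub_one_of_pos (div_pos hs (Real.exp_pos 1))
    rw [Real.log_div hs.ne' (Real.exp_pos 1).ne', Real.log_exp] at h2
    linarith
  have hl2 := Real.log_two_gt_d9
  have he := Real.exp_one_gt_d9
  rw [Real.logb, div_le_iff₀ (by linarith)]
  have h3 : s / Real.exp 1 ≤ 0.532 * s * Real.log 2 := by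
    rw [div_le_iff₀ (by linarith)]
    have h4 : 1 ≤ 0.532 * Real.log 2 * Real.exp 1 := by nlinarith
    nlinarith
  linarith

/-- the numerical inequality for the near twins -/
theorem num2 {n r k : ℕ} (hn : 3 ≤ n) (hk : 1 ≤ k)
    (ht : 32 * (r : ℝ) * (1 + Real.logb 2 (k + 1)) ≤ n) :
    (r : ℝ) * (2 * Real.logb 2 (((k + 1 : ℕ) : ℝ) * n / r) + 1) ≤ 0.2366 * n := by
  have hn0 : (0 : ℝ) < n := by
    have : 0 < n := by omega
    exact_mod_cast this
  rcases Nat.eq_zero_or_pos r with h0 | h0
  · rw [h0]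
    simp
    positivity
  have hr : (0 : ℝ) < r := by exact_mod_cast h0
  have hk1 : (1 : ℝ) ≤ k := by exact_mod_cast hk
  set x : ℝ := Real.logb 2 (k + 1) with hx
  have hx1 : 1 ≤ x := by
    rw [hx, Real.le_logb_iff_rpow_le (by norm_num) (by linarith), Real.rpow_one]
    linarith
  set s : ℝ := n / (32 * r) with hs
  have hs0 : 0 < s := by positivity
  have hns : (n : ℝ) = 32 * r * s := by
    rw [hs]
    field_simp
  have hs1 : 1 + x ≤ s := by
    rw [hs, le_div_iff₀ (by positivity)]
    linarith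
  have e1 : ((k + 1 : ℕ) : ℝ) * n / r = (k + 1) * (2 ^ (5 : ℕ) * s) := by
    push_cast
    rw [hns]
    field_simp
    norm_num
  have e2 : Real.logb 2 (((k + 1 : ℕ) : ℝ) * n / r) = x + (5 + Real.logb 2 s) := by
    rw [e1, Real.logb_mul (by positivity) (by positivity), Real.logb_mul (by norm_num) hs0.ne',
      Real.logb_pow, Real.logb_self_eq_one (by norm_num), ← hx]
    norm_num
  have e3 := log_le_lin hs0
  rw [e2, hns]
  have hs2 : 2 ≤ s := by linarith
  have h4 : 2 * (x + (5 + Real.logb 2 s)) + 1 ≤ 0.2366 * 32 * s := by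
    nlinarith
  calc (r : ℝ) * (2 * (x + (5 + Real.logb 2 s)) + 1) ≤ r * (0.2366 * 32 * s) :=
        mul_le_mul_of_nonneg_left h4 hr.le
    _ = 0.2366 * (32 * r * s) := by ring

/-- **Theorem E.** -/
theorem thmE (G : SimpleGraph V) (h3 : 3 ≤ Fintype.card V) (B : Finset V) (k : ℕ) (hk : 1 ≤ k)
    (hB : 16 * (B.card : ℝ) * Real.log (Fintype.card V) ≤ Fintype.card V)
    (hdeg : ∀ x : V, x ∉ B → (nearTwins G B x).ncard ≤ k)
    (ht : 32 * ({x | x ∉ B ∧ (nearTwins G B x).Nonempty}.ncard : ℝ) *
      (1 + Real.logb 2 (k + 1)) ≤ Fintype.card V) :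
    Reconstructible G ∧ Reconstructible Gᶜ := by
  have hl : 1 < Real.log (Fintype.card V) := by
    rw [Real.lt_log_iff_exp_lt (by positivity)]
    have h1 := Real.exp_one_lt_d9
    have h2 : (3 : ℝ) ≤ Fintype.card V := by exact_mod_cast h3
    linarith
  have hn3 : (3 : ℝ) ≤ Fintype.card V := by exact_mod_cast h3
  have hk1 : (1 : ℝ) ≤ k := by exact_mod_cast hk
  have hx1 : 1 ≤ Real.logb 2 ((k : ℝ) + 1) := by
    rw [Real.le_logb_iff_rpow_le (by norm_num) (by linarith), Real.rpow_one]
    linarith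
  -- most vertices are outside `B`
  have hBc : 16 * B.card ≤ Fintype.card V := by
    have h1 : 16 * (B.card : ℝ) ≤ Fintype.card V := by
      refine le_trans ?_ hB
      have : 0 ≤ 16 * (B.card : ℝ) := by positivity
      nlinarith
    exact_mod_cast h1
  set S : Set V := {x | x ∉ B ∧ (nearTwins G B x).Nonempty} with hS
  have hSc : 64 * S.ncard ≤ Fintype.card V := by
    have h1 : 64 * (S.ncard : ℝ) ≤ Fintype.card V := by
      refine le_trans ?_ ht
      have : 0 ≤ 32 * (S.ncard : ℝ) := by positivity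
      nlinarith
    exact_mod_cast h1
  -- so there is a pair which is not a pair of near twins
  have hfar : ∃ x y : V, x ≠ y ∧ 16 * Real.log (Fintype.card V) ^ 2 ≤ (dst G x y : ℝ) := by
    by_contra hcon
    push Not at hcon
    have hsub : Bᶜ ⊆ S.toFinset := by
      intro x hx
      rw [mem_compl] at hx
      rw [Set.mem_toFinset]
      refine ⟨hx, ?_⟩
      have h2 : 1 < (Bᶜ).card := by
        rw [card_compl]
        omega
      obtain ⟨y, hy, hyx⟩ := exists_mem_ne h2 x
      rw [mem_compl] at hy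
      exact ⟨y, hy, hyx, hcon x y hyx.symm⟩
    have h4 := card_le_card hsub
    rw [card_compl, ← Set.ncard_eq_toFinset_card'] at h4
    omega
  obtain ⟨x0, y0, hxy0, hd0⟩ := hfar
  have hd2 : (dst G x0 y0 : ℝ) ≤ Fintype.card V - 2 := by
    have := dst_le G hxy0
    have h1 : ((dst G x0 y0 + 2 : ℕ) : ℝ) ≤ Fintype.card V := by exact_mod_cast this
    push_cast at h1
    linarith
  set n : ℝ := (Fintype.card V : ℝ) with hndef
  set L : ℝ := Real.log n with hL
  have h16 : 16 * L ^ 2 ≤ n - 2 := hd0.trans hd2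
  -- `n` is at least `128`
  have hl2 := Real.log_two_gt_d9
  have hl2' := Real.log_two_lt_d9
  have hpow : ∀ j : ℕ, 2 ^ j ≤ Fintype.card V → (j : ℝ) * Real.log 2 ≤ L := by
    intro j hj
    rw [← Real.log_pow]
    apply Real.log_le_log (by positivity)
    have h1 : ((2 ^ j : ℕ) : ℝ) ≤ (Fintype.card V : ℝ) := by exact_mod_cast hj
    push_cast at h1
    exact h1
  have hbig : 128 ≤ Fintype.card V := by
    by_contra hlt
    have hcases : (Fintype.card V < 8) ∨ (8 ≤ Fintype.card V ∧ Fintype.card V < 32) ∨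
        (32 ≤ Fintype.card V ∧ Fintype.card V < 128) := by omega
    rcases hcases with h1 | ⟨h1, h2⟩ | ⟨h1, h2⟩
    · have h4 : n < 8 := by rw [hndef]; exact_mod_cast h1
      nlinarith
    · have h3 := hpow 3 (by omega)
      have h4 : n < 32 := by rw [hndef]; exact_mod_cast h2
      norm_num at h3
      nlinarith
    · have h3 := hpow 5 (by omega)
      have h4 : n < 128 := by rw [hndef]; exact_mod_cast h2
      norm_num at h3
      nlinarith
  have h7 := hpow 7 (by omega)
  norm_num at h7
  have hL0 : 4.85 ≤ L := by linarith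
  have hnpos : (128 : ℝ) ≤ n := by rw [hndef]; exact_mod_cast hbig
  obtain ⟨D, hD, hDc⟩ := exists_hit G (16 * L ^ 2) (by positivity)
  rw [← hndef, ← hL] at hDc
  have hne : ∀ x y : V, x ∉ B → y ∉ B → x ≠ y → (∀ d ∈ B ∪ D, G.Adj x d ↔ G.Adj y d) →
      y ∈ nearTwins G B x := by
    intro x y hx hy hxy h
    refine ⟨hy, hxy.symm, ?_⟩
    by_contra hcon
    push Not at hcon
    obtain ⟨z, hz, hz'⟩ := hD x y hxy hcon
    exact hz' (h z (mem_union_right _ hz))
  set R : Finset V := univ.filter (fun x => x ∉ B ∪ D ∧ (nearTwins G B x).Nonempty) with hR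
  have hRc : R.card ≤ S.ncard := by
    rw [← Set.ncard_coe_finset]
    apply Set.ncard_le_ncard _ (Set.toFinite _)
    intro x hx
    rw [mem_coe, hR, mem_filter] at hx
    exact ⟨fun h => hx.2.1 (mem_union_left _ h), hx.2.2⟩
  apply thmA2 G (B ∪ D) R (k + 1) (by omega)
  · -- locating
    intro x y hx hy hxy
    by_contra hne'
    rw [mem_union, not_or] at hx hy
    have hxB : x ∉ B := fun h => hx.1 (mem_union_left _ h)
    have hyB : y ∉ B := fun h => hy.1 (mem_union_left _ h)
    have h1 := hne x y hxB hyB hne' (fun d hd => hxy d (mem_union_left _ hd))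
    apply hx.2
    rw [hR, mem_filter]
    exact ⟨mem_univ _, hx.1, ⟨y, h1⟩⟩
  · -- the classes
    intro r hr
    rw [hR, mem_filter] at hr
    have hrB : r ∉ B := fun h => hr.2.1 (mem_union_left _ h)
    have h1 : R.filter (fun r' => ∀ d ∈ B ∪ D, G.Adj r' d ↔ G.Adj r d) ⊆
        insert r (nearTwins G B r).toFinset := by
      intro r' hr'
      rw [mem_filter, hR, mem_filter] at hr'
      rw [mem_insert, Set.mem_toFinset]
      by_cases he : r' = r
      · exact Or.inl he
      · right
        exact hne r r' hrB (fun h => hr'.1.2.1 (mem_union_left _ h)) (fun h => he h.symm)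
          (fun d hd => (hr'.2 d hd).symm)
    have h2 := card_le_card h1
    have h4 := card_insert_le r (nearTwins G B r).toFinset
    have h5 := hdeg r hrB
    rw [Set.ncard_eq_toFinset_card'] at h5
    omega
  · -- the numbers
    have h8 : (R.card : ℝ) * (2 * Real.logb 2 (((k + 1 : ℕ) : ℝ) * n / R.card) + 1) ≤
        0.2366 * n := by
      apply num2 h3 hk
      refine le_trans ?_ ht
      have h9 : (R.card : ℝ) ≤ S.ncard := by exact_mod_cast hRc
      have h10 : 0 ≤ 1 + Real.logb 2 ((k : ℝ) + 1) := by linarith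
      apply mul_le_mul_of_nonneg_right _ h10
      linarith
    have h9 : ((B ∪ D).card : ℝ) ≤ n / (16 * L) + n / (8 * L) + 1 := by
      have h10 : ((B ∪ D).card : ℝ) ≤ B.card + D.card := by exact_mod_cast card_union_le B D
      have h11 : (B.card : ℝ) ≤ n / (16 * L) := by
        rw [le_div_iff₀ (by linarith)]
        linarith
      have h12 : 2 * n * L / (16 * L ^ 2) = n / (8 * L) := by
        have : L ≠ 0 := by linarith
        field_simp
        ring
      rw [h12] at hDc
      linarith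
    have e1 : 2 * Real.logb 2 n ≤ 2.8854 * L := by
      rw [Real.logb, ← hL]
      have : L / Real.log 2 ≤ 1.4427 * L := by
        rw [div_le_iff₀ (by linarith)]
        nlinarith
      linarith
    have e2 : ((B ∪ D).card : ℝ) * (2 * Real.logb 2 n + 1) ≤
        (n / (16 * L) + n / (8 * L) + 1) * (2.8854 * L + 1) := by
      have h10 : 0 ≤ Real.logb 2 n := Real.logb_nonneg (by norm_num) (by linarith)
      apply mul_le_mul h9 (by linarith) (by linarith)
      have : 0 ≤ n / (16 * L) := div_nonneg (by linarith) (by linarith)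
      have : 0 ≤ n / (8 * L) := div_nonneg (by linarith) (by linarith)
      linarith
    have e3 : (n / (16 * L) + n / (8 * L) + 1) * (2.8854 * L + 1) =
        0.5410125 * n + 3 / 16 * (n / L) + 2.8854 * L + 1 := by
      have : L ≠ 0 := by linarith
      field_simp
      ring
    have e4 : n / L ≤ 0.2062 * n := by
      rw [div_le_iff₀ (by linarith)]
      nlinarith
    have e5 : L ≤ L ^ 2 / 10 + 2.5 := by nlinarith [sq_nonneg (L - 5)]
    rw [e3] at e2
    linarith

end Pool.Agent.H71.LOC
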